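import Pool.Agent.Work.MP_a793bb_nt.Rad.Defs

/-!
# Siegel's lemma for the auxiliary polynomial

Proof. Apply Mathlib's `Int.Matrix.exists_ne_zero_int_vec_norm_le` to the matrix
`A : Matrix (Fin L) (Fin I × Fin J) ℤ`, `A l (k, j) = (n k + j).choose l`.
Here `m = L`, `card = I J`, `m < card` because `(I J + 7) / 8 ≥ 1`, and `0 < m` because `I J ≥ 8`
(so `L ≥ 7`). Every entry is at most `2 ^ (n k + j) ≤ 2 ^ (n I)` since `n k + j < n (k + 1) ≤ n I`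
(as `j < J ≤ n`). So `‖A‖ ≤ 2 ^ (n I)` and the solution `t` has
`‖t‖ ≤ (I J * 2 ^ (n I)) ^ (L / (I J - L))`, with `I J - L = (I J + 7) / 8 ≥ I J / 8` and
`L ≤ 7 I J / 8`, so the exponent is at most `7`. Extend `t` to `ℕ × ℕ` by `0`
(`if h : k < I ∧ j < J then t (⟨k, h.1⟩, ⟨j, h.2⟩) else 0`).
-/

set_option autoImplicit false

namespace AbcRad

open Polynomial Finset

attribute [local instance] Matrix.seminormedAddCommGroup

theorem siegel (n I J L : ℕ) (hJ : 8 ≤ J) (hJn : J ≤ n) (hI : 1 ≤ I)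
    (hL : L = I * J - (I * J + 7) / 8) :
    ∃ p : ℕ → ℕ → ℤ, (∃ k < I, ∃ j < J, p k j ≠ 0) ∧ (∀ l < L, tay p n I J l = 0) ∧
      ∀ k < I, ∀ j < J, |(p k j : ℝ)| ≤ ((I * J : ℕ) * (2 : ℝ) ^ (n * I)) ^ 7 := by
  classical
  have hIJ8 : 8 ≤ I * J := by nlinarith
  have hLlt : L < I * J := by omega
  have hLpos : 0 < L := by omega
  obtain ⟨A, hA⟩ : ∃ A : Matrix (Fin L) (Fin I × Fin J) ℤ,
      ∀ l x, A l x = ((n * (x.1 : ℕ) + (x.2 : ℕ)).choose (l : ℕ) : ℤ) := ⟨fun l x => _, fun l x => rfl⟩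
  have hc1 : Fintype.card (Fin L) = L := Fintype.card_fin L
  have hc2 : Fintype.card (Fin I × Fin J) = I * J := by simp
  obtain ⟨t, ht0, htA, htn⟩ := Int.Matrix.exists_ne_zero_int_vec_norm_le A
    (by rw [hc1, hc2]; exact hLlt) (by rw [hc1]; exact hLpos)
  rw [hc1, hc2] at htn
  have hnorm : ‖A‖ ≤ (2 : ℝ) ^ (n * I) := by
    rw [Matrix.norm_le_iff (by positivity)]
    intro l x
    rw [hA l x, Int.norm_eq_abs]
    have h1 : (n * (x.1 : ℕ) + (x.2 : ℕ)).choose (l : ℕ) ≤ 2 ^ (n * I) := by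
      refine le_trans (Nat.choose_le_two_pow _ _) (Nat.pow_le_pow_right (by norm_num) ?_)
      have hx1 : (x.1 : ℕ) + 1 ≤ I := x.1.2
      have hx2 : (x.2 : ℕ) < J := x.2.2
      nlinarith [Nat.mul_le_mul_left n hx1]
    rw [abs_of_nonneg (by positivity)]
    exact_mod_cast h1
  have hmax : max 1 ‖A‖ ≤ (2 : ℝ) ^ (n * I) :=
    max_le (one_le_pow₀ (by norm_num)) hnorm
  have hbase1 : (1 : ℝ) ≤ ((I * J : ℕ) : ℝ) * max 1 ‖A‖ := by
    have h1 : (1 : ℝ) ≤ ((I * J : ℕ) : ℝ) := by exact_mod_cast (by omega : 1 ≤ I * J)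
    exact one_le_mul_of_one_le_of_one_le h1 (le_max_left _ _)
  have hexp : ((L : ℝ) / (((I * J : ℕ) : ℝ) - L)) ≤ 7 := by
    have hlt : (L : ℝ) < ((I * J : ℕ) : ℝ) := by exact_mod_cast hLlt
    rw [div_le_iff₀ (by linarith)]
    have h8 : (8 * L : ℕ) ≤ 7 * (I * J) := by omega
    have h8' : (8 : ℝ) * L ≤ 7 * ((I * J : ℕ) : ℝ) := by exact_mod_cast h8
    linarith
  have hfin : ‖t‖ ≤ (((I * J : ℕ) : ℝ) * (2 : ℝ) ^ (n * I)) ^ 7 := by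
    calc ‖t‖ ≤ (((I * J : ℕ) : ℝ) * max 1 ‖A‖) ^ ((L : ℝ) / (((I * J : ℕ) : ℝ) - L)) := htn
      _ ≤ (((I * J : ℕ) : ℝ) * max 1 ‖A‖) ^ (7 : ℝ) := Real.rpow_le_rpow_of_exponent_le hbase1 hexp
      _ = (((I * J : ℕ) : ℝ) * max 1 ‖A‖) ^ 7 := by
          rw [show (7 : ℝ) = ((7 : ℕ) : ℝ) by norm_num, Real.rpow_natCast]
      _ ≤ (((I * J : ℕ) : ℝ) * (2 : ℝ) ^ (n * I)) ^ 7 := by
          gcongr
  refine ⟨fun k j => if h : k < I ∧ j < J then t (⟨k, h.1⟩, ⟨j, h.2⟩) else 0, ?_, ?_, ?_⟩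
  · obtain ⟨x, hx⟩ := Function.ne_iff.mp ht0
    refine ⟨x.1, x.1.2, x.2, x.2.2, ?_⟩
    simpa using hx
  · intro l hl
    have h1 : ∑ x : Fin I × Fin J, A ⟨l, hl⟩ x * t x = 0 := congrFun htA ⟨l, hl⟩
    rw [← h1, Fintype.sum_prod_type]
    unfold tay
    rw [Finset.sum_range]
    refine Finset.sum_congr rfl fun k _ => ?_
    rw [Finset.sum_range]
    refine Finset.sum_congr rfl fun j _ => ?_
    rw [hA ⟨l, hl⟩ (k, j)]
    simp [mul_comm]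
  · intro k hk j hj
    have h1 : ‖t (⟨k, hk⟩, ⟨j, hj⟩)‖ ≤ ‖t‖ := norm_le_pi_norm t _
    rw [Int.norm_eq_abs] at h1
    simp only [hk, hj, and_self, dite_true]
    exact h1.trans hfin

end AbcRad
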