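import Pool.Agent.Work.MP_a793bb_nt.Rad.Defs

/-!
# Costs

Proofs. `smallPart_mul`: the prime factors of `a b` are the disjoint union of those of `a` and `b`.
`side_cost`: `smallPart ≤ rad`, which gives the first case; in the second case `M` is a prime
factor of `z` that is not in the small part, so `smallPart * M ≤ rad z` (product over a subset of
the prime factors), and `R ^ (2 δ) ≥ 1`.
`three_costs`: put `A = sa * Ma`, `B = sb * Mb`, `C = sc * Mc`, all `≥ 1`... then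
`A B C ≤ R ^ (1 + 6 δ)` and
`(sa sc Mb ^ 2) (sa sb Mc ^ 2) (sb sc Ma ^ 2) = (A B C) ^ 2 ≤ (R ^ (2 / 3 + 4 δ)) ^ 3`, so one of
the three factors is at most `R ^ (2 / 3 + 4 δ)`.
`rad_mul`: `rad` is multiplicative on coprime numbers; `smallPart_pos`; `rad_pos`.
-/

set_option autoImplicit false

namespace AbcRad

open Finset

theorem rad_pos (m : ℕ) : 0 < rad m :=
  prod_pos fun _ hp => (Nat.prime_of_mem_primeFactors hp).pos

theorem rad_mul (a b : ℕ) (h : Nat.Coprime a b) : rad (a * b) = rad a * rad b := by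
  unfold rad
  rw [h.primeFactors_mul, prod_union h.disjoint_primeFactors]

theorem smallPart_pos (Y : ℝ) (m : ℕ) : 0 < smallPart Y m :=
  prod_pos fun _ hp => (Nat.prime_of_mem_primeFactors (mem_filter.1 hp).1).pos

theorem smallPart_mul (Y : ℝ) (a b : ℕ) (h : Nat.Coprime a b) :
    smallPart Y (a * b) = smallPart Y a * smallPart Y b := by
  classical
  unfold smallPart
  rw [h.primeFactors_mul, filter_union, prod_union]
  exact disjoint_filter_filter h.disjoint_primeFactors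

theorem smallPart_dvd_rad (Y : ℝ) (m : ℕ) : smallPart Y m ∣ rad m :=
  prod_dvd_prod_of_subset _ _ _ (filter_subset _ _)

theorem side_cost (δ R : ℝ) (hδ : 0 < δ) (hR : 2 ≤ R) (z M : ℕ) (hz : 0 < z)
    (h : (M : ℝ) ≤ R ^ (2 * δ) ∨ (M.Prime ∧ R ^ δ < (M : ℝ) ∧ M ∣ z)) :
    (smallPart (R ^ δ) z : ℝ) * M ≤ rad z * R ^ (2 * δ) := by
  classical
  have hr0 : (0 : ℝ) < rad z := by exact_mod_cast rad_pos z
  rcases h with h | ⟨hp, hM, hd⟩
  · have h1 : (smallPart (R ^ δ) z : ℝ) ≤ rad z := by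
      exact_mod_cast Nat.le_of_dvd (rad_pos z) (smallPart_dvd_rad _ z)
    exact mul_le_mul h1 h (Nat.cast_nonneg _) hr0.le
  · have h1 : smallPart (R ^ δ) z * M ∣ rad z := by
      have h2 : M ∉ z.primeFactors.filter (fun p : ℕ => (p : ℝ) ≤ R ^ δ) := by
        intro h3
        have h4 := (mem_filter.1 h3).2
        linarith
      have h3 : smallPart (R ^ δ) z * M =
          ∏ p ∈ insert M (z.primeFactors.filter (fun p : ℕ => (p : ℝ) ≤ R ^ δ)), p := by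
        rw [prod_insert h2, mul_comm]
        rfl
      rw [h3]
      refine prod_dvd_prod_of_subset _ _ _ ?_
      intro p hp'
      rcases mem_insert.1 hp' with rfl | hp'
      · exact Nat.mem_primeFactors.2 ⟨hp, hd, hz.ne'⟩
      · exact (mem_filter.1 hp').1
    have h2 : ((smallPart (R ^ δ) z * M : ℕ) : ℝ) ≤ rad z := by
      exact_mod_cast Nat.le_of_dvd (rad_pos z) h1
    push_cast at h2
    have h3 : (1 : ℝ) ≤ R ^ (2 * δ) := Real.one_le_rpow (by linarith) (by linarith)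
    calc (smallPart (R ^ δ) z : ℝ) * M ≤ rad z := h2
      _ = rad z * 1 := (mul_one _).symm
      _ ≤ _ := mul_le_mul_of_nonneg_left h3 hr0.le

theorem three_costs (δ R : ℝ) (hδ : 0 < δ) (hR : 2 ≤ R) (sa sb sc Ma Mb Mc ra rb rc : ℝ)
    (hsa : 1 ≤ sa) (hsb : 1 ≤ sb) (hsc : 1 ≤ sc) (hMa : 0 ≤ Ma) (hMb : 0 ≤ Mb) (hMc : 0 ≤ Mc)
    (hra : 1 ≤ ra) (hrb : 1 ≤ rb) (hrc : 1 ≤ rc)
    (ha : sa * Ma ≤ ra * R ^ (2 * δ)) (hb : sb * Mb ≤ rb * R ^ (2 * δ))
    (hc : sc * Mc ≤ rc * R ^ (2 * δ)) (hr : ra * rb * rc ≤ R) :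
    sa * sc * Mb ^ 2 ≤ R ^ (2 / 3 + 4 * δ) ∨ sa * sb * Mc ^ 2 ≤ R ^ (2 / 3 + 4 * δ) ∨
      sb * sc * Ma ^ 2 ≤ R ^ (2 / 3 + 4 * δ) := by
  by_contra hcon
  push Not at hcon
  obtain ⟨h1, h2, h3⟩ := hcon
  have hR0 : (0 : ℝ) < R := by linarith
  have hP : (0 : ℝ) < R ^ (2 / 3 + 4 * δ) := Real.rpow_pos_of_pos hR0 _
  have hD : (0 : ℝ) < R ^ (2 * δ) := Real.rpow_pos_of_pos hR0 _
  have h4 : R ^ (2 / 3 + 4 * δ) * R ^ (2 / 3 + 4 * δ) * R ^ (2 / 3 + 4 * δ) <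
      (sa * sc * Mb ^ 2) * (sa * sb * Mc ^ 2) * (sb * sc * Ma ^ 2) := by
    have h5 : R ^ (2 / 3 + 4 * δ) * R ^ (2 / 3 + 4 * δ) <
        (sa * sc * Mb ^ 2) * (sa * sb * Mc ^ 2) := mul_lt_mul'' h1 h2 hP.le hP.le
    exact mul_lt_mul'' h5 h3 (by positivity) hP.le
  have h6 : (sa * sc * Mb ^ 2) * (sa * sb * Mc ^ 2) * (sb * sc * Ma ^ 2) =
      ((sa * Ma) * (sb * Mb) * (sc * Mc)) ^ 2 := by ring
  have h7 : (sa * Ma) * (sb * Mb) * (sc * Mc) ≤
      (ra * R ^ (2 * δ)) * (rb * R ^ (2 * δ)) * (rc * R ^ (2 * δ)) := by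
    refine mul_le_mul (mul_le_mul ha hb (by positivity) (by positivity)) hc (by positivity)
      (by positivity)
  have h8 : (ra * R ^ (2 * δ)) * (rb * R ^ (2 * δ)) * (rc * R ^ (2 * δ)) ≤
      R * (R ^ (2 * δ)) ^ 3 := by
    calc (ra * R ^ (2 * δ)) * (rb * R ^ (2 * δ)) * (rc * R ^ (2 * δ)) =
        (ra * rb * rc) * (R ^ (2 * δ)) ^ 3 := by ring
      _ ≤ _ := mul_le_mul_of_nonneg_right hr (by positivity)
  have h9 : R * (R ^ (2 * δ)) ^ 3 = R ^ (1 + 6 * δ) := by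
    rw [← Real.rpow_natCast, ← Real.rpow_mul hR0.le, ← Real.rpow_one_add' hR0.le (by positivity)]
    congr 1
    push_cast
    ring
  have h10 : (R ^ (1 + 6 * δ)) ^ 2 =
      R ^ (2 / 3 + 4 * δ) * R ^ (2 / 3 + 4 * δ) * R ^ (2 / 3 + 4 * δ) := by
    rw [← Real.rpow_natCast, ← Real.rpow_mul hR0.le, ← Real.rpow_add hR0, ← Real.rpow_add hR0]
    congr 1
    push_cast
    ring
  have h11 : ((sa * Ma) * (sb * Mb) * (sc * Mc)) ^ 2 ≤ (R ^ (1 + 6 * δ)) ^ 2 := by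
    refine pow_le_pow_left₀ (by positivity) ?_ 2
    rw [← h9]
    exact h7.trans h8
  rw [h6] at h4
  rw [h10] at h11
  linarith

end AbcRad
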