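import Pool.Agent.Work.MP_a793bb_nt.Rad.Defs
import Pool.Agent.Work.MP_a793bb_nt.TR.Tau

/-!
# Arithmetic sums

Proofs. `pow_omega`: `2 ^ ω(D) ≤ τ(D)`, and if `A ≤ 2 ^ k` then `A ^ ω(D) ≤ τ(D) ^ k`; use a divisor
bound `τ(D) ≤ C D ^ (η / k)` (see `TR/Tau.lean` in this folder).
`sum_pairs`: with `Z = ⌊Y⌋₊`, `∑_{D ≤ Z} ∑_{M ^ 2 ≤ Z / D} M ≤ ∑_D Z / D ≤ Y (1 + log Y)`, because
`∑_{M ≤ m} M ≤ m ^ 2` and `M ^ 2 ≤ Z / D`.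
-/

set_option autoImplicit false

namespace AbcRad

open Finset

/-- The pairs `(D, M)` of positive integers with `D M ^ 2 ≤ Y`. -/
noncomputable def pairs (Y : ℝ) : Finset (ℕ × ℕ) :=
  (Icc 1 ⌊Y⌋₊ ×ˢ Icc 1 ⌊Y⌋₊).filter (fun q => q.1 * q.2 ^ 2 ≤ ⌊Y⌋₊)

theorem pow_omega (A : ℕ) (η : ℝ) (hη : 0 < η) :
    ∃ C : ℝ, 1 ≤ C ∧ ∀ D : ℕ, 1 ≤ D →
      (A : ℝ) ^ (D.primeFactors.card) ≤ C * (D : ℝ) ^ η := by
  obtain ⟨k, hk0, hk⟩ : ∃ k : ℕ, 0 < k ∧ A ≤ 2 ^ k :=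
    ⟨A + 1, Nat.succ_pos _, (Nat.lt_two_pow_self.le).trans (Nat.pow_le_pow_right (by norm_num) (Nat.le_succ A))⟩
  have hk0' : (0 : ℝ) < k := by exact_mod_cast hk0
  obtain ⟨C, hC, h⟩ := AbcTR.card_divisors_le (ε := η / k) (by positivity)
  refine ⟨C ^ k, one_le_pow₀ hC, fun D hD => ?_⟩
  have hτ : 2 ^ D.primeFactors.card ≤ D.divisors.card := by
    rw [Nat.card_divisors (by omega)]
    refine Finset.pow_card_le_prod _ _ _ fun p hp => ?_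
    have hp' := Nat.mem_primeFactors.1 hp
    have := hp'.1.factorization_pos_of_dvd hp'.2.2 hp'.2.1
    omega
  have hτ' : (2 : ℝ) ^ D.primeFactors.card ≤ D.divisors.card := by exact_mod_cast hτ
  have hD0 : (0 : ℝ) ≤ D := by positivity
  have hA : (A : ℝ) ≤ 2 ^ k := by exact_mod_cast hk
  calc (A : ℝ) ^ D.primeFactors.card ≤ (2 ^ k) ^ D.primeFactors.card :=
        pow_le_pow_left₀ (by positivity) hA _
    _ = (2 ^ D.primeFactors.card) ^ k := by rw [← pow_mul, ← pow_mul, mul_comm]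
    _ ≤ (C * (D : ℝ) ^ (η / k)) ^ k := by
        refine pow_le_pow_left₀ (by positivity) (hτ'.trans (h D hD)) _
    _ = C ^ k * (D : ℝ) ^ η := by
        rw [mul_pow, ← Real.rpow_natCast ((D : ℝ) ^ (η / k)) k, ← Real.rpow_mul hD0]
        congr 2
        field_simp

theorem sum_pairs (Y : ℝ) (hY : 1 ≤ Y) :
    ∑ q ∈ pairs Y, (q.2 : ℝ) ≤ Y * (1 + Real.log Y) := by
  have hY0 : 0 ≤ Y := by linarith
  have hZ : ((⌊Y⌋₊ : ℕ) : ℝ) ≤ Y := Nat.floor_le hY0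
  have hin : ∀ D ∈ Icc 1 ⌊Y⌋₊, ∑ M ∈ (Icc 1 ⌊Y⌋₊).filter (fun M => D * M ^ 2 ≤ ⌊Y⌋₊), (M : ℝ) ≤
      Y * (D : ℝ)⁻¹ := by
    intro D hD
    rw [mem_Icc] at hD
    have hD0 : 0 < D := hD.1
    have hsub : (Icc 1 ⌊Y⌋₊).filter (fun M => D * M ^ 2 ≤ ⌊Y⌋₊) ⊆
        Icc 1 (Nat.sqrt (⌊Y⌋₊ / D)) := by
      intro M hM
      rw [mem_filter, mem_Icc] at hM
      rw [mem_Icc]
      refine ⟨hM.1.1, ?_⟩
      rw [Nat.le_sqrt, Nat.le_div_iff_mul_le hD0]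
      nlinarith [hM.2]
    have h1 : ∀ m : ℕ, ∑ M ∈ Icc 1 m, (M : ℝ) ≤ (m : ℝ) ^ 2 := by
      intro m
      have : ∑ M ∈ Icc 1 m, (M : ℝ) ≤ ∑ M ∈ Icc 1 m, (m : ℝ) :=
        sum_le_sum fun M hM => by exact_mod_cast (mem_Icc.1 hM).2
      refine this.trans (le_of_eq ?_)
      rw [sum_const, Nat.card_Icc, nsmul_eq_mul, Nat.add_sub_cancel]
      ring
    calc ∑ M ∈ (Icc 1 ⌊Y⌋₊).filter (fun M => D * M ^ 2 ≤ ⌊Y⌋₊), (M : ℝ)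
        ≤ ∑ M ∈ Icc 1 (Nat.sqrt (⌊Y⌋₊ / D)), (M : ℝ) :=
          sum_le_sum_of_subset_of_nonneg hsub fun _ _ _ => by positivity
      _ ≤ ((Nat.sqrt (⌊Y⌋₊ / D) : ℕ) : ℝ) ^ 2 := h1 _
      _ ≤ ((⌊Y⌋₊ / D : ℕ) : ℝ) := by exact_mod_cast Nat.sqrt_le' _
      _ ≤ (⌊Y⌋₊ : ℝ) / D := Nat.cast_div_le
      _ ≤ Y * (D : ℝ)⁻¹ := by
          rw [div_eq_mul_inv]
          exact mul_le_mul_of_nonneg_right hZ (by positivity)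
  have hsum : ∑ q ∈ pairs Y, (q.2 : ℝ) = ∑ D ∈ Icc 1 ⌊Y⌋₊,
      ∑ M ∈ (Icc 1 ⌊Y⌋₊).filter (fun M => D * M ^ 2 ≤ ⌊Y⌋₊), (M : ℝ) := by
    rw [pairs, sum_filter, sum_product]
    refine sum_congr rfl fun D _ => ?_
    rw [sum_filter]
  rw [hsum]
  refine (sum_le_sum hin).trans ?_
  rw [← mul_sum]
  refine mul_le_mul_of_nonneg_left ?_ hY0
  have h3 := harmonic_floor_le_one_add_log Y hY
  rw [harmonic_eq_sum_Icc] at h3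
  push_cast at h3
  exact h3

end AbcRad
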