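import Pool.Agent.Work.MP_a793bb_nt.Rad.CellP
import Pool.Agent.Work.MP_a793bb_nt.Rad.Cost
import Pool.Agent.Work.MP_a793bb_nt.Rad.PowOmega

/-!
# Counting the solutions in `p`-adic cells

Proof. Choose for every `x ∈ S` an `M x` as in `PCap`, and put `D x = smallPart (R ^ δ) (x.1 x.2)`
(`≥ 1` by `smallPart_pos`). `M x ≥ R ^ δ > 0`, and `xiD n x` is coprime to `M x` (`xiD_cop`), so there is
`v x < M x` with `M x ∣ xiN n x - v x * xiD n x` (multiply by the inverse of `xiD` modulo `M x`).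
Put `c = ⌈1 / κ⌉₊`, and `φ x p = ⌊gr n (ev x p) / (κ n)⌋ ∈ [-c, c]` (as `|gr| ≤ n / 2` by `gr_abs`,
`|gr / (κ n)| ≤ 1 / (2 κ)`, and `n ≥ 8` by `Par`; if `1 / κ` is small note `⌊t⌋ ≥ -c` for
`t ≥ -1 / (2 κ)`, since `-c ≤ -1 / κ ≤ t`). The label `(D x, M x, v x, φ x restricted to
(D x).primeFactors)` determines `x` by `cell_unique`. So `S.card` is at most the number of labels,
which is at most the sum over `(D, M) ∈ pairs Y` of `M * (2 c + 1) ^ ω(D)`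
(`D * M ^ 2 ≤ Y` and natural, so `≤ ⌊Y⌋₊`; in particular `D, M ≤ ⌊Y⌋₊`).
One way: `S` is the disjoint union over `(D, M)` of the fibres; in each fibre the map
`x ↦ (v x, fun p => φ x p)` is injective into
`range M ×ˢ (D.primeFactors.pi (fun _ => Icc (-c) c))` (`Finset.card_pi`, `Finset.pi`).
-/

set_option autoImplicit false

namespace AbcRad

open Finset

theorem exists_class (M A B : ℕ) (hM : 0 < M) (h : M.Coprime B) :
    ∃ v < M, (M : ℤ) ∣ (A : ℤ) - v * B := by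
  have : NeZero M := ⟨hM.ne'⟩
  have hB : (B : ZMod M) * (B : ZMod M)⁻¹ = 1 :=
    ZMod.coe_mul_inv_eq_one B h.symm
  refine ⟨((A : ZMod M) * (B : ZMod M)⁻¹).val, ZMod.val_lt _, ?_⟩
  rw [← ZMod.intCast_zmod_eq_zero_iff_dvd]
  push_cast
  rw [ZMod.natCast_val, ZMod.cast_id, mul_assoc, mul_comm ((B : ZMod M)⁻¹), hB, mul_one, sub_self]

theorem phi_range (κ : ℝ) (hκ : 0 < κ) (n : ℕ) (hn : 1 ≤ n) (e : ℤ) :
    ⌊(gr n e : ℝ) / (κ * n)⌋ ∈ Icc (-(⌈1 / κ⌉₊ : ℤ)) (⌈1 / κ⌉₊ : ℤ) := by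
  have hn0 : (0 : ℝ) < n := by exact_mod_cast hn
  have h1 : 2 * |gr n e| ≤ n := gr_abs n hn e
  have h2 : 2 * |(gr n e : ℝ)| ≤ n := by exact_mod_cast h1
  have h3 : |(gr n e : ℝ) / (κ * n)| ≤ 1 / κ := by
    rw [abs_div, abs_of_pos (mul_pos hκ hn0), div_le_div_iff₀ (mul_pos hκ hn0) hκ]
    nlinarith [abs_nonneg (gr n e : ℝ)]
  have h4 : (1 / κ : ℝ) ≤ ⌈1 / κ⌉₊ := Nat.le_ceil _
  rw [abs_le] at h3
  rw [Finset.mem_Icc]
  constructor
  · rw [Int.le_floor]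
    push_cast
    linarith [h3.1]
  · have h5 : (⌊(gr n e : ℝ) / (κ * n)⌋ : ℝ) ≤ (⌈1 / κ⌉₊ : ℝ) :=
      (Int.floor_le _).trans (h3.2.trans h4)
    exact_mod_cast h5

theorem count_P (δ κ R Q Y : ℝ) (n I J L0 : ℕ) (s : ℤ) (hP : Par δ κ R Q n I J L0)
    (S : Finset (ℕ × ℕ)) (hS : ∀ x ∈ S, PCap δ κ R Q Y n L0 s x) :
    (S.card : ℝ) ≤ ∑ q ∈ pairs Y,
      (((2 * ⌈1 / κ⌉₊ + 1 : ℕ) : ℝ) ^ (q.1.primeFactors.card) * (q.2 : ℝ)) := by
  classical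
  have hn1 : 1 ≤ n := by
    have := hP.hJ8
    have := hP.hJn
    omega
  have hRδ : (0 : ℝ) < R ^ δ := Real.rpow_pos_of_pos (by linarith [hP.hR]) _
  have hex : ∀ x ∈ S, ∃ M : ℕ, R ^ δ ≤ (M : ℝ) ∧ M.Coprime (x.1 * x.2) ∧
      (M : ℤ) ^ L0 ∣ (x.1 : ℤ) - s * x.2 ∧
      (smallPart (R ^ δ) (x.1 * x.2) : ℝ) * (M : ℝ) ^ 2 ≤ Y := fun x hx => (hS x hx).2
  choose! Mf hM1 hM2 hM3 hM4 using hex
  have hMpos : ∀ x ∈ S, 0 < Mf x := by
    intro x hx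
    have h := hRδ.trans_le (hM1 x hx)
    exact_mod_cast h
  have hvx : ∀ x ∈ S, ∃ v : ℕ, v < Mf x ∧ (Mf x : ℤ) ∣ (xiN n x : ℤ) - v * xiD n x := by
    intro x hx
    have hb := (hS x hx).1
    obtain ⟨v, hv, hv2⟩ := exists_class (Mf x) (xiN n x) (xiD n x) (hMpos x hx)
      (xiD_cop n (Mf x) x (hM2 x hx) (Nat.mul_ne_zero hb.pos1.ne' hb.pos2.ne'))
    exact ⟨v, hv, hv2⟩
  choose! vf hv1 hv2 using hvx
  have hmaps : ∀ x ∈ S, (smallPart (R ^ δ) (x.1 * x.2), Mf x) ∈ pairs Y := by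
    intro x hx
    have hD := smallPart_pos (R ^ δ) (x.1 * x.2)
    have hM := hMpos x hx
    have h1 : smallPart (R ^ δ) (x.1 * x.2) * Mf x ^ 2 ≤ ⌊Y⌋₊ := by
      apply Nat.le_floor
      push_cast
      exact hM4 x hx
    unfold pairs
    rw [Finset.mem_filter, Finset.mem_product, Finset.mem_Icc, Finset.mem_Icc]
    refine ⟨⟨⟨hD, ?_⟩, ⟨hM, ?_⟩⟩, h1⟩
    · refine le_trans ?_ h1
      exact Nat.le_mul_of_pos_right _ (pow_pos hM 2)
    · refine le_trans ?_ h1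
      calc Mf x ≤ Mf x ^ 2 := Nat.le_self_pow two_ne_zero _
        _ ≤ smallPart (R ^ δ) (x.1 * x.2) * Mf x ^ 2 := Nat.le_mul_of_pos_left _ hD
  have hcard := Finset.card_eq_sum_card_fiberwise
    (f := fun x : ℕ × ℕ => (smallPart (R ^ δ) (x.1 * x.2), Mf x)) (s := S) (t := pairs Y)
    (fun x hx => hmaps x hx)
  rw [hcard]
  push_cast
  refine Finset.sum_le_sum ?_
  intro q hq
  have hle : (S.filter (fun x : ℕ × ℕ =>
      (smallPart (R ^ δ) (x.1 * x.2), Mf x) = q)).card ≤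
      (range q.2 ×ˢ (q.1.primeFactors.pi
        (fun _ => Icc (-(⌈1 / κ⌉₊ : ℤ)) (⌈1 / κ⌉₊ : ℤ)))).card := by
    refine Finset.card_le_card_of_injOn
      (fun x => (vf x, fun p (_ : p ∈ q.1.primeFactors) => ⌊(gr n (ev x p) : ℝ) / (κ * n)⌋))
      ?_ ?_
    · intro x hx
      rw [Finset.mem_coe, Finset.mem_filter] at hx
      obtain ⟨hxS, hxq⟩ := hx
      have hMq : Mf x = q.2 := by rw [← hxq]
      rw [Finset.mem_coe, Finset.mem_product]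
      refine ⟨?_, ?_⟩
      · rw [Finset.mem_range, ← hMq]
        exact hv1 x hxS
      · rw [Finset.mem_pi]
        intro p hp
        exact phi_range κ hP.hκ n hn1 _
    · intro x hx y hy hxy
      rw [Finset.mem_coe, Finset.mem_filter] at hx hy
      obtain ⟨hxS, hxq⟩ := hx
      obtain ⟨hyS, hyq⟩ := hy
      have hMq : Mf x = q.2 := by rw [← hxq]
      have hMq' : Mf y = q.2 := by rw [← hyq]
      have hDq : smallPart (R ^ δ) (x.1 * x.2) = q.1 := by rw [← hxq]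
      have hDq' : smallPart (R ^ δ) (y.1 * y.2) = q.1 := by rw [← hyq]
      simp only [Prod.mk.injEq] at hxy
      obtain ⟨hv, hf⟩ := hxy
      have hMM : Mf y = Mf x := by rw [hMq, hMq']
      refine cell_unique δ κ R Q n I J L0 (Mf x) (vf x) s hP x y (hS x hxS).1 (hS y hyS).1
        (by rw [hDq, hDq']) ?_ (hM1 x hxS) (hM2 x hxS) ?_ (hM3 x hxS) ?_ (hv2 x hxS) ?_
      · intro p hp
        rw [hDq] at hp
        exact congrFun (congrFun hf p) hp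
      · rw [← hMM]
        exact hM2 y hyS
      · rw [← hMM]
        exact hM3 y hyS
      · rw [← hMM, hv]
        exact hv2 y hyS
  have hc2 : (range q.2 ×ˢ (q.1.primeFactors.pi
        (fun _ => Icc (-(⌈1 / κ⌉₊ : ℤ)) (⌈1 / κ⌉₊ : ℤ)))).card =
      (2 * ⌈1 / κ⌉₊ + 1) ^ (q.1.primeFactors.card) * q.2 := by
    rw [Finset.card_product, Finset.card_range, Finset.card_pi, Finset.prod_const, Int.card_Icc]
    have : ((⌈1 / κ⌉₊ : ℤ) + 1 - -(⌈1 / κ⌉₊ : ℤ)).toNat = 2 * ⌈1 / κ⌉₊ + 1 := by omega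
    rw [this, mul_comm]
  rw [hc2] at hle
  exact_mod_cast hle

end AbcRad
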