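import Pool.Agent.Work.MP_a793bb_nt.Rad.FrGr

/-!
# Simultaneous approximation

Proof. Put `b = ⌈2 / κ⌉₊ ≥ 1`. Pigeonhole on `h ∈ {0, ..., K}` (`K + 1` values): the map
`h ↦ (⌊b * Int.fract (h * e p / N)⌋)_{p ∈ S}` takes at most `b ^ S.card ≤ b ^ m = K` values
(`Finset.pi` or functions `S → Fin b`), so there are `h1 < h2 ≤ K` with the same value; put
`h = h2 - h1`, `1 ≤ h ≤ K`. For `p ∈ S`, `|Int.fract (h2 e / N) - Int.fract (h1 e / N)| < 1 / b`, so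
`|h e / N - k| ≤ 1 / b ≤ κ / 2` for the integer `k = ⌊h2 e / N⌋ - ⌊h1 e / N⌋`.
Let `n = N / h` (natural division), `n ≥ 1` and `h n ≤ N < h n + h`, and `2 h ≤ 2 K ≤ N` gives
`n ≥ N / (2 h)` (real; since `h n > N - h ≥ N / 2`). Then
`|e / n - h e / N| = |e| (N - h n) / (n N) ≤ E h / (n N) ≤ 2 E h ^ 2 / N ^ 2 ≤ κ / 2` by `hNE`.
So `|e / n - k| ≤ κ`, `|e - n k| ≤ κ n`, and `gr_min` gives `|gr n e| ≤ κ n`.
-/

set_option autoImplicit false

namespace AbcRad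

theorem dirichlet (κ : ℝ) (hκ : 0 < κ) (hκ1 : κ ≤ 1) (m : ℕ) (E : ℝ) (hE : 0 ≤ E) (N K : ℕ)
    (hK : K = ⌈2 / κ⌉₊ ^ m) (hN : 2 * K ≤ N) (hNE : 4 * E * (K : ℝ) ^ 2 ≤ κ * (N : ℝ) ^ 2)
    (S : Finset ℕ) (hS : S.card ≤ m) (e : ℕ → ℤ) (he : ∀ p ∈ S, |(e p : ℝ)| ≤ E) :
    ∃ h : ℕ, 1 ≤ h ∧ h ≤ K ∧ ∀ p ∈ S, |(gr (N / h) (e p) : ℝ)| ≤ κ * ((N / h : ℕ) : ℝ) := by
  classical
  obtain ⟨b, hb⟩ : ∃ b : ℕ, b = ⌈2 / κ⌉₊ := ⟨_, rfl⟩
  have hbκ : 2 / κ ≤ b := by rw [hb]; exact Nat.le_ceil _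
  have hb1 : 1 ≤ b := by
    rw [hb, Nat.one_le_ceil_iff]
    positivity
  have hb0 : (0 : ℝ) < b := by exact_mod_cast hb1
  rw [← hb] at hK
  have hK1 : 1 ≤ K := by
    rw [hK]
    exact Nat.one_le_pow _ _ hb1
  have hN0 : (0 : ℝ) < N := by
    have : 0 < N := by omega
    exact_mod_cast this
  -- the pigeonhole principle
  have hfl : ∀ t : ℝ, ⌊(b : ℝ) * Int.fract t⌋.toNat < b := by
    intro t
    have h1 : (b : ℝ) * Int.fract t < b := by
      have := Int.fract_lt_one t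
      nlinarith
    have h2 : ⌊(b : ℝ) * Int.fract t⌋ < (b : ℤ) := by
      rw [Int.floor_lt]
      exact_mod_cast h1
    have h3 : 0 ≤ ⌊(b : ℝ) * Int.fract t⌋ :=
      Int.floor_nonneg.2 (mul_nonneg hb0.le (Int.fract_nonneg t))
    omega
  let f : Fin (K + 1) → (S → Fin b) := fun h p =>
    ⟨⌊(b : ℝ) * Int.fract (((h : ℕ) : ℝ) * e p / N)⌋.toNat, hfl _⟩
  have hcard : Fintype.card (S → Fin b) < Fintype.card (Fin (K + 1)) := by
    rw [Fintype.card_fun, Fintype.card_fin, Fintype.card_fin, Fintype.card_coe]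
    have h1 : b ^ S.card ≤ b ^ m := Nat.pow_le_pow_right hb1 hS
    omega
  obtain ⟨a1, a2, hne, hf⟩ := Fintype.exists_ne_map_eq_of_card_lt f hcard
  obtain ⟨h1, h2, hlt, hle, hff⟩ : ∃ h1 h2 : ℕ, h1 < h2 ∧ h2 ≤ K ∧ ∀ p ∈ S,
      ⌊(b : ℝ) * Int.fract ((h1 : ℝ) * e p / N)⌋.toNat =
        ⌊(b : ℝ) * Int.fract ((h2 : ℝ) * e p / N)⌋.toNat := by
    have hf' : ∀ p ∈ S, ⌊(b : ℝ) * Int.fract (((a1 : ℕ) : ℝ) * e p / N)⌋.toNat =
        ⌊(b : ℝ) * Int.fract (((a2 : ℕ) : ℝ) * e p / N)⌋.toNat := by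
      intro p hp
      have h3 := congrFun hf ⟨p, hp⟩
      exact congrArg Fin.val h3
    rcases lt_or_gt_of_ne (fun h => hne (Fin.ext h) : (a1 : ℕ) ≠ (a2 : ℕ)) with h | h
    · exact ⟨a1, a2, h, Nat.lt_succ_iff.1 a2.2, hf'⟩
    · exact ⟨a2, a1, h, Nat.lt_succ_iff.1 a1.2, fun p hp => (hf' p hp).symm⟩
  obtain ⟨h, hh⟩ : ∃ h, h = h2 - h1 := ⟨_, rfl⟩
  have hh1 : 1 ≤ h := by omega
  have hhK : h ≤ K := by omega
  have hhr : (h : ℝ) = h2 - h1 := by
    rw [hh, Nat.cast_sub hlt.le]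
  refine ⟨h, hh1, hhK, fun p hp => ?_⟩
  have hh0 : (0 : ℝ) < h := by exact_mod_cast hh1
  -- the integer
  set t1 := (h1 : ℝ) * e p / N with ht1
  set t2 := (h2 : ℝ) * e p / N with ht2
  have hclose : |Int.fract t2 - Int.fract t1| ≤ 1 / b := by
    have h3 : ⌊(b : ℝ) * Int.fract t1⌋ = ⌊(b : ℝ) * Int.fract t2⌋ := by
      have h4 := hff p hp
      rw [← ht1, ← ht2] at h4
      have h5 : 0 ≤ ⌊(b : ℝ) * Int.fract t1⌋ :=
        Int.floor_nonneg.2 (mul_nonneg hb0.le (Int.fract_nonneg _))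
      have h6 : 0 ≤ ⌊(b : ℝ) * Int.fract t2⌋ :=
        Int.floor_nonneg.2 (mul_nonneg hb0.le (Int.fract_nonneg _))
      omega
    have q1 := Int.floor_le ((b : ℝ) * Int.fract t1)
    have q2 := Int.lt_floor_add_one ((b : ℝ) * Int.fract t1)
    have q3 := Int.floor_le ((b : ℝ) * Int.fract t2)
    have q4 := Int.lt_floor_add_one ((b : ℝ) * Int.fract t2)
    rw [h3] at q1 q2
    have q5 : |Int.fract t2 - Int.fract t1| * b = |(Int.fract t2 - Int.fract t1) * b| := by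
      rw [abs_mul, abs_of_pos hb0]
    rw [le_div_iff₀ hb0, q5, abs_le]
    constructor <;> nlinarith
  obtain ⟨n, hn⟩ : ∃ n : ℕ, n = N / h := ⟨_, rfl⟩
  rw [← hn]
  have hn1 : h * n ≤ N := by rw [hn]; exact Nat.mul_div_le N h
  have hn2 : N < h * n + h := by
    rw [hn]
    have := Nat.lt_mul_div_succ N hh1
    nlinarith
  have hn1' : (h : ℝ) * n ≤ N := by exact_mod_cast hn1
  have hn2' : (N : ℝ) < h * n + h := by exact_mod_cast hn2
  have h2h : 2 * (h : ℝ) ≤ N := by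
    have : 2 * h ≤ N := by omega
    exact_mod_cast this
  have hnpos : 1 ≤ n := by
    by_contra hcon
    have : n = 0 := by omega
    rw [this] at hn2
    omega
  have hn0 : (0 : ℝ) < n := by exact_mod_cast hnpos
  have hnN : (N : ℝ) ≤ 2 * (h * n) := by linarith
  set k : ℤ := ⌊t2⌋ - ⌊t1⌋ with hk
  have hkey : |(e p : ℝ) - n * k| ≤ κ * n := by
    have e1 : (h : ℝ) * e p / N - k = Int.fract t2 - Int.fract t1 := by
      rw [hk]
      push_cast
      have f1 := Int.floor_add_fract t1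
      have f2 := Int.floor_add_fract t2
      have f3 : (h : ℝ) * e p / N = t2 - t1 := by
        rw [hhr, ht1, ht2]
        ring
      rw [f3]
      linarith
    have e2 : (e p : ℝ) - n * k = n * ((h : ℝ) * e p / N - k) + e p * ((N - h * n) / N) := by
      field_simp
      ring
    have b1 : |(n : ℝ) * ((h : ℝ) * e p / N - k)| ≤ n * (κ / 2) := by
      rw [e1, abs_mul, abs_of_pos hn0]
      refine mul_le_mul_of_nonneg_left (hclose.trans ?_) hn0.le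
      rw [div_le_iff₀ hb0]
      have : 2 / κ * κ = 2 := by field_simp
      nlinarith
    have b2 : |(e p : ℝ) * ((N - h * n) / N)| ≤ E * (h / N) := by
      rw [abs_mul]
      refine mul_le_mul (he p hp) ?_ (abs_nonneg _) hE
      rw [abs_of_nonneg (div_nonneg (by linarith) hN0.le)]
      exact div_le_div_of_nonneg_right (by linarith) hN0.le
    have b3 : E * (h / N) ≤ n * (κ / 2) := by
      have hKh : (h : ℝ) ≤ K := by exact_mod_cast hhK
      have c1 : 4 * E * (h : ℝ) ^ 2 ≤ κ * (N : ℝ) ^ 2 := by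
        refine le_trans ?_ hNE
        exact mul_le_mul_of_nonneg_left (pow_le_pow_left₀ hh0.le hKh 2) (by linarith)
      have c2 : κ * (N : ℝ) ^ 2 ≤ κ * N * (2 * (h * n)) := by
        have := mul_le_mul_of_nonneg_left hnN (mul_pos hκ hN0).le
        nlinarith
      have c3 : 4 * E * (h : ℝ) ≤ κ * N * (2 * n) := by
        have c4 : (4 * E * (h : ℝ)) * h ≤ (κ * N * (2 * n)) * h := by nlinarith
        exact le_of_mul_le_mul_right c4 hh0
      rw [mul_div_assoc', div_le_iff₀ hN0]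
      linarith
    rw [e2]
    refine (abs_add_le _ _).trans ?_
    linarith
  have hmin := gr_min n hnpos (e p) k
  have hmin' : |(gr n (e p) : ℝ)| ≤ |(e p : ℝ) - n * k| := by exact_mod_cast hmin
  linarith

end AbcRad
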