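import Pool.Agent.Work.MP_a793bb_nt.Rad.Defs

/-!
# Bounds for `fr` and `gr`

Proofs. `fr n e = ⌊(2 e + n) / (2 n)⌋` (floor division of integers, `n ≥ 1`), so
`2 n fr ≤ 2 e + n < 2 n fr + 2 n`, that is `- n ≤ 2 (e - n fr) < n`. This gives `gr_abs`.
`gr_min`: if `m ≠ fr n e` then `|e - n m| ≥ n |m - fr| - |gr| ≥ n - n / 2 ≥ |gr|`.
`fr_abs`: if `2 |e| < n` then `fr = 0`; otherwise `n |fr| ≤ |e| + n / 2 ≤ 2 |e|`.
`fr_zero`, `gr_zero`: `(0 + n) / (2 n) = 0`.
-/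

set_option autoImplicit false

namespace AbcRad

private theorem fr_spec (n : ℕ) (hn : 1 ≤ n) (e : ℤ) :
    2 * (n : ℤ) * fr n e ≤ 2 * e + n ∧ 2 * e + n < 2 * (n : ℤ) * fr n e + 2 * n := by
  have h0 : (0 : ℤ) < 2 * (n : ℤ) := by positivity
  unfold fr
  constructor
  · exact Int.mul_ediv_self_le (ne_of_gt h0)
  · have h1 := Int.lt_ediv_add_one_mul_self (2 * e + n) h0
    linarith

theorem gr_abs (n : ℕ) (hn : 1 ≤ n) (e : ℤ) : 2 * |gr n e| ≤ n := by
  obtain ⟨h1, h2⟩ := fr_spec n hn e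
  have h3 : |2 * gr n e| ≤ n := by
    unfold gr
    rw [abs_le]
    constructor <;> linarith
  rwa [abs_mul, abs_two] at h3

theorem gr_min (n : ℕ) (hn : 1 ≤ n) (e m : ℤ) : |gr n e| ≤ |e - n * m| := by
  by_cases h : m = fr n e
  · rw [h]
    exact le_rfl
  · have h1 := gr_abs n hn e
    have h2 : (1 : ℤ) ≤ |m - fr n e| := Int.one_le_abs (sub_ne_zero.2 h)
    have h3 : e - n * m = gr n e - n * (m - fr n e) := by
      unfold gr
      ring
    have h4 : |(n : ℤ) * (m - fr n e)| - |gr n e| ≤ |e - n * m| := by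
      rw [h3, abs_sub_comm]
      exact abs_sub_abs_le_abs_sub _ _
    have h5 : (n : ℤ) ≤ |(n : ℤ) * (m - fr n e)| := by
      rw [abs_mul, Nat.abs_cast]
      nlinarith [Int.natCast_nonneg n]
    linarith

theorem fr_abs (n : ℕ) (hn : 1 ≤ n) (e : ℤ) : (n : ℤ) * |fr n e| ≤ 2 * |e| := by
  have hn' : (1 : ℤ) ≤ n := by exact_mod_cast hn
  by_cases h : fr n e = 0
  · rw [h, abs_zero, mul_zero]
    positivity
  · have h1 := gr_abs n hn e
    have h2 : (1 : ℤ) ≤ |fr n e| := Int.one_le_abs h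
    have h3 : (n : ℤ) * fr n e = e - gr n e := by
      unfold gr
      ring
    have h4 : (n : ℤ) * |fr n e| ≤ |e| + |gr n e| := by
      have h5 : |(n : ℤ) * fr n e| ≤ |e| + |gr n e| := by
        rw [h3]
        exact abs_sub _ _
      rwa [abs_mul, Nat.abs_cast] at h5
    have h6 : (n : ℤ) ≤ n * |fr n e| := by nlinarith
    linarith

theorem fr_zero (n : ℕ) (hn : 1 ≤ n) : fr n 0 = 0 := by
  unfold fr
  rw [mul_zero, zero_add]
  refine Int.ediv_eq_zero_of_lt (Int.natCast_nonneg n) ?_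
  have hn' : (1 : ℤ) ≤ n := by exact_mod_cast hn
  linarith

theorem gr_zero (n : ℕ) (hn : 1 ≤ n) : gr n 0 = 0 := by
  unfold gr
  rw [fr_zero n hn]
  ring

end AbcRad
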