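import Pool.Agent.Work.MP_a793bb_nt.Rad.Dirichlet

/-!
# Every coprime pair satisfies `Base` for some `n = N / h`

Proof. Let `S` be the set of `p ∈ (x.1 x.2).primeFactors` with `p > R ^ δ`. The product of the
elements of `S` is at most `rad (x.1 x.2) ≤ R`, so `R ^ (δ * S.card) ≤ R`, and as `R > 1`,
`δ S.card ≤ 1`, `S.card ≤ ⌊1 / δ⌋₊`. For `p ∈ S`, `ev x p` is, up to sign, `v_p (x.1)` or
`v_p (x.2)` (one of them is `0` by coprimality), and `p ^ (v_p (x.i)) ≤ x.i ≤ exp (2 Q)`, so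
`|ev x p| * (δ log R) ≤ |ev x p| log p ≤ 2 Q`, `|ev x p| ≤ E := 2 (Q / log R) / δ`.
Apply `dirichlet` with `κ = kap δ ≤ 1`, `m = ⌊1 / δ⌋₊`, `K = KK δ`, `N = NN R Q`.
-/

set_option autoImplicit false

namespace AbcRad

private theorem base_val {Q ℓ δ : ℝ} (hδ : 0 < δ) (hℓ : 0 < ℓ) {z p : ℕ} (hz : 0 < z)
    (hp : p.Prime) (hpl : δ * ℓ ≤ Real.log p) (hl : Real.log z ≤ 2 * Q) :
    ((z.factorization p : ℕ) : ℝ) ≤ 2 * (Q / ℓ) / δ := by
  have h1 : p ^ z.factorization p ≤ z := Nat.le_of_dvd hz (Nat.ordProj_dvd z p)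
  have h2 : ((p : ℝ)) ^ z.factorization p ≤ z := by exact_mod_cast h1
  have hp0 : (0 : ℝ) < p := by exact_mod_cast hp.pos
  have h3 : (z.factorization p : ℝ) * Real.log p ≤ Real.log z := by
    rw [← Real.log_pow]
    exact Real.log_le_log (by positivity) h2
  have h4 : (z.factorization p : ℝ) * (δ * ℓ) ≤ 2 * Q :=
    (mul_le_mul_of_nonneg_left hpl (by positivity)).trans (h3.trans hl)
  have h5 : 2 * (Q / ℓ) / δ = 2 * Q / (δ * ℓ) := by field_simp
  rw [h5, le_div_iff₀ (by positivity)]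
  exact h4

theorem base_exists (δ R Q : ℝ) (hδ : 0 < δ) (hδ1 : δ ≤ 1 / 10) (hR : 2 ≤ R) (hQ : 0 < Q)
    (hN : 2 * KK δ ≤ NN R Q)
    (hNE : 4 * (2 * (Q / Real.log R) / δ) * (KK δ : ℝ) ^ 2 ≤ kap δ * (NN R Q : ℝ) ^ 2)
    (x : ℕ × ℕ) (h1 : 0 < x.1) (h2 : 0 < x.2) (hc : Nat.Coprime x.1 x.2)
    (hl1 : Real.log x.1 ≤ 2 * Q) (hl2 : Real.log x.2 ≤ 2 * Q)
    (hr : (rad (x.1 * x.2) : ℝ) ≤ R) :
    ∃ h : ℕ, 1 ≤ h ∧ h ≤ KK δ ∧ Base δ (kap δ) R Q (NN R Q / h) x := by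
  classical
  have hR0 : (0 : ℝ) < R := by linarith
  have hlR : 0 < Real.log R := Real.log_pos (by linarith)
  have hRδ : 0 < R ^ δ := by positivity
  obtain ⟨S, hS⟩ : ∃ S : Finset ℕ, S = (x.1 * x.2).primeFactors.filter
    (fun p : ℕ => R ^ δ < (p : ℝ)) := ⟨_, rfl⟩
  have hSp : ∀ p ∈ S, p.Prime ∧ R ^ δ < (p : ℝ) := by
    intro p hp
    rw [hS, Finset.mem_filter] at hp
    exact ⟨Nat.prime_of_mem_primeFactors hp.1, hp.2⟩
  have hprod : (R ^ δ) ^ S.card ≤ R := by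
    have e1 : (R ^ δ) ^ S.card ≤ ∏ p ∈ S, (p : ℝ) := by
      rw [← Finset.prod_const]
      exact Finset.prod_le_prod (fun _ _ => hRδ.le) (fun p hp => (hSp p hp).2.le)
    have e2 : ∏ p ∈ S, (p : ℝ) ≤ (rad (x.1 * x.2) : ℝ) := by
      unfold rad
      push_cast
      refine Finset.prod_le_prod_of_subset_of_one_le (by rw [hS]; exact Finset.filter_subset _ _)
        (fun i _ => by positivity) ?_
      intro p hp _
      exact_mod_cast (Nat.prime_of_mem_primeFactors hp).one_lt.le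
    exact e1.trans (e2.trans hr)
  have hcard : S.card ≤ ⌊1 / δ⌋₊ := by
    apply Nat.le_floor
    have e1 : (S.card : ℝ) * (δ * Real.log R) ≤ Real.log R := by
      have := Real.log_le_log (by positivity) hprod
      rwa [Real.log_pow, Real.log_rpow hR0] at this
    rw [le_div_iff₀ hδ]
    have e2 : ((S.card : ℝ) * δ) * Real.log R ≤ 1 * Real.log R := by linarith
    exact le_of_mul_le_mul_right e2 hlR
  have hkap : 0 < kap δ := by
    unfold kap
    positivity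
  have hkap1 : kap δ ≤ 1 := by
    unfold kap
    rw [div_le_one (by norm_num)]
    have : δ ^ 3 ≤ 1 ^ 3 := pow_le_pow_left₀ hδ.le (by linarith) 3
    linarith
  have hev : ∀ p ∈ S, |(ev x p : ℝ)| ≤ 2 * (Q / Real.log R) / δ := by
    intro p hp
    obtain ⟨hpp, hpR⟩ := hSp p hp
    have hpl : δ * Real.log R ≤ Real.log p := by
      rw [← Real.log_rpow hR0]
      exact Real.log_le_log hRδ hpR.le
    have e1 := base_val hδ hlR h1 hpp hpl hl1
    have e2 := base_val hδ hlR h2 hpp hpl hl2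
    have e3 : (0 : ℝ) ≤ ((x.1.factorization p : ℕ) : ℝ) := by positivity
    have e4 : (0 : ℝ) ≤ ((x.2.factorization p : ℕ) : ℝ) := by positivity
    unfold ev
    push_cast
    rw [abs_le]
    constructor <;> linarith
  obtain ⟨h, hh1, hhK, hh⟩ := dirichlet (kap δ) hkap hkap1 ⌊1 / δ⌋₊ (2 * (Q / Real.log R) / δ)
    (by positivity) (NN R Q) (KK δ) rfl hN hNE S hcard (ev x) hev
  refine ⟨h, hh1, hhK, ⟨h1, h2, hc, hl1, hl2, hr, ?_⟩⟩
  intro p hp hpR
  exact hh p (by rw [hS, Finset.mem_filter]; exact ⟨hp, hpR⟩)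

end AbcRad
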