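import Pool.Agent.Work.MP_a793bb_nt.Rad.Defs

/-!
# Divisibility of `Nl`

Proof. If `l = L` it is trivial; let `l < L`, `m = L - l`. Work in the commutative ring
`A = ZMod (M ^ m)` (or with congruences modulo `M ^ m`). Here `t2`, `x2` are units of `A`, since
`M` is coprime to `t2 x2`. Put `ξ = x1 / x2` in `A`, `u = t1 / t2`. As `m ≤ L`, the hypothesis
`ht` gives `u = ξ ^ n` in `A`, and `ξ - 1 = (x1 - x2) / x2` is a multiple of `M` in `A`, so
`(ξ - 1) ^ m = 0` in `A`. Now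
`Nl = t2 ^ (I-1) x2 ^ (J-1) ∑∑ p_{kj} (n k + j).choose l * u ^ k ξ ^ j`
`   = t2 ^ (I-1) x2 ^ (J-1) ∑∑ p_{kj} (n k + j).choose l * ξ ^ (n k + j)`.
For every `N ≥ l`: `N.choose l * ξ ^ N = ξ ^ l * ∑_i (l + i).choose l * N.choose (l + i) *
(ξ - 1) ^ i` (binomial theorem for `ξ ^ (N - l) = (1 + (ξ - 1)) ^ (N - l)` and
`N.choose l * (N - l).choose i = N.choose (l + i) * (l + i).choose l`, `Nat.choose_mul`).
Therefore the double sum is `ξ ^ l ∑_i (l + i).choose l * (ξ - 1) ^ i * tay p n I J (l + i)`: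
the terms `i < m` vanish because `tay p n I J (l + i) = 0` for `l + i < L`, the terms `i ≥ m`
vanish because `(ξ - 1) ^ i = 0` in `A`. (Alternatively: `hasseDeriv l` of the integer polynomial
`∑∑ p_{kj} X ^ (n k + j)` is divisible by `(X - 1) ^ (L - l)` in `ℤ[X]`; avoid divisions by
homogenising if you prefer.)
-/

set_option autoImplicit false

namespace AbcRad

open Polynomial Finset

private theorem choose_shift {A : Type*} [CommRing A] (ξ : A) (N l m : ℕ) (hN : N < m) :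
    ((N.choose l : ℕ) : A) * ξ ^ N = ξ ^ l * ∑ i ∈ range m,
      (((l + i).choose l : ℕ) : A) * (ξ - 1) ^ i * ((N.choose (l + i) : ℕ) : A) := by
  by_cases hl : N < l
  · rw [Nat.choose_eq_zero_of_lt hl, Finset.sum_eq_zero]
    · simp
    · intro i _
      rw [Nat.choose_eq_zero_of_lt (by omega : N < l + i)]
      simp
  · have hl' : l ≤ N := not_lt.mp hl
    have h0 : ξ ^ (N - l) = ∑ i ∈ range (N - l + 1), (ξ - 1) ^ i * (((N - l).choose i : ℕ) : A) := by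
      have := add_pow (ξ - 1) 1 (N - l)
      simpa using this
    have h1 : ξ ^ N = ξ ^ l * ξ ^ (N - l) := by
      rw [← pow_add]; congr 1; omega
    have h2 : ∑ i ∈ range (N - l + 1),
        (((l + i).choose l : ℕ) : A) * (ξ - 1) ^ i * ((N.choose (l + i) : ℕ) : A) =
        ∑ i ∈ range m,
        (((l + i).choose l : ℕ) : A) * (ξ - 1) ^ i * ((N.choose (l + i) : ℕ) : A) := by
      apply Finset.sum_subset
      · intro i hi
        rw [mem_range] at hi ⊢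
        omega
      · intro i _ hi
        rw [mem_range, not_lt] at hi
        rw [Nat.choose_eq_zero_of_lt (by omega : N < l + i)]
        simp
    rw [← h2, h1, h0, mul_left_comm, Finset.mul_sum]
    congr 1
    refine Finset.sum_congr rfl fun i _ => ?_
    have h3 : N.choose (l + i) * (l + i).choose l = N.choose l * (N - l).choose i := by
      have := Nat.choose_mul (n := N) (k := l + i) (s := l) (by omega)
      rwa [Nat.add_sub_cancel_left] at this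
    have h4 : ((N.choose (l + i) : ℕ) : A) * (((l + i).choose l : ℕ) : A) =
        ((N.choose l : ℕ) : A) * (((N - l).choose i : ℕ) : A) := by
      exact_mod_cast congrArg (Nat.cast : ℕ → A) h3
    calc ((N.choose l : ℕ) : A) * ((ξ - 1) ^ i * (((N - l).choose i : ℕ) : A))
        = (((N.choose l : ℕ) : A) * (((N - l).choose i : ℕ) : A)) * (ξ - 1) ^ i := by ring
      _ = (((l + i).choose l : ℕ) : A) * (ξ - 1) ^ i * ((N.choose (l + i) : ℕ) : A) := by
          rw [← h4]; ring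

private theorem dsum_shift {A : Type*} [CommRing A] (p : ℕ → ℕ → ℤ) (n I J l m : ℕ)
    (hm : ∀ k < I, ∀ j < J, n * k + j < m) (ξ : A) :
    ∑ k ∈ range I, ∑ j ∈ range J,
        ((p k j : ℤ) : A) * (((n * k + j).choose l : ℕ) : A) * ξ ^ (n * k + j) =
      ξ ^ l * ∑ i ∈ range m,
        (((l + i).choose l : ℕ) : A) * (ξ - 1) ^ i * ((tay p n I J (l + i) : ℤ) : A) := by
  have h1 : ∀ k ∈ range I, ∀ j ∈ range J,
      ((p k j : ℤ) : A) * (((n * k + j).choose l : ℕ) : A) * ξ ^ (n * k + j) =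
      ξ ^ l * ∑ i ∈ range m, (((l + i).choose l : ℕ) : A) * (ξ - 1) ^ i *
        (((p k j : ℤ) : A) * (((n * k + j).choose (l + i) : ℕ) : A)) := by
    intro k hk j hj
    rw [mem_range] at hk hj
    rw [mul_assoc, choose_shift ξ (n * k + j) l m (hm k hk j hj), mul_left_comm, Finset.mul_sum]
    congr 1
    refine Finset.sum_congr rfl fun i _ => ?_
    ring
  calc ∑ k ∈ range I, ∑ j ∈ range J,
        ((p k j : ℤ) : A) * (((n * k + j).choose l : ℕ) : A) * ξ ^ (n * k + j)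
      = ∑ k ∈ range I, ∑ j ∈ range J, ξ ^ l * ∑ i ∈ range m, (((l + i).choose l : ℕ) : A) *
          (ξ - 1) ^ i * (((p k j : ℤ) : A) * (((n * k + j).choose (l + i) : ℕ) : A)) :=
        Finset.sum_congr rfl fun k hk => Finset.sum_congr rfl fun j hj => h1 k hk j hj
    _ = ξ ^ l * ∑ k ∈ range I, ∑ j ∈ range J, ∑ i ∈ range m, (((l + i).choose l : ℕ) : A) *
          (ξ - 1) ^ i * (((p k j : ℤ) : A) * (((n * k + j).choose (l + i) : ℕ) : A)) := by
        simp only [Finset.mul_sum]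
    _ = ξ ^ l * ∑ i ∈ range m, ∑ k ∈ range I, ∑ j ∈ range J, (((l + i).choose l : ℕ) : A) *
          (ξ - 1) ^ i * (((p k j : ℤ) : A) * (((n * k + j).choose (l + i) : ℕ) : A)) := by
        congr 1
        rw [Finset.sum_comm]
        rw [Finset.sum_congr rfl fun j _ => Finset.sum_comm]
        rw [Finset.sum_comm]
        refine Finset.sum_congr rfl fun i _ => ?_
        rw [Finset.sum_comm]
    _ = _ := by
        congr 1
        refine Finset.sum_congr rfl fun i _ => ?_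
        unfold tay
        push_cast
        simp only [Finset.mul_sum]

theorem Nl_dvd (p : ℕ → ℕ → ℤ) (n I J L l : ℕ) (hI : 1 ≤ I) (hJ : 1 ≤ J)
    (hz : ∀ l' < L, tay p n I J l' = 0) (hl : l ≤ L) (t1 t2 x1 x2 M : ℕ)
    (hM : M.Coprime (t2 * x2)) (hx : (M : ℤ) ∣ (x1 : ℤ) - x2)
    (ht : (M : ℤ) ^ L ∣ (t1 : ℤ) * (x2 : ℤ) ^ n - (t2 : ℤ) * (x1 : ℤ) ^ n) :
    (M : ℤ) ^ (L - l) ∣ Nl p n I J l t1 t2 x1 x2 := by
  obtain ⟨m, hm⟩ : ∃ m, m = L - l := ⟨_, rfl⟩
  rw [← hm]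
  have hcast : ((M ^ m : ℕ) : ℤ) = (M : ℤ) ^ m := by push_cast; ring
  rw [← hcast, ← ZMod.intCast_zmod_eq_zero_iff_dvd]
  obtain ⟨A, hA⟩ : ∃ A : Type, A = ZMod (M ^ m) := ⟨_, rfl⟩
  have hct2 : t2.Coprime (M ^ m) := ((Nat.Coprime.coprime_mul_right_right hM).symm).pow_right m
  have hcx2 : x2.Coprime (M ^ m) := ((Nat.Coprime.coprime_mul_left_right hM).symm).pow_right m
  have hut : IsUnit ((t2 : ℕ) : ZMod (M ^ m)) := (ZMod.isUnit_iff_coprime t2 (M ^ m)).2 hct2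
  have hux : IsUnit ((x2 : ℕ) : ZMod (M ^ m)) := (ZMod.isUnit_iff_coprime x2 (M ^ m)).2 hcx2
  obtain ⟨a, ha⟩ := hut
  obtain ⟨b, hb⟩ := hux
  obtain ⟨ξ, hξ⟩ : ∃ ξ : ZMod (M ^ m), ξ = (x1 : ZMod (M ^ m)) * ((b⁻¹ : (ZMod (M ^ m))ˣ) : ZMod (M ^ m)) :=
    ⟨_, rfl⟩
  obtain ⟨u, hu⟩ : ∃ u : ZMod (M ^ m), u = (t1 : ZMod (M ^ m)) * ((a⁻¹ : (ZMod (M ^ m))ˣ) : ZMod (M ^ m)) :=
    ⟨_, rfl⟩
  have hx1 : (x1 : ZMod (M ^ m)) = ξ * (b : ZMod (M ^ m)) := by
    rw [hξ, mul_assoc, Units.inv_mul, mul_one]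
  have ht1 : (t1 : ZMod (M ^ m)) = u * (a : ZMod (M ^ m)) := by
    rw [hu, mul_assoc, Units.inv_mul, mul_one]
  have hMm : ((M : ℕ) : ZMod (M ^ m)) ^ m = 0 := by
    rw [← Nat.cast_pow, ZMod.natCast_self]
  have hnil : (ξ - 1) ^ m = 0 := by
    obtain ⟨c, hc⟩ := hx
    have h1 : ((x1 : ZMod (M ^ m)) - (x2 : ZMod (M ^ m))) = (M : ZMod (M ^ m)) * (c : ZMod (M ^ m)) := by
      exact_mod_cast congrArg (Int.cast : ℤ → ZMod (M ^ m)) hc
    have h2 : (ξ - 1) * (b : ZMod (M ^ m)) = (M : ZMod (M ^ m)) * (c : ZMod (M ^ m)) := by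
      rw [← h1, hx1, ← hb]; ring
    have h3 : (ξ - 1) ^ m * ((b ^ m : (ZMod (M ^ m))ˣ) : ZMod (M ^ m)) = 0 := by
      rw [Units.val_pow_eq_pow_val, ← mul_pow, h2, mul_pow, hMm, zero_mul]
    exact (Units.mul_left_eq_zero _).1 h3
  have huξ : u = ξ ^ n := by
    have hd : (M : ℤ) ^ m ∣ (t1 : ℤ) * (x2 : ℤ) ^ n - (t2 : ℤ) * (x1 : ℤ) ^ n :=
      (pow_dvd_pow _ (by omega)).trans ht
    rw [← hcast, ← ZMod.intCast_zmod_eq_zero_iff_dvd] at hd
    push_cast at hd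
    rw [sub_eq_zero, ht1, ← hb, ← ha, hx1] at hd
    have h1 : u * ((a * b ^ n : (ZMod (M ^ m))ˣ) : ZMod (M ^ m)) =
        ξ ^ n * ((a * b ^ n : (ZMod (M ^ m))ˣ) : ZMod (M ^ m)) := by
      rw [Units.val_mul, Units.val_pow_eq_pow_val]
      calc u * ((a : ZMod (M ^ m)) * (b : ZMod (M ^ m)) ^ n)
          = u * (a : ZMod (M ^ m)) * (b : ZMod (M ^ m)) ^ n := by ring
        _ = (a : ZMod (M ^ m)) * (ξ * (b : ZMod (M ^ m))) ^ n := hd
        _ = _ := by ring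
    exact (Units.mul_left_inj _).1 h1
  have hNl : ((Nl p n I J l t1 t2 x1 x2 : ℤ) : ZMod (M ^ m)) =
      (a : ZMod (M ^ m)) ^ (I - 1) * (b : ZMod (M ^ m)) ^ (J - 1) *
      ∑ k ∈ range I, ∑ j ∈ range J, ((p k j : ℤ) : ZMod (M ^ m)) *
        (((n * k + j).choose l : ℕ) : ZMod (M ^ m)) * ξ ^ (n * k + j) := by
    unfold Nl
    push_cast
    rw [Finset.mul_sum]
    refine Finset.sum_congr rfl fun k hk => ?_
    rw [Finset.mul_sum]
    refine Finset.sum_congr rfl fun j hj => ?_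
    rw [mem_range] at hk hj
    rw [ht1, ← ha, ← hb, hx1, huξ]
    have e1 : (a : ZMod (M ^ m)) ^ (I - 1) = (a : ZMod (M ^ m)) ^ k * (a : ZMod (M ^ m)) ^ (I - 1 - k) := by
      rw [← pow_add]; congr 1; omega
    have e2 : (b : ZMod (M ^ m)) ^ (J - 1) = (b : ZMod (M ^ m)) ^ j * (b : ZMod (M ^ m)) ^ (J - 1 - j) := by
      rw [← pow_add]; congr 1; omega
    rw [e1, e2, mul_pow, mul_pow, pow_add, pow_mul]
    ring
  rw [hNl, dsum_shift p n I J l (n * I + J) ?_ ξ, Finset.sum_eq_zero, mul_zero, mul_zero]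
  · intro i _
    by_cases hi : i < m
    · rw [hz (l + i) (by omega)]
      simp
    · have h1 : (ξ - 1) ^ i = 0 := by
        rw [show i = m + (i - m) by omega, pow_add, hnil, zero_mul]
      rw [h1]
      simp
  · intro k hk j hj
    nlinarith [Nat.mul_le_mul_left n hk.le]

end AbcRad
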