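import Pool.Agent.Work.MP_a793bb_nt.Rad.Defs

/-!
# Size of `Nl`

Proof. Triangle inequality: `I J` terms, each at most
`B * 2 ^ (n I) * T ^ k * T ^ (I - 1 - k) * X ^ j * X ^ (J - 1 - j)` since
`(n k + j).choose l ≤ 2 ^ (n k + j) ≤ 2 ^ (n I)` (`n k + j < n (k + 1) ≤ n I` as `j < J ≤ n`).
-/

set_option autoImplicit false

namespace AbcRad

open Polynomial Finset

theorem Nl_size (p : ℕ → ℕ → ℤ) (n I J l : ℕ) (hJn : J ≤ n) (B T X : ℝ) (hB : 0 ≤ B)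
    (hp : ∀ k < I, ∀ j < J, |(p k j : ℝ)| ≤ B)
    (t1 t2 x1 x2 : ℕ) (ht1 : (t1 : ℝ) ≤ T) (ht2 : (t2 : ℝ) ≤ T) (hx1 : (x1 : ℝ) ≤ X)
    (hx2 : (x2 : ℝ) ≤ X) :
    |(Nl p n I J l t1 t2 x1 x2 : ℝ)| ≤
      (I * J : ℕ) * B * 2 ^ (n * I) * T ^ (I - 1) * X ^ (J - 1) := by
  have hT0 : 0 ≤ T := le_trans (Nat.cast_nonneg t1) ht1
  have hX0 : 0 ≤ X := le_trans (Nat.cast_nonneg x1) hx1
  unfold Nl
  push_cast
  have hterm : ∀ k ∈ range I, ∀ j ∈ range J,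
      |((p k j : ℤ) : ℝ) * (((n * k + j).choose l : ℕ) : ℝ) * (t1 : ℝ) ^ k * (t2 : ℝ) ^ (I - 1 - k) *
        (x1 : ℝ) ^ j * (x2 : ℝ) ^ (J - 1 - j)| ≤ B * 2 ^ (n * I) * T ^ (I - 1) * X ^ (J - 1) := by
    intro k hk j hj
    rw [mem_range] at hk hj
    have h1 : ((n * k + j).choose l : ℕ) ≤ 2 ^ (n * I) := by
      refine le_trans (Nat.choose_le_two_pow _ _) (Nat.pow_le_pow_right (by norm_num) ?_)
      nlinarith [Nat.mul_le_mul_left n (Nat.succ_le_of_lt hk)]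
    have h1' : (((n * k + j).choose l : ℕ) : ℝ) ≤ 2 ^ (n * I) := by exact_mod_cast h1
    simp only [abs_mul, abs_pow, Nat.abs_cast]
    have e1 : T ^ (I - 1) = T ^ k * T ^ (I - 1 - k) := by
      rw [← pow_add]; congr 1; omega
    have e2 : X ^ (J - 1) = X ^ j * X ^ (J - 1 - j) := by
      rw [← pow_add]; congr 1; omega
    rw [e1, e2]
    calc |((p k j : ℤ) : ℝ)| * (((n * k + j).choose l : ℕ) : ℝ) * (t1 : ℝ) ^ k * (t2 : ℝ) ^ (I - 1 - k) *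
        (x1 : ℝ) ^ j * (x2 : ℝ) ^ (J - 1 - j)
        ≤ B * 2 ^ (n * I) * T ^ k * T ^ (I - 1 - k) * X ^ j * X ^ (J - 1 - j) := by
          have := hp k hk j hj
          gcongr
      _ = B * 2 ^ (n * I) * (T ^ k * T ^ (I - 1 - k)) * (X ^ j * X ^ (J - 1 - j)) := by ring
  calc |∑ k ∈ range I, ∑ j ∈ range J, ((p k j : ℤ) : ℝ) * (((n * k + j).choose l : ℕ) : ℝ) *
          (t1 : ℝ) ^ k * (t2 : ℝ) ^ (I - 1 - k) * (x1 : ℝ) ^ j * (x2 : ℝ) ^ (J - 1 - j)|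
      ≤ ∑ k ∈ range I, ∑ j ∈ range J, B * 2 ^ (n * I) * T ^ (I - 1) * X ^ (J - 1) :=
        (Finset.abs_sum_le_sum_abs _ _).trans (Finset.sum_le_sum fun k hk =>
          (Finset.abs_sum_le_sum_abs _ _).trans (Finset.sum_le_sum fun j hj => hterm k hk j hj))
    _ = (I : ℝ) * (J : ℝ) * B * 2 ^ (n * I) * T ^ (I - 1) * X ^ (J - 1) := by
        simp only [Finset.sum_const, Finset.card_range, nsmul_eq_mul]
        ring

end AbcRad
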