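import Pool.Agent.Work.MP_a793bb_nt.Rad.Defs

/-!
# Taylor coefficients of the auxiliary polynomial

Proofs. `hasse_eval`: the `l`-th Hasse derivative of `X ^ m` is `(m.choose l) X ^ (m - l)`
(`Polynomial.hasseDeriv_monomial`), so by linearity
`ξ ^ l * (hasseDeriv l (Qpol F p n I J τ)).eval ξ = ∑∑ p_{kj} τ ^ k (n k + j).choose l ξ ^ (n k + j)`
(if `n k + j < l` both sides have a zero term).
`dvd_of_hasse`: `f = ∑_l (hasseDeriv l f).eval ξ * (X - C ξ) ^ l` (Taylor expansion,
`Polynomial.sum_taylor_eq` and `Polynomial.taylor_coeff`), so if the first `l0` Taylor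
coefficients vanish then `(X - C ξ) ^ l0 ∣ f` (for instance `X ^ l0 ∣ taylor ξ f` by
`Polynomial.X_pow_dvd_iff`, then compose with `X - C ξ`).
`dvd_Q1`: these two with `ξ = 1`, `τ = 1`.
-/

set_option autoImplicit false

namespace AbcRad

open Polynomial Finset

theorem hasse_eval {F : Type*} [Field F] (p : ℕ → ℕ → ℤ) (n I J l : ℕ) (τ ξ : F) :
    ξ ^ l * (hasseDeriv l (Qpol F p n I J τ)).eval ξ =
      ∑ k ∈ range I, ∑ j ∈ range J,
        (p k j : F) * ((n * k + j).choose l : F) * τ ^ k * ξ ^ (n * k + j) := by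
  unfold Qpol
  simp only [map_sum, eval_finsetSum, Finset.mul_sum]
  refine Finset.sum_congr rfl fun k _ => Finset.sum_congr rfl fun j _ => ?_
  rw [C_mul_X_pow_eq_monomial, hasseDeriv_monomial, eval_monomial]
  rcases lt_or_ge (n * k + j) l with h | h
  · rw [Nat.choose_eq_zero_of_lt h]
    simp
  · obtain ⟨m, hm⟩ := Nat.exists_eq_add_of_le h
    rw [hm, Nat.add_sub_cancel_left, pow_add]
    ring

theorem dvd_of_hasse {F : Type*} [Field F] (f : F[X]) (ξ : F) (l0 : ℕ)
    (h : ∀ l < l0, (hasseDeriv l f).eval ξ = 0) : (X - C ξ) ^ l0 ∣ f := by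
  have h1 : X ^ l0 ∣ taylor ξ f := by
    rw [X_pow_dvd_iff]
    intro d hd
    rw [taylor_coeff]
    exact h d hd
  obtain ⟨g, hg⟩ := h1
  have h2 := congrArg (fun q : F[X] => q.comp (X - C ξ)) hg
  simp only [taylor_apply, mul_comp, pow_comp, X_comp, comp_assoc, add_comp, C_comp,
    sub_add_cancel, comp_X] at h2
  exact ⟨_, h2⟩

theorem dvd_Q1 {F : Type*} [Field F] (p : ℕ → ℕ → ℤ) (n I J L : ℕ)
    (h : ∀ l < L, tay p n I J l = 0) : (X - C (1 : F)) ^ L ∣ Qpol F p n I J 1 := by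
  apply dvd_of_hasse
  intro l hl
  have h1 := hasse_eval (F := F) p n I J l 1 1
  rw [one_pow, one_mul] at h1
  rw [h1]
  have h2 := congrArg (fun z : ℤ => (z : F)) (h l hl)
  unfold tay at h2
  push_cast at h2
  rw [← h2]
  refine Finset.sum_congr rfl fun k _ => Finset.sum_congr rfl fun j _ => ?_
  rw [one_pow, one_pow, mul_one, mul_one]

end AbcRad
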