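import Pool.Agent.Work.MP_a793bb_nt.Rad.ZeroEst
import Pool.Agent.Work.MP_a793bb_nt.Rad.Hasse

/-!
# Some derivative does not vanish

Proof. `F = ℚ`, `ξ = x1 / x2`, `τ = (t1 * x2 ^ n) / (t2 * x1 ^ n)`, so `τ > 0`, `τ ≠ 1`, hence
`τ ^ k1 ≠ τ ^ k2` for `k1 < k2` (a positive rational with `τ ^ m = 1`, `m ≥ 1`, is `1`), and
`τ ^ k * ξ ^ (n k + j) = (t1 / t2) ^ k * (x1 / x2) ^ j`. So by `hasse_eval`
`t2 ^ (I - 1) * x2 ^ (J - 1) * ξ ^ l * (hasseDeriv l Q_τ).eval ξ = Nl p n I J l t1 t2 x1 x2`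
(cast to `ℚ`; for `k < I`, `j < J`: `t2 ^ (I-1) * (t1/t2) ^ k = t1 ^ k * t2 ^ (I-1-k)` etc.).
If `Nl ... = 0` for all `l < l0 := I (J + 1) - 1 - L` then `(X - C ξ) ^ l0 ∣ Q_τ`
(`dvd_of_hasse`), and `(X - 1) ^ L ∣ Q_1` (`dvd_Q1`), so `zero_est` gives
`L + l0 + 2 ≤ I (J + 1)`, but `L + l0 + 2 = I (J + 1) + 1` (since `L + 1 ≤ I (J + 1)`), a
contradiction. So some `l < l0`, that is `l + L + 2 ≤ I (J + 1)`, has `Nl ... ≠ 0`.
-/

set_option autoImplicit false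

namespace AbcRad

open Polynomial Finset

theorem nonvanish (p : ℕ → ℕ → ℤ) (n I J L : ℕ) (hJn : J ≤ n) (hJL : J ≤ L) (hI : 2 ≤ I)
    (hLI : L ≤ I * J) (hp : ∃ k < I, ∃ j < J, p k j ≠ 0) (hz : ∀ l < L, tay p n I J l = 0)
    (t1 t2 x1 x2 : ℕ) (ht1 : 0 < t1) (ht2 : 0 < t2) (hx1 : 0 < x1) (hx2 : 0 < x2)
    (hne : t1 * x2 ^ n ≠ t2 * x1 ^ n) :
    ∃ l : ℕ, l + L + 2 ≤ I * (J + 1) ∧ Nl p n I J l t1 t2 x1 x2 ≠ 0 := by
  by_contra hcon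
  push Not at hcon
  have e1 : I * (J + 1) = I * J + I := by ring
  have ht1' : (t1 : ℚ) ≠ 0 := by exact_mod_cast ht1.ne'
  have ht2' : (t2 : ℚ) ≠ 0 := by exact_mod_cast ht2.ne'
  have hx1' : (x1 : ℚ) ≠ 0 := by exact_mod_cast hx1.ne'
  have hx2' : (x2 : ℚ) ≠ 0 := by exact_mod_cast hx2.ne'
  obtain ⟨ξ, hξ⟩ : ∃ ξ : ℚ, ξ = x1 / x2 := ⟨_, rfl⟩
  obtain ⟨τ, hτ⟩ : ∃ τ : ℚ, τ = (t1 * x2 ^ n) / (t2 * x1 ^ n) := ⟨_, rfl⟩
  have hξ0 : ξ ≠ 0 := by rw [hξ]; exact div_ne_zero hx1' hx2'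
  have hτ0 : 0 < τ := by rw [hτ]; positivity
  have hτ1 : τ ≠ 1 := by
    intro h
    rw [hτ, div_eq_one_iff_eq (by positivity)] at h
    exact hne (by exact_mod_cast h)
  have hτinj : ∀ k1 k2 : ℕ, k1 < k2 → k2 < I → τ ^ k1 ≠ τ ^ k2 := by
    intro k1 k2 hk _ h
    rcases lt_or_gt_of_ne hτ1 with h3 | h3
    · exact absurd h (pow_lt_pow_right_of_lt_one₀ hτ0 h3 hk).ne'
    · exact absurd h (pow_lt_pow_right₀ h3 hk).ne
  have hl : ∀ l < I * (J + 1) - 1 - L, (hasseDeriv l (Qpol ℚ p n I J τ)).eval ξ = 0 := by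
    intro l hl
    have h3 := hcon l (by omega)
    have h4 := hasse_eval p n I J l τ ξ
    have h5 : ((Nl p n I J l t1 t2 x1 x2 : ℤ) : ℚ) =
        t2 ^ (I - 1) * x2 ^ (J - 1) * (ξ ^ l * (hasseDeriv l (Qpol ℚ p n I J τ)).eval ξ) := by
      rw [h4]
      unfold Nl
      push_cast
      rw [Finset.mul_sum]
      refine Finset.sum_congr rfl fun k hk => ?_
      rw [Finset.mul_sum]
      refine Finset.sum_congr rfl fun j hj => ?_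
      have hk' := Finset.mem_range.1 hk
      have hj' := Finset.mem_range.1 hj
      obtain ⟨a, ha⟩ : ∃ a, I - 1 = k + a := ⟨I - 1 - k, by omega⟩
      obtain ⟨b, hb⟩ : ∃ b, J - 1 = j + b := ⟨J - 1 - j, by omega⟩
      rw [ha, hb, Nat.add_sub_cancel_left, Nat.add_sub_cancel_left, hτ, hξ]
      have h6 : (((t1 : ℚ) * x2 ^ n) / (t2 * x1 ^ n)) ^ k * ((x1 : ℚ) / x2) ^ (n * k + j)
          = (t1 / t2) ^ k * (x1 / x2) ^ j := by
        rw [pow_add, pow_mul, ← mul_assoc, ← mul_pow]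
        congr 2
        rw [div_pow]
        field_simp
      have h7 : ((p k j : ℚ)) * ((n * k + j).choose l : ℚ) *
          (((t1 : ℚ) * x2 ^ n) / (t2 * x1 ^ n)) ^ k * ((x1 : ℚ) / x2) ^ (n * k + j)
          = (p k j : ℚ) * ((n * k + j).choose l : ℚ) * ((t1 / t2) ^ k * (x1 / x2) ^ j) := by
        rw [← h6]
        ring
      rw [h7, pow_add, pow_add, div_pow, div_pow]
      field_simp
    rw [h3, Int.cast_zero] at h5
    rcases mul_eq_zero.1 h5.symm with h6 | h6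
    · exact absurd h6 (by positivity)
    · rcases mul_eq_zero.1 h6 with h7 | h7
      · exact absurd h7 (pow_ne_zero _ hξ0)
      · exact h7
  have h3 := zero_est p n I J L (I * (J + 1) - 1 - L) hJn hJL hp τ ξ hτinj hξ0
    (dvd_Q1 p n I J L hz) (dvd_of_hasse _ ξ _ hl)
  omega

end AbcRad
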