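import Pool.Agent.Work.MP_a793bb_nt.Rad.Siegel
import Pool.Agent.Work.MP_a793bb_nt.Rad.Nonvan
import Pool.Agent.Work.MP_a793bb_nt.Rad.NlDvd
import Pool.Agent.Work.MP_a793bb_nt.Rad.NlSize

/-!
# Main lemma, divisibility form

Proof. `L = I J - (I J + 7) / 8`, so `L ≥ 7 I J / 8 - 7 / 8 ≥ J` (as `I ≥ 2`, `J ≥ 8`).
Take `p` from `siegel`, `B = (I J * 2 ^ (n I)) ^ 7`, and `l` from `nonvanish`. By `Nl_dvd`
(`M ^ L ∣ M ^ (I J)`) the nonzero integer `N = Nl p n I J l t1 t2 x1 x2` is divisible by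
`M ^ (L - l)` (`l ≤ L` follows from `l + L + 2 ≤ I (J + 1)` and `2 L ≥ I (J + 1)`), so
`M ^ (L - l) ≤ |N| ≤ I J * B * 2 ^ (n I) * T ^ (I - 1) * X ^ (J - 1) ≤ E * T ^ I * X ^ J` with
`E = (I J) ^ 8 * 2 ^ (8 n I) ≤ (n I * 2 ^ (n I)) ^ 12` (`T, X ≥ 1` as `t1, x1 ≥ 1`; `J ≤ n`).
`2 (L - l) ≥ 2 (2 L + 2 - I (J + 1)) ≥ I J`: indeed `L - l ≥ 2 L + 2 - I J - I` and
`2 L ≥ 7 I J / 4 - 7 / 4`, so `L - l ≥ 3 I J / 4 - I + 1 / 4 ≥ I J / 2` as `I J / 4 ≥ 2 I`.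
So `M ^ (I J) ≤ (M ^ (L - l)) ^ 2` (`M ≥ 1`), which gives the claim.
-/

set_option autoImplicit false

namespace AbcRad

open Polynomial Finset

theorem main_padic (n I J M : ℕ) (hJ8 : 8 ≤ J) (hJn : J ≤ n) (hI : 2 ≤ I) (hM : 1 ≤ M)
    (t1 t2 x1 x2 : ℕ) (ht1 : 0 < t1) (ht2 : 0 < t2) (hx1 : 0 < x1) (hx2 : 0 < x2)
    (T X : ℝ) (ht1T : (t1 : ℝ) ≤ T) (ht2T : (t2 : ℝ) ≤ T) (hx1X : (x1 : ℝ) ≤ X)
    (hx2X : (x2 : ℝ) ≤ X) (hcop : M.Coprime (t2 * x2)) (hx : (M : ℤ) ∣ (x1 : ℤ) - x2)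
    (ht : (M : ℤ) ^ (I * J) ∣ (t1 : ℤ) * (x2 : ℤ) ^ n - (t2 : ℤ) * (x1 : ℤ) ^ n)
    (hne : t1 * x2 ^ n ≠ t2 * x1 ^ n) :
    (M : ℝ) ^ (I * J) ≤ ((((n * I : ℕ) : ℝ) * 2 ^ (n * I)) ^ 12 * T ^ I * X ^ J) ^ 2 := by
  obtain ⟨P, hP⟩ : ∃ P, P = I * J := ⟨_, rfl⟩
  obtain ⟨L, hL⟩ : ∃ L, L = I * J - (I * J + 7) / 8 := ⟨_, rfl⟩
  have h2J : 2 * J ≤ P := by rw [hP]; exact Nat.mul_le_mul_right J hI
  have h8I : 8 * I ≤ P := by rw [hP, mul_comm I J]; exact Nat.mul_le_mul_right I hJ8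
  have hL' : L = P - (P + 7) / 8 := by rw [hL, hP]
  have hJL : J ≤ L := by omega
  have hLP : L ≤ I * J := by omega
  obtain ⟨p, hp0, hpz, hpB⟩ := siegel n I J L hJ8 hJn (by omega) hL
  obtain ⟨l, hl, hN⟩ := nonvanish p n I J L hJn hJL hI hLP hp0 hpz t1 t2 x1 x2 ht1 ht2 hx1 hx2 hne
  have hl' : l + L + 2 ≤ P + I := by
    have : I * (J + 1) = P + I := by rw [hP]; ring
    omega
  have hlL : l ≤ L := by omega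
  have hdvd := Nl_dvd p n I J L l (by omega) (by omega) hpz hlL t1 t2 x1 x2 M hcop hx
    ((pow_dvd_pow _ hLP).trans ht)
  have hsize := Nl_size p n I J l hJn _ T X (by positivity) hpB t1 t2 x1 x2 ht1T ht2T hx1X hx2X
  have hT1 : 1 ≤ T := le_trans (by exact_mod_cast ht1) ht1T
  have hX1 : 1 ≤ X := le_trans (by exact_mod_cast hx1) hx1X
  have hle : (M : ℤ) ^ (L - l) ≤ |Nl p n I J l t1 t2 x1 x2| :=
    Int.le_of_dvd (abs_pos.2 hN) ((dvd_abs _ _).2 hdvd)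
  have hle' : (M : ℝ) ^ (L - l) ≤ |((Nl p n I J l t1 t2 x1 x2 : ℤ) : ℝ)| := by
    exact_mod_cast hle
  have hnI : (1 : ℝ) ≤ ((n * I : ℕ) : ℝ) := by
    exact_mod_cast Nat.mul_pos (by omega : 0 < n) (by omega : 0 < I)
  have hW : (1 : ℝ) ≤ 2 ^ (n * I) := one_le_pow₀ (by norm_num)
  have hIJn : ((I * J : ℕ) : ℝ) ≤ ((n * I : ℕ) : ℝ) := by
    have : I * J ≤ n * I := by rw [mul_comm n I]; exact Nat.mul_le_mul_left I hJn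
    exact_mod_cast this
  have hE : ((I * J : ℕ) : ℝ) * (((I * J : ℕ) : ℝ) * 2 ^ (n * I)) ^ 7 * 2 ^ (n * I) ≤
      (((n * I : ℕ) : ℝ) * 2 ^ (n * I)) ^ 12 := by
    calc ((I * J : ℕ) : ℝ) * (((I * J : ℕ) : ℝ) * 2 ^ (n * I)) ^ 7 * 2 ^ (n * I)
        = (((I * J : ℕ) : ℝ) * 2 ^ (n * I)) ^ 8 := by ring
      _ ≤ (((n * I : ℕ) : ℝ) * 2 ^ (n * I)) ^ 8 := by gcongr
      _ ≤ (((n * I : ℕ) : ℝ) * 2 ^ (n * I)) ^ 12 :=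
          pow_le_pow_right₀ (one_le_mul_of_one_le_of_one_le hnI hW) (by norm_num)
  have hmain : (M : ℝ) ^ (L - l) ≤ (((n * I : ℕ) : ℝ) * 2 ^ (n * I)) ^ 12 * T ^ I * X ^ J := by
    have hTI : T ^ (I - 1) ≤ T ^ I := pow_le_pow_right₀ hT1 (by omega)
    have hXJ : X ^ (J - 1) ≤ X ^ J := pow_le_pow_right₀ hX1 (by omega)
    refine hle'.trans (hsize.trans ?_)
    have hT0 : 0 ≤ T := by linarith
    have hX0 : 0 ≤ X := by linarith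
    gcongr
  have hM1 : (1 : ℝ) ≤ M := by exact_mod_cast hM
  calc (M : ℝ) ^ (I * J) ≤ (M : ℝ) ^ ((L - l) * 2) := pow_le_pow_right₀ hM1 (by omega)
    _ = ((M : ℝ) ^ (L - l)) ^ 2 := by rw [pow_mul]
    _ ≤ ((((n * I : ℕ) : ℝ) * 2 ^ (n * I)) ^ 12 * T ^ I * X ^ J) ^ 2 :=
        pow_le_pow_left₀ (by positivity) hmain 2

end AbcRad
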