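import Pool.Agent.Work.MP_a793bb_nt.Rad.CellT
import Pool.Agent.Work.MP_a793bb_nt.Rad.MainP

/-!
# Two solutions in the same `p`-adic cell are equal

Proof. Suppose `x ≠ y`. Apply `main_padic` with `t1 = T1 n x y`, `t2 = T1 n y x`,
`x1 := X1 = xiN n x * xiD n y`, `x2 := X2 = xiN n y * xiD n x`,
`T = exp (2 κ n log R)` (`T_bound`, twice), `X = exp (16 Q / n)` (`X_bound`, twice).
* `M ∣ X1 - X2`: `X1 = xiN x * xiD y ≡ v xiD x xiD y ≡ xiN y * xiD x` modulo `M`.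
* `M ^ L0 ∣ t1 X2 ^ n - t2 X1 ^ n`: by `identity`,
  `x.1 y.2 (t1 X2 ^ n - t2 X1 ^ n) = (x.2 y.1 - x.1 y.2) t2 X1 ^ n`, and `M ^ L0` divides
  `x.1 y.2 - x.2 y.1 = (x.1 - s x.2) y.2 - x.2 (y.1 - s y.2)`; `M` is coprime to `x.1 y.2`. As
  `I J ≤ L0`, `M ^ (I J)` divides it too.
* `t1 X2 ^ n ≠ t2 X1 ^ n` by `ne_of_ne`.
* `M` is coprime to `t2 X2` by `T1_cop`, `xiN_cop`, `xiD_cop`.
So `M ^ (I J) ≤ ((n I 2 ^ (n I)) ^ 12 T ^ I X ^ J) ^ 2`. Taking logarithms, and using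
`log M ≥ δ log R`, this contradicts `Par.key`.
-/

set_option autoImplicit false

namespace AbcRad

open Finset

private theorem final_contra (δ κ R Q M : ℝ) (n I J L0 : ℕ) (hP : Par δ κ R Q n I J L0)
    (hM : R ^ δ ≤ M)
    (h : M ^ (I * J) ≤ ((((n * I : ℕ) : ℝ) * 2 ^ (n * I)) ^ 12 *
      (Real.exp (2 * (κ * n) * Real.log R)) ^ I * (Real.exp (16 * Q / n)) ^ J) ^ 2) : False := by
  have hR := hP.hR
  have hR0 : (0 : ℝ) < R := by linarith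
  have hRδ : 0 < R ^ δ := Real.rpow_pos_of_pos hR0 _
  have hM0 : 0 < M := by linarith
  have hn : 0 < n := by
    have := hP.hJ8
    have := hP.hJn
    omega
  have hI : 0 < I := by
    have := hP.hI
    omega
  have hnI : (0 : ℝ) < ((n * I : ℕ) : ℝ) := by exact_mod_cast Nat.mul_pos hn hI
  have h1 := Real.log_le_log (by positivity) h
  rw [Real.log_pow, Real.log_pow, Real.log_mul (by positivity) (by positivity),
    Real.log_mul (by positivity) (by positivity), Real.log_pow,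
    Real.log_mul (by positivity) (by positivity), Real.log_pow, Real.log_pow, Real.log_pow,
    Real.log_exp, Real.log_exp] at h1
  have h2 : δ * Real.log R ≤ Real.log M := by
    rw [← Real.log_rpow hR0]
    exact Real.log_le_log hRδ hM
  have h3 : ((I * J : ℕ) : ℝ) * (δ * Real.log R) ≤ ((I * J : ℕ) : ℝ) * Real.log M :=
    mul_le_mul_of_nonneg_left h2 (Nat.cast_nonneg _)
  have h4 := hP.key
  push_cast at h1 h3 h4
  linarith

theorem cell_unique (δ κ R Q : ℝ) (n I J L0 M v : ℕ) (s : ℤ)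
    (hP : Par δ κ R Q n I J L0) (x y : ℕ × ℕ)
    (hx : Base δ κ R Q n x) (hy : Base δ κ R Q n y)
    (hD : smallPart (R ^ δ) (x.1 * x.2) = smallPart (R ^ δ) (y.1 * y.2))
    (hφ : ∀ p ∈ (smallPart (R ^ δ) (x.1 * x.2)).primeFactors,
      ⌊(gr n (ev x p) : ℝ) / (κ * n)⌋ = ⌊(gr n (ev y p) : ℝ) / (κ * n)⌋)
    (hM : R ^ δ ≤ (M : ℝ)) (hMx : M.Coprime (x.1 * x.2)) (hMy : M.Coprime (y.1 * y.2))
    (hLx : (M : ℤ) ^ L0 ∣ (x.1 : ℤ) - s * x.2) (hLy : (M : ℤ) ^ L0 ∣ (y.1 : ℤ) - s * y.2)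
    (hvx : (M : ℤ) ∣ (xiN n x : ℤ) - v * xiD n x)
    (hvy : (M : ℤ) ∣ (xiN n y : ℤ) - v * xiD n y) : x = y := by
  by_contra hne
  have hR := hP.hR
  have hR0 : (0 : ℝ) < R := by linarith
  have hn : 1 ≤ n := by
    have := hP.hJ8
    have := hP.hJn
    omega
  have hRδ : 1 ≤ R ^ δ := Real.one_le_rpow (by linarith) hP.hδ.le
  have hM1 : 1 ≤ M := by
    have : (1 : ℝ) ≤ (M : ℝ) := by linarith
    exact_mod_cast this
  have hx0 : x.1 * x.2 ≠ 0 := (Nat.mul_pos hx.pos1 hx.pos2).ne'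
  have hy0 : y.1 * y.2 ≠ 0 := (Nat.mul_pos hy.pos1 hy.pos2).ne'
  have hT1 := T_bound δ κ R Q n hn hP.hκ hR x y hx hy hD hφ
  have hT2 := T_bound δ κ R Q n hn hP.hκ hR y x hy hx hD.symm
    (fun p hp => (hφ p (hD ▸ hp)).symm)
  have hX1 := X_bound δ κ R Q n hn x y hx hy
  have hX2 := X_bound δ κ R Q n hn y x hy hx
  have hid := identity n hn x y hx.pos1 hx.pos2 hy.pos1 hy.pos2
  have hne' : T1 n x y * (xiN n y * xiD n x) ^ n ≠ T1 n y x * (xiN n x * xiD n y) ^ n :=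
    fun h => hne (ne_of_ne n hn x y hx.pos1 hx.pos2 hy.pos1 hy.pos2 hx.cop hy.cop h)
  have hcop : M.Coprime (T1 n y x * (xiN n y * xiD n x)) :=
    Nat.Coprime.mul_right (T1_cop n M y x hMy hMx hy0 hx0)
      (Nat.Coprime.mul_right (xiN_cop n M y hMy hy0) (xiD_cop n M x hMx hx0))
  have hdx : (M : ℤ) ∣ ((xiN n x * xiD n y : ℕ) : ℤ) - ((xiN n y * xiD n x : ℕ) : ℤ) := by
    push_cast
    have e : (xiN n x : ℤ) * xiD n y - xiN n y * xiD n x =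
        ((xiN n x : ℤ) - v * xiD n x) * xiD n y - ((xiN n y : ℤ) - v * xiD n y) * xiD n x := by
      ring
    rw [e]
    exact dvd_sub (hvx.mul_right _) (hvy.mul_right _)
  have hdt : (M : ℤ) ^ (I * J) ∣ (T1 n x y : ℤ) * ((xiN n y * xiD n x : ℕ) : ℤ) ^ n -
      (T1 n y x : ℤ) * ((xiN n x * xiD n y : ℕ) : ℤ) ^ n := by
    refine (pow_dvd_pow (M : ℤ) hP.hIJ).trans ?_
    have h1 : (M : ℤ) ^ L0 ∣ (x.1 : ℤ) * y.2 - x.2 * y.1 := by
      have e : (x.1 : ℤ) * y.2 - x.2 * y.1 =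
          ((x.1 : ℤ) - s * x.2) * y.2 - x.2 * ((y.1 : ℤ) - s * y.2) := by ring
      rw [e]
      exact dvd_sub (hLx.mul_right _) (hLy.mul_left _)
    have hid' : (x.1 : ℤ) * y.2 * ((T1 n x y : ℤ) * ((xiN n y * xiD n x : ℕ) : ℤ) ^ n) =
        x.2 * y.1 * ((T1 n y x : ℤ) * ((xiN n x * xiD n y : ℕ) : ℤ) ^ n) := by
      exact_mod_cast hid
    have h2 : (M : ℤ) ^ L0 ∣ ((x.1 : ℤ) * y.2) *
        ((T1 n x y : ℤ) * ((xiN n y * xiD n x : ℕ) : ℤ) ^ n -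
          (T1 n y x : ℤ) * ((xiN n x * xiD n y : ℕ) : ℤ) ^ n) := by
      have e : ((x.1 : ℤ) * y.2) *
          ((T1 n x y : ℤ) * ((xiN n y * xiD n x : ℕ) : ℤ) ^ n -
            (T1 n y x : ℤ) * ((xiN n x * xiD n y : ℕ) : ℤ) ^ n) =
          ((x.1 : ℤ) * y.2 - x.2 * y.1) *
            (-((T1 n y x : ℤ) * ((xiN n x * xiD n y : ℕ) : ℤ) ^ n)) := by
        rw [mul_sub, hid']
        ring
      rw [e]
      exact h1.mul_right _
    have hc : IsCoprime ((M : ℤ) ^ L0) ((x.1 : ℤ) * y.2) := by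
      have h3 : M.Coprime (x.1 * y.2) :=
        Nat.Coprime.mul_right (Nat.Coprime.coprime_dvd_right (dvd_mul_right _ _) hMx)
          (Nat.Coprime.coprime_dvd_right (dvd_mul_left _ _) hMy)
      have h4 : IsCoprime (M : ℤ) ((x.1 * y.2 : ℕ) : ℤ) := Nat.isCoprime_iff_coprime.2 h3
      push_cast at h4
      exact h4.pow_left
    exact hc.dvd_of_dvd_mul_left h2
  have hmain := main_padic n I J M hP.hJ8 hP.hJn hP.hI hM1 (T1 n x y) (T1 n y x)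
    (xiN n x * xiD n y) (xiN n y * xiD n x) (T1_pos n x y) (T1_pos n y x)
    (Nat.mul_pos (xiN_pos n x) (xiD_pos n y)) (Nat.mul_pos (xiN_pos n y) (xiD_pos n x))
    _ _ hT1 hT2 hX1 hX2 hcop hdx hdt hne'
  exact final_contra δ κ R Q M n I J L0 hP hM hmain

end AbcRad
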