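import Pool.Agent.Work.MP_a793bb_nt.Rad.Defs

/-!
# Real smallness near `1`

Proof of `real_small`. For `N ≥ l`: `N.choose l * ξ ^ N = ξ ^ l * ∑_{i ≤ N - l} (l + i).choose l *
N.choose (l + i) * (ξ - 1) ^ i` (binomial theorem for `ξ ^ (N - l) = (1 + (ξ - 1)) ^ (N - l)` and
`N.choose l * (N - l).choose i = N.choose (l + i) * (l + i).choose l`), and the sum may be extended
to all `i < n I` (all `N = n k + j < n I`). Hence the double sum in question is
`ξ ^ l * ∑_{i < n I} (l + i).choose l * (ξ - 1) ^ i * tay p n I J (l + i)`. The terms with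
`l + i < L` vanish. If `l + i ≥ n I` then `tay p n I J (l + i) = 0` as well (all binomial
coefficients vanish). For the others `(l + i).choose l ≤ 2 ^ (l + i) ≤ 2 ^ (n I)`,
`|tay| ≤ I J * B * 2 ^ (n I)`, `|ξ - 1| ^ i ≤ M ^ (- i) ≤ 1 / M ^ (L - l)` as `i ≥ L - l`,
`M ≥ 1`, and `ξ ^ l ≤ 2 ^ l ≤ 2 ^ (n I)` as `0 < ξ ≤ 1 + 1 / M ≤ 2` (if `l ≥ n I` the whole sum is
zero). There are at most `n I` terms.

Proof of `tau_small`. `|τ ^ k - 1| ≤ k * |τ - 1| * 2 ^ k ≤ I * 2 ^ I * |τ - 1|` for `0 < τ ≤ 2`,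
`k < I` (induction), `ξ ^ (n k + j) ≤ 2 ^ (n I)`, `(n k + j).choose l ≤ 2 ^ (n I)`, and `I J` terms.
-/

set_option autoImplicit false

namespace AbcRad

open Polynomial Finset

private theorem choose_shift {A : Type*} [CommRing A] (ξ : A) (N l m : ℕ) (hN : N < m) :
    ((N.choose l : ℕ) : A) * ξ ^ N = ξ ^ l * ∑ i ∈ range m,
      (((l + i).choose l : ℕ) : A) * (ξ - 1) ^ i * ((N.choose (l + i) : ℕ) : A) := by
  by_cases hl : N < l
  · rw [Nat.choose_eq_zero_of_lt hl, Finset.sum_eq_zero]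
    · simp
    · intro i _
      rw [Nat.choose_eq_zero_of_lt (by omega : N < l + i)]
      simp
  · have hl' : l ≤ N := not_lt.mp hl
    have h0 : ξ ^ (N - l) = ∑ i ∈ range (N - l + 1), (ξ - 1) ^ i * (((N - l).choose i : ℕ) : A) := by
      have := add_pow (ξ - 1) 1 (N - l)
      simpa using this
    have h1 : ξ ^ N = ξ ^ l * ξ ^ (N - l) := by
      rw [← pow_add]; congr 1; omega
    have h2 : ∑ i ∈ range (N - l + 1),
        (((l + i).choose l : ℕ) : A) * (ξ - 1) ^ i * ((N.choose (l + i) : ℕ) : A) =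
        ∑ i ∈ range m,
        (((l + i).choose l : ℕ) : A) * (ξ - 1) ^ i * ((N.choose (l + i) : ℕ) : A) := by
      apply Finset.sum_subset
      · intro i hi
        rw [mem_range] at hi ⊢
        omega
      · intro i _ hi
        rw [mem_range, not_lt] at hi
        rw [Nat.choose_eq_zero_of_lt (by omega : N < l + i)]
        simp
    rw [← h2, h1, h0, mul_left_comm, Finset.mul_sum]
    congr 1
    refine Finset.sum_congr rfl fun i _ => ?_
    have h3 : N.choose (l + i) * (l + i).choose l = N.choose l * (N - l).choose i := by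
      have := Nat.choose_mul (n := N) (k := l + i) (s := l) (by omega)
      rwa [Nat.add_sub_cancel_left] at this
    have h4 : ((N.choose (l + i) : ℕ) : A) * (((l + i).choose l : ℕ) : A) =
        ((N.choose l : ℕ) : A) * (((N - l).choose i : ℕ) : A) := by
      exact_mod_cast congrArg (Nat.cast : ℕ → A) h3
    calc ((N.choose l : ℕ) : A) * ((ξ - 1) ^ i * (((N - l).choose i : ℕ) : A))
        = (((N.choose l : ℕ) : A) * (((N - l).choose i : ℕ) : A)) * (ξ - 1) ^ i := by ring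
      _ = (((l + i).choose l : ℕ) : A) * (ξ - 1) ^ i * ((N.choose (l + i) : ℕ) : A) := by
          rw [← h4]; ring

private theorem dsum_shift {A : Type*} [CommRing A] (p : ℕ → ℕ → ℤ) (n I J l m : ℕ)
    (hm : ∀ k < I, ∀ j < J, n * k + j < m) (ξ : A) :
    ∑ k ∈ range I, ∑ j ∈ range J,
        ((p k j : ℤ) : A) * (((n * k + j).choose l : ℕ) : A) * ξ ^ (n * k + j) =
      ξ ^ l * ∑ i ∈ range m,
        (((l + i).choose l : ℕ) : A) * (ξ - 1) ^ i * ((tay p n I J (l + i) : ℤ) : A) := by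
  have h1 : ∀ k ∈ range I, ∀ j ∈ range J,
      ((p k j : ℤ) : A) * (((n * k + j).choose l : ℕ) : A) * ξ ^ (n * k + j) =
      ξ ^ l * ∑ i ∈ range m, (((l + i).choose l : ℕ) : A) * (ξ - 1) ^ i *
        (((p k j : ℤ) : A) * (((n * k + j).choose (l + i) : ℕ) : A)) := by
    intro k hk j hj
    rw [mem_range] at hk hj
    rw [mul_assoc, choose_shift ξ (n * k + j) l m (hm k hk j hj), mul_left_comm, Finset.mul_sum]
    congr 1
    refine Finset.sum_congr rfl fun i _ => ?_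
    ring
  calc ∑ k ∈ range I, ∑ j ∈ range J,
        ((p k j : ℤ) : A) * (((n * k + j).choose l : ℕ) : A) * ξ ^ (n * k + j)
      = ∑ k ∈ range I, ∑ j ∈ range J, ξ ^ l * ∑ i ∈ range m, (((l + i).choose l : ℕ) : A) *
          (ξ - 1) ^ i * (((p k j : ℤ) : A) * (((n * k + j).choose (l + i) : ℕ) : A)) :=
        Finset.sum_congr rfl fun k hk => Finset.sum_congr rfl fun j hj => h1 k hk j hj
    _ = ξ ^ l * ∑ k ∈ range I, ∑ j ∈ range J, ∑ i ∈ range m, (((l + i).choose l : ℕ) : A) *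
          (ξ - 1) ^ i * (((p k j : ℤ) : A) * (((n * k + j).choose (l + i) : ℕ) : A)) := by
        simp only [Finset.mul_sum]
    _ = ξ ^ l * ∑ i ∈ range m, ∑ k ∈ range I, ∑ j ∈ range J, (((l + i).choose l : ℕ) : A) *
          (ξ - 1) ^ i * (((p k j : ℤ) : A) * (((n * k + j).choose (l + i) : ℕ) : A)) := by
        congr 1
        rw [Finset.sum_comm]
        rw [Finset.sum_congr rfl fun j _ => Finset.sum_comm]
        rw [Finset.sum_comm]
        refine Finset.sum_congr rfl fun i _ => ?_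
        rw [Finset.sum_comm]
    _ = _ := by
        congr 1
        refine Finset.sum_congr rfl fun i _ => ?_
        unfold tay
        push_cast
        simp only [Finset.mul_sum]

private theorem choose_le_pow (n I J k j l : ℕ) (hJn : J ≤ n) (hk : k < I) (hj : j < J) :
    (((n * k + j).choose l : ℕ) : ℝ) ≤ 2 ^ (n * I) := by
  have h1 : ((n * k + j).choose l : ℕ) ≤ 2 ^ (n * I) := by
    refine le_trans (Nat.choose_le_two_pow _ _) (Nat.pow_le_pow_right (by norm_num) ?_)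
    nlinarith [Nat.mul_le_mul_left n (Nat.succ_le_of_lt hk)]
  exact_mod_cast h1

private theorem tay_abs (p : ℕ → ℕ → ℤ) (n I J l : ℕ) (hJn : J ≤ n) (B : ℝ) (hB : 0 ≤ B)
    (hp : ∀ k < I, ∀ j < J, |(p k j : ℝ)| ≤ B) :
    |((tay p n I J l : ℤ) : ℝ)| ≤ (I : ℝ) * J * B * 2 ^ (n * I) := by
  unfold tay
  push_cast
  calc |∑ k ∈ range I, ∑ j ∈ range J, ((p k j : ℤ) : ℝ) * (((n * k + j).choose l : ℕ) : ℝ)|
      ≤ ∑ k ∈ range I, ∑ j ∈ range J, B * 2 ^ (n * I) :=
        (Finset.abs_sum_le_sum_abs _ _).trans (Finset.sum_le_sum fun k hk =>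
          (Finset.abs_sum_le_sum_abs _ _).trans (Finset.sum_le_sum fun j hj => by
            rw [mem_range] at hk hj
            rw [abs_mul, Nat.abs_cast]
            have h1 := choose_le_pow n I J k j l hJn hk hj
            have h2 := hp k hk j hj
            gcongr))
    _ = (I : ℝ) * J * B * 2 ^ (n * I) := by
        simp only [Finset.sum_const, Finset.card_range, nsmul_eq_mul]
        ring

theorem real_small (p : ℕ → ℕ → ℤ) (n I J L l : ℕ) (hJn : J ≤ n) (B M ξ : ℝ) (hB : 0 ≤ B)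
    (hp : ∀ k < I, ∀ j < J, |(p k j : ℝ)| ≤ B) (hz : ∀ l' < L, tay p n I J l' = 0)
    (hM : 1 ≤ M) (hξ : 0 < ξ) (hξ1 : |ξ - 1| ≤ 1 / M) :
    |∑ k ∈ range I, ∑ j ∈ range J, (p k j : ℝ) * ((n * k + j).choose l : ℝ) * ξ ^ (n * k + j)| ≤
      (n * I : ℕ) * (I * J : ℕ) * B * (2 ^ (n * I)) ^ 3 / M ^ (L - l) := by
  have hM0 : 0 < M := by linarith
  have hinv : 1 / M ≤ 1 := by
    rw [div_le_one hM0]; exact hM
  have hNlt : ∀ k < I, ∀ j < J, n * k + j < n * I := by
    intro k hk j hj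
    nlinarith [Nat.mul_le_mul_left n (Nat.succ_le_of_lt hk)]
  have hrhs : 0 ≤ ((n * I : ℕ) : ℝ) * ((I * J : ℕ) : ℝ) * B * (2 ^ (n * I)) ^ 3 / M ^ (L - l) := by
    positivity
  by_cases hl : n * I ≤ l
  · have h0 : ∑ k ∈ range I, ∑ j ∈ range J,
        (p k j : ℝ) * ((n * k + j).choose l : ℝ) * ξ ^ (n * k + j) = 0 := by
      refine Finset.sum_eq_zero fun k hk => Finset.sum_eq_zero fun j hj => ?_
      rw [mem_range] at hk hj
      rw [Nat.choose_eq_zero_of_lt (lt_of_lt_of_le (hNlt k hk j hj) hl)]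
      simp
    rw [h0, abs_zero]
    exact hrhs
  · rw [not_le] at hl
    have hξ2 : ξ ≤ 2 := by
      have := (abs_le.1 hξ1).2
      linarith
    rw [dsum_shift p n I J l (n * I) hNlt ξ, abs_mul, abs_pow, abs_of_pos hξ]
    have hterm : ∀ i ∈ range (n * I),
        |(((l + i).choose l : ℕ) : ℝ) * (ξ - 1) ^ i * ((tay p n I J (l + i) : ℤ) : ℝ)| ≤
        2 ^ (n * I) * (1 / M ^ (L - l)) * ((I : ℝ) * J * B * 2 ^ (n * I)) := by
      intro i _
      have hnn : 0 ≤ 2 ^ (n * I) * (1 / M ^ (L - l)) * ((I : ℝ) * J * B * 2 ^ (n * I)) := by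
        positivity
      by_cases h1 : l + i < L
      · rw [hz _ h1]
        simpa using hnn
      · rw [not_lt] at h1
        by_cases h2 : n * I ≤ l + i
        · have h3 : tay p n I J (l + i) = 0 := by
            unfold tay
            refine Finset.sum_eq_zero fun k hk => Finset.sum_eq_zero fun j hj => ?_
            rw [mem_range] at hk hj
            rw [Nat.choose_eq_zero_of_lt (lt_of_lt_of_le (hNlt k hk j hj) h2)]
            simp
          rw [h3]
          simpa using hnn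
        · rw [not_le] at h2
          rw [abs_mul, abs_mul, Nat.abs_cast, abs_pow]
          have e1 : (((l + i).choose l : ℕ) : ℝ) ≤ 2 ^ (n * I) := by
            have : (l + i).choose l ≤ 2 ^ (n * I) :=
              (Nat.choose_le_two_pow _ _).trans (Nat.pow_le_pow_right (by norm_num) h2.le)
            exact_mod_cast this
          have e2 : |ξ - 1| ^ i ≤ 1 / M ^ (L - l) := by
            calc |ξ - 1| ^ i ≤ (1 / M) ^ i := pow_le_pow_left₀ (abs_nonneg _) hξ1 i
              _ ≤ (1 / M) ^ (L - l) := pow_le_pow_of_le_one (by positivity) hinv (by omega)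
              _ = 1 / M ^ (L - l) := by rw [one_div, one_div, inv_pow]
          have e3 := tay_abs p n I J (l + i) hJn B hB hp
          gcongr
    have hsum : |∑ i ∈ range (n * I),
        (((l + i).choose l : ℕ) : ℝ) * (ξ - 1) ^ i * ((tay p n I J (l + i) : ℤ) : ℝ)| ≤
        (n * I : ℕ) * (2 ^ (n * I) * (1 / M ^ (L - l)) * ((I : ℝ) * J * B * 2 ^ (n * I))) := by
      refine (Finset.abs_sum_le_sum_abs _ _).trans ((Finset.sum_le_sum hterm).trans (le_of_eq ?_))
      rw [Finset.sum_const, Finset.card_range, nsmul_eq_mul]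
    have hξl : ξ ^ l ≤ 2 ^ (n * I) :=
      (pow_le_pow_left₀ hξ.le hξ2 l).trans (pow_le_pow_right₀ (by norm_num) hl.le)
    calc ξ ^ l * |∑ i ∈ range (n * I),
        (((l + i).choose l : ℕ) : ℝ) * (ξ - 1) ^ i * ((tay p n I J (l + i) : ℤ) : ℝ)|
        ≤ 2 ^ (n * I) * ((n * I : ℕ) * (2 ^ (n * I) * (1 / M ^ (L - l)) *
          ((I : ℝ) * J * B * 2 ^ (n * I)))) :=
          mul_le_mul hξl hsum (abs_nonneg _) (by positivity)
      _ = (n * I : ℕ) * (I * J : ℕ) * B * (2 ^ (n * I)) ^ 3 / M ^ (L - l) := by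
          push_cast
          ring

theorem tau_small (p : ℕ → ℕ → ℤ) (n I J l : ℕ) (hJn : J ≤ n) (B ξ τ : ℝ) (hB : 0 ≤ B)
    (hp : ∀ k < I, ∀ j < J, |(p k j : ℝ)| ≤ B)
    (hξ : 0 < ξ) (hξ1 : ξ ≤ 2) (hτ : 0 < τ) (hτ2 : τ ≤ 2) :
    |∑ k ∈ range I, ∑ j ∈ range J,
        (p k j : ℝ) * ((n * k + j).choose l : ℝ) * (τ ^ k - 1) * ξ ^ (n * k + j)| ≤
      (I * J : ℕ) * B * (2 ^ (n * I)) ^ 2 * (I * 2 ^ I) * |τ - 1| := by
  have hpow : ∀ k : ℕ, |τ ^ k - 1| ≤ k * 2 ^ k * |τ - 1| := by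
    intro k
    induction k with
    | zero => simp
    | succ k ih =>
      have h1 : τ ^ (k + 1) - 1 = τ * (τ ^ k - 1) + (τ - 1) := by ring
      rw [h1]
      refine (abs_add_le _ _).trans ?_
      rw [abs_mul, abs_of_pos hτ]
      have h2 : τ * |τ ^ k - 1| ≤ 2 * (k * 2 ^ k * |τ - 1|) :=
        mul_le_mul hτ2 ih (abs_nonneg _) (by norm_num)
      have h3 : (1 : ℝ) ≤ 2 ^ (k + 1) := one_le_pow₀ (by norm_num)
      have h4 : |τ - 1| ≤ 2 ^ (k + 1) * |τ - 1| := le_mul_of_one_le_left (abs_nonneg _) h3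
      push_cast
      calc τ * |τ ^ k - 1| + |τ - 1| ≤ 2 * (k * 2 ^ k * |τ - 1|) + 2 ^ (k + 1) * |τ - 1| := by
            linarith
        _ = ((k : ℝ) + 1) * 2 ^ (k + 1) * |τ - 1| := by ring
  have hterm : ∀ k ∈ range I, ∀ j ∈ range J,
      |(p k j : ℝ) * ((n * k + j).choose l : ℝ) * (τ ^ k - 1) * ξ ^ (n * k + j)| ≤
      B * 2 ^ (n * I) * (I * 2 ^ I * |τ - 1|) * 2 ^ (n * I) := by
    intro k hk j hj
    rw [mem_range] at hk hj
    rw [abs_mul, abs_mul, abs_mul, Nat.abs_cast, abs_pow, abs_of_pos hξ]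
    have h1 := choose_le_pow n I J k j l hJn hk hj
    have h2 := hp k hk j hj
    have h3 : |τ ^ k - 1| ≤ I * 2 ^ I * |τ - 1| := by
      refine (hpow k).trans ?_
      have h4 : (k : ℝ) ≤ I := by exact_mod_cast hk.le
      have h5 : (2 : ℝ) ^ k ≤ 2 ^ I := pow_le_pow_right₀ (by norm_num) hk.le
      gcongr
    have h4 : ξ ^ (n * k + j) ≤ 2 ^ (n * I) := by
      refine (pow_le_pow_left₀ hξ.le hξ1 _).trans (pow_le_pow_right₀ (by norm_num) ?_)
      nlinarith [Nat.mul_le_mul_left n (Nat.succ_le_of_lt hk)]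
    gcongr
  calc |∑ k ∈ range I, ∑ j ∈ range J,
        (p k j : ℝ) * ((n * k + j).choose l : ℝ) * (τ ^ k - 1) * ξ ^ (n * k + j)|
      ≤ ∑ k ∈ range I, ∑ j ∈ range J, B * 2 ^ (n * I) * (I * 2 ^ I * |τ - 1|) * 2 ^ (n * I) :=
        (Finset.abs_sum_le_sum_abs _ _).trans (Finset.sum_le_sum fun k hk =>
          (Finset.abs_sum_le_sum_abs _ _).trans (Finset.sum_le_sum fun j hj => hterm k hk j hj))
    _ = (I * J : ℕ) * B * (2 ^ (n * I)) ^ 2 * (I * 2 ^ I) * |τ - 1| := by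
        simp only [Finset.sum_const, Finset.card_range, nsmul_eq_mul]
        push_cast
        ring

end AbcRad
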