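import Pool.Agent.Work.MP_a793bb_nt.Rad.Siegel
import Pool.Agent.Work.MP_a793bb_nt.Rad.Nonvan
import Pool.Agent.Work.MP_a793bb_nt.Rad.Taylor

/-!
# Main lemma, archimedean form

Proof. `L = I J - (I J + 7) / 8 ≥ J`, `p` from `siegel`, `B = (I J * 2 ^ (n I)) ^ 7`, `l` from
`nonvanish`: the integer `N = Nl p n I J l t1 t2 x1 x2` is not zero, so `1 ≤ |N|`. In `ℝ` put
`ξ = x1 / x2`, `τ = t1 x2 ^ n / (t2 x1 ^ n)`; then
`N = t2 ^ (I-1) x2 ^ (J-1) ∑∑ p_{kj} (n k + j).choose l * τ ^ k ξ ^ (n k + j)`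
because `τ ^ k ξ ^ (n k + j) = (t1 / t2) ^ k ξ ^ j`. Write `τ ^ k = 1 + (τ ^ k - 1)` and use
`real_small` and `tau_small` (`ξ ≤ 1 + 1 / M ≤ 2`, `τ ≤ 1 + 1 / M ^ (I J) ≤ 2`,
`|τ - 1| ≤ 1 / M ^ (I J) ≤ 1 / M ^ (L - l)`):
`1 ≤ |N| ≤ T ^ (I-1) X ^ (J-1) * I J * B * 2 ^ (3 n I) * (n I + I 2 ^ I) / M ^ (L - l)`, so
`M ^ (L - l) ≤ E * T ^ I * X ^ J`,
`E = (I J) ^ 8 * 2 ^ (7 n I) * 2 ^ (3 n I) * (n I) * 2 ^ (n I + 1) ≤ (n I * 2 ^ (n I)) ^ 12`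
(using `n I + I 2 ^ I ≤ n I * 2 ^ (I + 1)` and `I J ≤ n I`, `2 ≤ n I`).
As in `main_padic`, `2 (L - l) ≥ I J`, so `M ^ (I J) ≤ (M ^ (L - l)) ^ 2`.
-/

set_option autoImplicit false

namespace AbcRad

open Polynomial Finset

private theorem Nl_real (p : ℕ → ℕ → ℤ) (n I J l : ℕ) (t1 t2 x1 x2 : ℕ) (ht2 : 0 < t2)
    (hx1 : 0 < x1) (hx2 : 0 < x2) :
    ((Nl p n I J l t1 t2 x1 x2 : ℤ) : ℝ) = (t2 : ℝ) ^ (I - 1) * (x2 : ℝ) ^ (J - 1) *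
      ∑ k ∈ range I, ∑ j ∈ range J, ((p k j : ℤ) : ℝ) * (((n * k + j).choose l : ℕ) : ℝ) *
        ((t1 : ℝ) * (x2 : ℝ) ^ n / ((t2 : ℝ) * (x1 : ℝ) ^ n)) ^ k *
        ((x1 : ℝ) / x2) ^ (n * k + j) := by
  have h2 : (t2 : ℝ) ≠ 0 := by exact_mod_cast ht2.ne'
  have hx1' : (x1 : ℝ) ≠ 0 := by exact_mod_cast hx1.ne'
  have hx2' : (x2 : ℝ) ≠ 0 := by exact_mod_cast hx2.ne'
  unfold Nl
  push_cast
  rw [Finset.mul_sum]
  refine Finset.sum_congr rfl fun k hk => ?_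
  rw [Finset.mul_sum]
  refine Finset.sum_congr rfl fun j hj => ?_
  rw [mem_range] at hk hj
  have e1 : (t2 : ℝ) ^ (I - 1) = (t2 : ℝ) ^ k * (t2 : ℝ) ^ (I - 1 - k) := by
    rw [← pow_add]; congr 1; omega
  have e2 : (x2 : ℝ) ^ (J - 1) = (x2 : ℝ) ^ j * (x2 : ℝ) ^ (J - 1 - j) := by
    rw [← pow_add]; congr 1; omega
  have e3 : ((t1 : ℝ) * (x2 : ℝ) ^ n / ((t2 : ℝ) * (x1 : ℝ) ^ n)) ^ k *
      ((x1 : ℝ) / x2) ^ (n * k + j) = (t1 : ℝ) ^ k / (t2 : ℝ) ^ k * ((x1 : ℝ) ^ j / (x2 : ℝ) ^ j) := by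
    rw [pow_add, pow_mul, div_pow, div_pow, div_pow, div_pow, mul_pow, mul_pow]
    field_simp
  calc ((p k j : ℤ) : ℝ) * (((n * k + j).choose l : ℕ) : ℝ) * (t1 : ℝ) ^ k *
        (t2 : ℝ) ^ (I - 1 - k) * (x1 : ℝ) ^ j * (x2 : ℝ) ^ (J - 1 - j)
      = ((t2 : ℝ) ^ k * (t2 : ℝ) ^ (I - 1 - k)) * ((x2 : ℝ) ^ j * (x2 : ℝ) ^ (J - 1 - j)) *
        (((p k j : ℤ) : ℝ) * (((n * k + j).choose l : ℕ) : ℝ) *
          ((t1 : ℝ) ^ k / (t2 : ℝ) ^ k * ((x1 : ℝ) ^ j / (x2 : ℝ) ^ j))) := by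
        field_simp
    _ = _ := by
        rw [← e1, ← e2, ← e3]
        ring

theorem main_real (n I J : ℕ) (M : ℝ) (hJ8 : 8 ≤ J) (hJn : J ≤ n) (hI : 2 ≤ I) (hM : 1 ≤ M)
    (t1 t2 x1 x2 : ℕ) (ht1 : 0 < t1) (ht2 : 0 < t2) (hx1 : 0 < x1) (hx2 : 0 < x2)
    (T X : ℝ) (ht1T : (t1 : ℝ) ≤ T) (ht2T : (t2 : ℝ) ≤ T) (hx1X : (x1 : ℝ) ≤ X)
    (hx2X : (x2 : ℝ) ≤ X) (hx : |(x1 : ℝ) / x2 - 1| ≤ 1 / M)
    (ht : |(t1 : ℝ) * (x2 : ℝ) ^ n / ((t2 : ℝ) * (x1 : ℝ) ^ n) - 1| ≤ 1 / M ^ (I * J))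
    (hne : t1 * x2 ^ n ≠ t2 * x1 ^ n) :
    M ^ (I * J) ≤ ((((n * I : ℕ) : ℝ) * 2 ^ (n * I)) ^ 12 * T ^ I * X ^ J) ^ 2 := by
  obtain ⟨P, hP⟩ : ∃ P, P = I * J := ⟨_, rfl⟩
  obtain ⟨L, hL⟩ : ∃ L, L = I * J - (I * J + 7) / 8 := ⟨_, rfl⟩
  have h2J : 2 * J ≤ P := by rw [hP]; exact Nat.mul_le_mul_right J hI
  have h8I : 8 * I ≤ P := by rw [hP, mul_comm I J]; exact Nat.mul_le_mul_right I hJ8
  have hL' : L = P - (P + 7) / 8 := by rw [hL, hP]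
  have hJL : J ≤ L := by omega
  have hLP : L ≤ I * J := by omega
  obtain ⟨p, hp0, hpz, hpB⟩ := siegel n I J L hJ8 hJn (by omega) hL
  obtain ⟨l, hl, hN⟩ := nonvanish p n I J L hJn hJL hI hLP hp0 hpz t1 t2 x1 x2 ht1 ht2 hx1 hx2 hne
  have hl' : l + L + 2 ≤ P + I := by
    have : I * (J + 1) = P + I := by rw [hP]; ring
    omega
  have hlL : l ≤ L := by omega
  have hM0 : 0 < M := by linarith
  have hT1 : 1 ≤ T := le_trans (by exact_mod_cast ht1) ht1T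
  have hX1 : 1 ≤ X := le_trans (by exact_mod_cast hx1) hx1X
  have hT0 : 0 ≤ T := by linarith
  have hX0 : 0 ≤ X := by linarith
  have hle : (1 : ℤ) ≤ |Nl p n I J l t1 t2 x1 x2| := Int.one_le_abs hN
  have hle' : (1 : ℝ) ≤ |((Nl p n I J l t1 t2 x1 x2 : ℤ) : ℝ)| := by
    exact_mod_cast hle
  obtain ⟨ξ, hξd⟩ : ∃ ξ : ℝ, ξ = (x1 : ℝ) / x2 := ⟨_, rfl⟩
  obtain ⟨τ, hτd⟩ : ∃ τ : ℝ, τ = (t1 : ℝ) * (x2 : ℝ) ^ n / ((t2 : ℝ) * (x1 : ℝ) ^ n) := ⟨_, rfl⟩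
  have hNreal := Nl_real p n I J l t1 t2 x1 x2 ht2 hx1 hx2
  rw [← hξd, ← hτd] at hNreal
  rw [← hξd] at hx
  rw [← hτd] at ht
  have hξ0 : 0 < ξ := by
    rw [hξd]
    have h1 : (0 : ℝ) < x1 := by exact_mod_cast hx1
    have h2 : (0 : ℝ) < x2 := by exact_mod_cast hx2
    positivity
  have hτ0 : 0 < τ := by
    rw [hτd]
    have h1 : (0 : ℝ) < x1 := by exact_mod_cast hx1
    have h2 : (0 : ℝ) < x2 := by exact_mod_cast hx2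
    have h3 : (0 : ℝ) < t1 := by exact_mod_cast ht1
    have h4 : (0 : ℝ) < t2 := by exact_mod_cast ht2
    positivity
  have hinv : 1 / M ≤ 1 := by
    rw [div_le_one hM0]; exact hM
  have hξ2 : ξ ≤ 2 := by
    have := (abs_le.1 hx).2
    linarith
  have hinvP : 1 / M ^ (I * J) ≤ 1 / M ^ (L - l) := by
    apply one_div_le_one_div_of_le (by positivity)
    exact pow_le_pow_right₀ hM (by omega)
  have hinvL : 1 / M ^ (L - l) ≤ 1 := by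
    rw [div_le_one (by positivity)]
    exact one_le_pow₀ hM
  have hτ2 : τ ≤ 2 := by
    have := (abs_le.1 ht).2
    linarith
  obtain ⟨B, hBd⟩ : ∃ B : ℝ, B = (((I * J : ℕ) : ℝ) * (2 : ℝ) ^ (n * I)) ^ 7 := ⟨_, rfl⟩
  rw [← hBd] at hpB
  have hB0 : 0 ≤ B := by rw [hBd]; positivity
  have hr := real_small p n I J L l hJn B M ξ hB0 hpB hpz hM hξ0 hx
  have ht' := tau_small p n I J l hJn B ξ τ hB0 hpB hξ0 hξ2 hτ0 hτ2
  have hsplit : ∑ k ∈ range I, ∑ j ∈ range J, ((p k j : ℤ) : ℝ) *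
      (((n * k + j).choose l : ℕ) : ℝ) * τ ^ k * ξ ^ (n * k + j) =
      ∑ k ∈ range I, ∑ j ∈ range J, (p k j : ℝ) * ((n * k + j).choose l : ℝ) * ξ ^ (n * k + j) +
      ∑ k ∈ range I, ∑ j ∈ range J,
        (p k j : ℝ) * ((n * k + j).choose l : ℝ) * (τ ^ k - 1) * ξ ^ (n * k + j) := by
    rw [← Finset.sum_add_distrib]
    refine Finset.sum_congr rfl fun k _ => ?_
    rw [← Finset.sum_add_distrib]
    refine Finset.sum_congr rfl fun j _ => ?_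
    ring
  obtain ⟨W, hWd⟩ : ∃ W : ℝ, W = (2 : ℝ) ^ (n * I) := ⟨_, rfl⟩
  rw [← hWd] at hr ht' hBd
  obtain ⟨N, hNd⟩ : ∃ N : ℝ, N = ((n * I : ℕ) : ℝ) := ⟨_, rfl⟩
  obtain ⟨K, hKd⟩ : ∃ K : ℝ, K = ((I * J : ℕ) : ℝ) := ⟨_, rfl⟩
  rw [← hNd, ← hKd] at hr
  rw [← hKd] at ht' hBd
  rw [← hNd, ← hWd]
  have hnI : (1 : ℝ) ≤ N := by
    rw [hNd]
    exact_mod_cast Nat.mul_pos (by omega : 0 < n) (by omega : 0 < I)
  have hW2 : (2 : ℝ) ≤ W := by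
    rw [hWd]
    calc (2 : ℝ) = 2 ^ 1 := by norm_num
      _ ≤ 2 ^ (n * I) := pow_le_pow_right₀ (by norm_num)
          (Nat.mul_pos (by omega : 0 < n) (by omega : 0 < I))
  have hK0 : 0 ≤ K := by rw [hKd]; positivity
  have hKN : K ≤ N := by
    rw [hKd, hNd]
    have : I * J ≤ n * I := by rw [mul_comm n I]; exact Nat.mul_le_mul_left I hJn
    exact_mod_cast this
  have hI2 : (I : ℝ) * 2 ^ I ≤ N * W := by
    have h1 : (I : ℝ) ≤ N := by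
      rw [hNd]
      have : I ≤ n * I := Nat.le_mul_of_pos_left I (by omega)
      exact_mod_cast this
    have h2 : (2 : ℝ) ^ I ≤ W := by
      rw [hWd]
      exact pow_le_pow_right₀ (by norm_num) (Nat.le_mul_of_pos_left I (by omega))
    have h3 : (0 : ℝ) ≤ I := Nat.cast_nonneg I
    exact mul_le_mul h1 h2 (by positivity) (by linarith)
  obtain ⟨D, hDd⟩ : ∃ D : ℝ, D = M ^ (L - l) := ⟨_, rfl⟩
  rw [← hDd] at hr hinvP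
  have hD0 : 0 < D := by rw [hDd]; positivity
  have hW0 : 0 ≤ W := by linarith
  have hN0 : 0 ≤ N := by linarith
  have hτbound : K * B * W ^ 2 * (I * 2 ^ I) * |τ - 1| ≤ K * B * W ^ 2 * (N * W) * (1 / D) := by
    have h1 : |τ - 1| ≤ 1 / D := ht.trans hinvP
    have h3 : (0 : ℝ) ≤ I := Nat.cast_nonneg I
    gcongr
  have hbr : |∑ k ∈ range I, ∑ j ∈ range J, ((p k j : ℤ) : ℝ) *
      (((n * k + j).choose l : ℕ) : ℝ) * τ ^ k * ξ ^ (n * k + j)| ≤ 2 * K * N * B * W ^ 3 / D := by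
    rw [hsplit]
    refine (abs_add_le _ _).trans ?_
    calc _ ≤ N * K * B * W ^ 3 / D + K * B * W ^ 2 * (N * W) * (1 / D) :=
          add_le_add hr (ht'.trans hτbound)
      _ = 2 * K * N * B * W ^ 3 / D := by ring
  have hfin1 : (1 : ℝ) ≤ T ^ I * X ^ J * (2 * K * N * B * W ^ 3 / D) := by
    refine hle'.trans ?_
    rw [hNreal, abs_mul, abs_mul, abs_pow, abs_pow, Nat.abs_cast, Nat.abs_cast]
    have hTI : (t2 : ℝ) ^ (I - 1) ≤ T ^ I :=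
      (pow_le_pow_left₀ (Nat.cast_nonneg _) ht2T _).trans (pow_le_pow_right₀ hT1 (by omega))
    have hXJ : (x2 : ℝ) ^ (J - 1) ≤ X ^ J :=
      (pow_le_pow_left₀ (Nat.cast_nonneg _) hx2X _).trans (pow_le_pow_right₀ hX1 (by omega))
    exact mul_le_mul (mul_le_mul hTI hXJ (by positivity) (by positivity)) hbr (abs_nonneg _)
      (by positivity)
  have hE : 2 * K * N * B * W ^ 3 ≤ (N * W) ^ 12 := by
    rw [hBd]
    calc 2 * K * N * (K * W) ^ 7 * W ^ 3 = 2 * (K ^ 8 * N * W ^ 10) := by ring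
      _ ≤ W * (N ^ 8 * N * W ^ 10) := by gcongr
      _ = N ^ 9 * W ^ 11 * 1 := by ring
      _ ≤ N ^ 9 * W ^ 11 * (N ^ 3 * W) := by
          have h1 : 1 ≤ N ^ 3 * W :=
            one_le_mul_of_one_le_of_one_le (one_le_pow₀ hnI) (by linarith)
          gcongr
      _ = (N * W) ^ 12 := by ring
  have hmain : D ≤ (N * W) ^ 12 * T ^ I * X ^ J := by
    have h1 : D * 1 ≤ D * (T ^ I * X ^ J * (2 * K * N * B * W ^ 3 / D)) :=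
      mul_le_mul_of_nonneg_left hfin1 hD0.le
    have h2 : D * (T ^ I * X ^ J * (2 * K * N * B * W ^ 3 / D)) =
        (2 * K * N * B * W ^ 3) * (T ^ I * X ^ J) := by
      field_simp
    rw [h2, mul_one] at h1
    calc D ≤ (2 * K * N * B * W ^ 3) * (T ^ I * X ^ J) := h1
      _ ≤ (N * W) ^ 12 * (T ^ I * X ^ J) := by gcongr
      _ = (N * W) ^ 12 * T ^ I * X ^ J := by ring
  calc M ^ (I * J) ≤ M ^ ((L - l) * 2) := pow_le_pow_right₀ hM (by omega)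
    _ = D ^ 2 := by rw [pow_mul, hDd]
    _ ≤ ((N * W) ^ 12 * T ^ I * X ^ J) ^ 2 := pow_le_pow_left₀ hD0.le hmain 2

end AbcRad
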