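import Pool.Agent.Work.MP_a793bb_nt.Rad.CellT
import Pool.Agent.Work.MP_a793bb_nt.Rad.MainR

/-!
# Two solutions in the same archimedean cell are equal

Proof. Suppose `x ≠ y`. Apply `main_real` with `M = R ^ δ ≥ 1`, `t1 = T1 n x y`, `t2 = T1 n y x`,
`x1 := X1 = xiN n x * xiD n y`, `x2 := X2 = xiN n y * xiD n x`, `T = exp (2 κ n log R)`,
`X = exp (16 Q / n)` as in `cell_unique`.
* `log (X1 / X2) = log (xiN x / xiD x) - log (xiN y / xiD y)`, and by `hv` twice `R ^ δ` times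
  its absolute value is less than `1`, so `|log (X1 / X2)| ≤ 1 / (2 R ^ δ) ≤ 1 / 2` and
  `|X1 / X2 - 1| ≤ 2 |log (X1 / X2)| ≤ 1 / R ^ δ` (`|exp t - 1| ≤ 2 |t|` for `|t| ≤ 1`,
  `Real.abs_exp_sub_one_le`).
* By `identity`, `t1 X2 ^ n / (t2 X1 ^ n) = (x.2 y.1) / (x.1 y.2) = (y.1 / y.2) / (x.1 / x.2)`.
  With `η = exp (- Q / 2) ≤ 1 / 4` (`Q ≥ 4`), `|u - 1| ≤ η`, `|w - 1| ≤ η` give
  `|w / u - 1| = |w - u| / u ≤ 2 η / (1 / 2) = 4 η ≤ exp (- Q / 8)` as `exp (3 Q / 8) ≥ 4`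
  (`3 Q / 8 ≥ 3 / 2 > log 4`), and
  `exp (- Q / 8) ≤ exp (- L0 δ log R) ≤ exp (- I J δ log R) = 1 / (R ^ δ) ^ (I J)` by `Par.hL0`,
  `Par.hIJ`.
* `t1 X2 ^ n ≠ t2 X1 ^ n` by `ne_of_ne`.
The conclusion of `main_real` contradicts `Par.key` after taking logarithms
(`log (R ^ δ) = δ log R`).
-/

set_option autoImplicit false

namespace AbcRad

open Finset

private theorem final_contra (δ κ R Q M : ℝ) (n I J L0 : ℕ) (hP : Par δ κ R Q n I J L0)
    (hM : R ^ δ ≤ M)
    (h : M ^ (I * J) ≤ ((((n * I : ℕ) : ℝ) * 2 ^ (n * I)) ^ 12 *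
      (Real.exp (2 * (κ * n) * Real.log R)) ^ I * (Real.exp (16 * Q / n)) ^ J) ^ 2) : False := by
  have hR := hP.hR
  have hR0 : (0 : ℝ) < R := by linarith
  have hRδ : 0 < R ^ δ := Real.rpow_pos_of_pos hR0 _
  have hM0 : 0 < M := by linarith
  have hn : 0 < n := by
    have := hP.hJ8
    have := hP.hJn
    omega
  have hI : 0 < I := by
    have := hP.hI
    omega
  have hnI : (0 : ℝ) < ((n * I : ℕ) : ℝ) := by exact_mod_cast Nat.mul_pos hn hI
  have h1 := Real.log_le_log (by positivity) h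
  rw [Real.log_pow, Real.log_pow, Real.log_mul (by positivity) (by positivity),
    Real.log_mul (by positivity) (by positivity), Real.log_pow,
    Real.log_mul (by positivity) (by positivity), Real.log_pow, Real.log_pow, Real.log_pow,
    Real.log_exp, Real.log_exp] at h1
  have h2 : δ * Real.log R ≤ Real.log M := by
    rw [← Real.log_rpow hR0]
    exact Real.log_le_log hRδ hM
  have h3 : ((I * J : ℕ) : ℝ) * (δ * Real.log R) ≤ ((I * J : ℕ) : ℝ) * Real.log M :=
    mul_le_mul_of_nonneg_left h2 (Nat.cast_nonneg _)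
  have h4 := hP.key
  push_cast at h1 h3 h4
  linarith

theorem cellR_unique (δ κ R Q : ℝ) (n I J L0 : ℕ)
    (hP : Par δ κ R Q n I J L0) (x y : ℕ × ℕ)
    (hx : Base δ κ R Q n x) (hy : Base δ κ R Q n y)
    (hD : smallPart (R ^ δ) (x.1 * x.2) = smallPart (R ^ δ) (y.1 * y.2))
    (hφ : ∀ p ∈ (smallPart (R ^ δ) (x.1 * x.2)).primeFactors,
      ⌊(gr n (ev x p) : ℝ) / (κ * n)⌋ = ⌊(gr n (ev y p) : ℝ) / (κ * n)⌋)
    (hcx : |(x.1 : ℝ) / x.2 - 1| ≤ Real.exp (-(Q / 2)))
    (hcy : |(y.1 : ℝ) / y.2 - 1| ≤ Real.exp (-(Q / 2)))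
    (hv : ⌊2 * R ^ δ * Real.log ((xiN n x : ℝ) / xiD n x)⌋ =
      ⌊2 * R ^ δ * Real.log ((xiN n y : ℝ) / xiD n y)⌋) : x = y := by
  by_contra hne
  have hR := hP.hR
  have hQ := hP.hQ
  have hR0 : (0 : ℝ) < R := by linarith
  have hn : 1 ≤ n := by
    have := hP.hJ8
    have := hP.hJn
    omega
  have hRδ : 1 ≤ R ^ δ := Real.one_le_rpow (by linarith) hP.hδ.le
  have hRδ0 : 0 < R ^ δ := by linarith
  have hT1 := T_bound δ κ R Q n hn hP.hκ hR x y hx hy hD hφ
  have hT2 := T_bound δ κ R Q n hn hP.hκ hR y x hy hx hD.symm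
    (fun p hp => (hφ p (hD ▸ hp)).symm)
  have hX1 := X_bound δ κ R Q n hn x y hx hy
  have hX2 := X_bound δ κ R Q n hn y x hy hx
  have hid := identity n hn x y hx.pos1 hx.pos2 hy.pos1 hy.pos2
  have hne' : T1 n x y * (xiN n y * xiD n x) ^ n ≠ T1 n y x * (xiN n x * xiD n y) ^ n :=
    fun h => hne (ne_of_ne n hn x y hx.pos1 hx.pos2 hy.pos1 hy.pos2 hx.cop hy.cop h)
  have a1 : (0 : ℝ) < xiN n x := by exact_mod_cast xiN_pos n x
  have a2 : (0 : ℝ) < xiD n x := by exact_mod_cast xiD_pos n x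
  have a3 : (0 : ℝ) < xiN n y := by exact_mod_cast xiN_pos n y
  have a4 : (0 : ℝ) < xiD n y := by exact_mod_cast xiD_pos n y
  have a5 : (0 : ℝ) < T1 n x y := by exact_mod_cast T1_pos n x y
  have a6 : (0 : ℝ) < T1 n y x := by exact_mod_cast T1_pos n y x
  have b1 : (0 : ℝ) < x.1 := by exact_mod_cast hx.pos1
  have b2 : (0 : ℝ) < x.2 := by exact_mod_cast hx.pos2
  have b3 : (0 : ℝ) < y.1 := by exact_mod_cast hy.pos1
  have b4 : (0 : ℝ) < y.2 := by exact_mod_cast hy.pos2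
  -- the first condition
  have hdx : |((xiN n x * xiD n y : ℕ) : ℝ) / ((xiN n y * xiD n x : ℕ) : ℝ) - 1| ≤
      1 / R ^ δ := by
    push_cast
    set u := Real.log ((xiN n x : ℝ) / xiD n x) with hu
    set w := Real.log ((xiN n y : ℝ) / xiD n y) with hw
    have e : (xiN n x : ℝ) * xiD n y / ((xiN n y : ℝ) * xiD n x) = Real.exp (u - w) := by
      rw [Real.exp_sub, hu, hw, Real.exp_log (by positivity), Real.exp_log (by positivity)]
      field_simp
    have h1 := Int.floor_le (2 * R ^ δ * u)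
    have h2 := Int.lt_floor_add_one (2 * R ^ δ * u)
    have h3 := Int.floor_le (2 * R ^ δ * w)
    have h4 := Int.lt_floor_add_one (2 * R ^ δ * w)
    rw [hv] at h1 h2
    have h5 : |2 * R ^ δ * (u - w)| ≤ 1 := by
      rw [mul_sub, abs_le]
      constructor <;> linarith
    rw [abs_mul, abs_of_pos (by positivity : 0 < 2 * R ^ δ)] at h5
    have h6 : |u - w| ≤ 1 / (2 * R ^ δ) := by
      rw [le_div_iff₀ (by positivity)]
      linarith
    have h7 : 1 / (2 * R ^ δ) ≤ 1 := by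
      rw [div_le_one (by positivity)]
      linarith
    rw [e]
    refine (Real.abs_exp_sub_one_le (h6.trans h7)).trans ?_
    calc 2 * |u - w| ≤ 2 * (1 / (2 * R ^ δ)) := by linarith
      _ = 1 / R ^ δ := by field_simp
  -- the second condition
  have hdt : |(T1 n x y : ℝ) * ((xiN n y * xiD n x : ℕ) : ℝ) ^ n /
      ((T1 n y x : ℝ) * ((xiN n x * xiD n y : ℕ) : ℝ) ^ n) - 1| ≤ 1 / (R ^ δ) ^ (I * J) := by
    have hid' : (x.1 : ℝ) * y.2 * ((T1 n x y : ℝ) * ((xiN n y * xiD n x : ℕ) : ℝ) ^ n) =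
        x.2 * y.1 * ((T1 n y x : ℝ) * ((xiN n x * xiD n y : ℕ) : ℝ) ^ n) := by
      exact_mod_cast hid
    have hp : (0 : ℝ) < (T1 n y x : ℝ) * ((xiN n x * xiD n y : ℕ) : ℝ) ^ n := by
      push_cast
      positivity
    have e : (T1 n x y : ℝ) * ((xiN n y * xiD n x : ℕ) : ℝ) ^ n /
      ((T1 n y x : ℝ) * ((xiN n x * xiD n y : ℕ) : ℝ) ^ n) =
        ((y.1 : ℝ) / y.2) / ((x.1 : ℝ) / x.2) := by
      rw [div_eq_div_iff hp.ne' (by positivity)]
      field_simp
      linarith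
    rw [e]
    set u := (x.1 : ℝ) / x.2 with hu
    set w := (y.1 : ℝ) / y.2 with hw
    set η := Real.exp (-(Q / 2)) with hη
    have h2e : Real.exp 1 > 2 := by
      have := Real.exp_one_gt_d9
      linarith
    have hη2 : η ≤ 1 / 2 := by
      have h2 : η ≤ Real.exp (-1) := by
        rw [hη, Real.exp_le_exp]
        linarith
      have h3 : Real.exp (-1) ≤ 1 / 2 := by
        rw [Real.exp_neg, inv_le_comm₀ (Real.exp_pos 1) (by norm_num)]
        norm_num
        linarith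
      linarith
    have hu1 := abs_le.1 hcx
    have hw1 := abs_le.1 hcy
    have hu2 : 1 / 2 ≤ u := by linarith
    have hu0 : 0 < u := by linarith
    have h1 : w / u - 1 = (w - u) / u := by
      field_simp
    have h2 : |w / u - 1| ≤ 4 * η := by
      rw [h1, abs_div, abs_of_pos hu0, div_le_iff₀ hu0]
      have h3 : |w - u| ≤ 2 * η := by
        rw [abs_le]
        constructor <;> linarith
      have h4 : 0 < η := Real.exp_pos _
      nlinarith
    have h3 : 4 * η ≤ Real.exp (-(Q / 8)) := by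
      have h4 : (4 : ℝ) ≤ Real.exp (3 * Q / 8) := by
        have h5 : Real.exp (3 / 2) ≤ Real.exp (3 * Q / 8) := by
          rw [Real.exp_le_exp]
          linarith
        have h6 : (4 : ℝ) ≤ Real.exp (3 / 2) := by
          have h7 : (4 : ℝ) ^ 2 ≤ (Real.exp (3 / 2)) ^ 2 := by
            rw [← Real.exp_nat_mul]
            have h8 : Real.exp ((2 : ℕ) * (3 / 2)) = Real.exp 1 ^ 3 := by
              rw [← Real.exp_nat_mul]
              norm_num
            rw [h8]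
            have h9 := Real.exp_one_gt_d9
            calc (4 : ℝ) ^ 2 ≤ 2.7 ^ 3 := by norm_num
              _ ≤ _ := pow_le_pow_left₀ (by norm_num) (by linarith) 3
          exact (abs_le_of_sq_le_sq' h7 (Real.exp_pos _).le).2
        linarith
      have h5 : Real.exp (-(Q / 8)) = Real.exp (3 * Q / 8) * η := by
        rw [hη, ← Real.exp_add]
        congr 1
        ring
      rw [h5]
      exact mul_le_mul_of_nonneg_right h4 (Real.exp_pos _).le
    have h4 : Real.exp (-(Q / 8)) ≤ 1 / (R ^ δ) ^ (I * J) := by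
      have h5 : (R ^ δ) ^ (I * J) = Real.exp ((I * J : ℕ) * (δ * Real.log R)) := by
        rw [Real.exp_nat_mul, ← Real.log_rpow hR0, Real.exp_log hRδ0]
      rw [h5, one_div, ← Real.exp_neg, Real.exp_le_exp]
      have hlog : 0 ≤ δ * Real.log R := mul_nonneg hP.hδ.le (Real.log_nonneg (by linarith))
      have h6 : ((I * J : ℕ) : ℝ) ≤ (L0 : ℝ) := by exact_mod_cast hP.hIJ
      have h7 := mul_le_mul_of_nonneg_right h6 hlog
      have h8 := hP.hL0
      linarith
    linarith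
  have hmain := main_real n I J (R ^ δ) hP.hJ8 hP.hJn hP.hI hRδ (T1 n x y) (T1 n y x)
    (xiN n x * xiD n y) (xiN n y * xiD n x) (T1_pos n x y) (T1_pos n y x)
    (Nat.mul_pos (xiN_pos n x) (xiD_pos n y)) (Nat.mul_pos (xiN_pos n y) (xiD_pos n x))
    _ _ hT1 hT2 hX1 hX2 hdx hdt hne'
  exact final_contra δ κ R Q (R ^ δ) n I J L0 hP le_rfl hmain

end AbcRad
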