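import Pool.Agent.Work.MP_a793bb_nt.Rad.FrGr

/-!
# The identity between two solutions

Proof. Both sides are positive, so compare the exponents of every prime `p` (`Nat.eq_of_factorization_eq`).
With `e = ev x p`, `e' = ev y p`, `f = fr n e`, `f' = fr n e'`, `g = gr n e`, `g' = gr n e'`
(all zero if `p` does not divide the product in question, by `fr_zero`, `gr_zero`), the exponent of
`p` on the left is `v_p (x.1) + v_p (y.2) + (g' - g)^+ + n (f'^+ + f^-)`, on the right
`v_p (x.2) + v_p (y.1) + (g - g')^+ + n (f^+ + f'^-)`, and the difference is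
`e - e' + (g' - g) + n (f' - f) = 0` since `e = n f + g`, `e' = n f' + g'` by definition of `gr`.
The exponent of `p` in a product `∏ q ∈ S, q ^ a q` of powers of primes is `a p` for `p ∈ S`, `0`
otherwise (`Nat.factorization_prod`, `Nat.Prime.factorization_pow`, or
`Nat.prod_pow_factorization_eq_self`).
-/

set_option autoImplicit false

namespace AbcRad

open Finset

private theorem ident_nz {S : Finset ℕ} (hS : ∀ q ∈ S, q.Prime) (a : ℕ → ℕ) :
    ∏ q ∈ S, q ^ a q ≠ 0 :=
  prod_ne_zero_iff.2 fun q hq => pow_ne_zero _ (hS q hq).ne_zero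

private theorem ident_fact {S : Finset ℕ} (hS : ∀ q ∈ S, q.Prime) (a : ℕ → ℕ) (p : ℕ)
    (h0 : p ∉ S → a p = 0) : (∏ q ∈ S, q ^ a q).factorization p = a p := by
  classical
  rw [Nat.factorization_prod fun q hq => pow_ne_zero _ (hS q hq).ne_zero]
  rw [Finsupp.finsetSum_apply]
  by_cases hp : p ∈ S
  · rw [sum_eq_single p]
    · rw [(hS p hp).factorization_pow, Finsupp.single_eq_same]
    · intro q hq hne
      rw [(hS q hq).factorization_pow, Finsupp.single_eq_of_ne (by exact fun h => hne h.symm)]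
    · intro h
      exact absurd hp h
  · rw [h0 hp]
    refine sum_eq_zero fun q hq => ?_
    rw [(hS q hq).factorization_pow, Finsupp.single_eq_of_ne]
    rintro rfl
    exact hp hq

theorem identity (n : ℕ) (hn : 1 ≤ n) (x y : ℕ × ℕ) (hx1 : 0 < x.1) (hx2 : 0 < x.2)
    (hy1 : 0 < y.1) (hy2 : 0 < y.2) :
    x.1 * y.2 * (T1 n x y * (xiN n y * xiD n x) ^ n) =
      x.2 * y.1 * (T1 n y x * (xiN n x * xiD n y) ^ n) := by
  have hpr : ∀ m : ℕ, ∀ q ∈ m.primeFactors, q.Prime := fun m q hq => Nat.prime_of_mem_primeFactors hq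
  have hpr2 : ∀ q ∈ (x.1 * x.2).primeFactors ∪ (y.1 * y.2).primeFactors, q.Prime := by
    intro q hq
    rcases mem_union.1 hq with h | h
    · exact hpr _ q h
    · exact hpr _ q h
  have hev : ∀ z : ℕ × ℕ, 0 < z.1 → 0 < z.2 → ∀ p, p ∉ (z.1 * z.2).primeFactors → p.Prime →
      ev z p = 0 := by
    intro z h1 h2 p hp hpp
    have h3 : ¬ p ∣ z.1 * z.2 := fun h => hp (Nat.mem_primeFactors.2 ⟨hpp, h, by positivity⟩)
    unfold ev
    rw [Nat.factorization_eq_zero_of_not_dvd fun h => h3 (h.mul_right _),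
      Nat.factorization_eq_zero_of_not_dvd fun h => h3 (h.mul_left _)]
    simp
  have hfN : ∀ z : ℕ × ℕ, 0 < z.1 → 0 < z.2 → ∀ p, p.Prime →
      (xiN n z).factorization p = (fr n (ev z p)).toNat := by
    intro z h1 h2 p hpp
    refine ident_fact (hpr _) (fun p => (fr n (ev z p)).toNat) p fun hp => ?_
    rw [hev z h1 h2 p hp hpp, fr_zero n hn]
    rfl
  have hfD : ∀ z : ℕ × ℕ, 0 < z.1 → 0 < z.2 → ∀ p, p.Prime →
      (xiD n z).factorization p = (-(fr n (ev z p))).toNat := by
    intro z h1 h2 p hpp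
    refine ident_fact (hpr _) (fun p => (-(fr n (ev z p))).toNat) p fun hp => ?_
    rw [hev z h1 h2 p hp hpp, fr_zero n hn]
    rfl
  have hT : ∀ p, p.Prime → (T1 n x y).factorization p =
      (gr n (ev y p) - gr n (ev x p)).toNat := by
    intro p hpp
    refine ident_fact hpr2 (fun p => (gr n (ev y p) - gr n (ev x p)).toNat) p fun hp => ?_
    rw [hev x hx1 hx2 p (fun h => hp (mem_union_left _ h)) hpp,
      hev y hy1 hy2 p (fun h => hp (mem_union_right _ h)) hpp, gr_zero n hn]
    rfl
  have hpr3 : ∀ q ∈ (y.1 * y.2).primeFactors ∪ (x.1 * x.2).primeFactors, q.Prime := by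
    intro q hq
    rw [union_comm] at hq
    exact hpr2 q hq
  have hT' : ∀ p, p.Prime → (T1 n y x).factorization p =
      (gr n (ev x p) - gr n (ev y p)).toNat := by
    intro p hpp
    refine ident_fact hpr3 (fun p => (gr n (ev x p) - gr n (ev y p)).toNat) p fun hp => ?_
    rw [hev x hx1 hx2 p (fun h => hp (mem_union_right _ h)) hpp,
      hev y hy1 hy2 p (fun h => hp (mem_union_left _ h)) hpp, gr_zero n hn]
    rfl
  have nN : ∀ z : ℕ × ℕ, xiN n z ≠ 0 := fun z => ident_nz (hpr _) _
  have nD : ∀ z : ℕ × ℕ, xiD n z ≠ 0 := fun z => ident_nz (hpr _) _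
  have nT : T1 n x y ≠ 0 := ident_nz hpr2 _
  have nT' : T1 n y x ≠ 0 := ident_nz hpr3 _
  refine Nat.eq_of_factorization_eq ?_ ?_ fun p => ?_
  · exact mul_ne_zero (mul_ne_zero hx1.ne' hy2.ne') (mul_ne_zero nT (pow_ne_zero _
      (mul_ne_zero (nN y) (nD x))))
  · exact mul_ne_zero (mul_ne_zero hx2.ne' hy1.ne') (mul_ne_zero nT' (pow_ne_zero _
      (mul_ne_zero (nN x) (nD y))))
  · by_cases hpp : p.Prime
    · rw [Nat.factorization_mul (mul_ne_zero hx1.ne' hy2.ne') (mul_ne_zero nT (pow_ne_zero _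
          (mul_ne_zero (nN y) (nD x)))), Nat.factorization_mul hx1.ne' hy2.ne',
        Nat.factorization_mul nT (pow_ne_zero _ (mul_ne_zero (nN y) (nD x))),
        Nat.factorization_pow, Nat.factorization_mul (nN y) (nD x),
        Nat.factorization_mul (mul_ne_zero hx2.ne' hy1.ne') (mul_ne_zero nT' (pow_ne_zero _
          (mul_ne_zero (nN x) (nD y)))), Nat.factorization_mul hx2.ne' hy1.ne',
        Nat.factorization_mul nT' (pow_ne_zero _ (mul_ne_zero (nN x) (nD y))),
        Nat.factorization_pow, Nat.factorization_mul (nN x) (nD y)]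
      simp only [Finsupp.add_apply, Finsupp.smul_apply, smul_eq_mul]
      rw [hT p hpp, hT' p hpp, hfN x hx1 hx2 p hpp, hfN y hy1 hy2 p hpp, hfD x hx1 hx2 p hpp,
        hfD y hy1 hy2 p hpp]
      have e1 : ev x p = n * fr n (ev x p) + gr n (ev x p) := by unfold gr; ring
      have e2 : ev y p = n * fr n (ev y p) + gr n (ev y p) := by unfold gr; ring
      have e3 : ev x p = (x.1.factorization p : ℤ) - (x.2.factorization p : ℤ) := rfl
      have e4 : ev y p = (y.1.factorization p : ℤ) - (y.2.factorization p : ℤ) := rfl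
      have tn : ∀ a : ℤ, ((a.toNat : ℕ) : ℤ) - (((-a).toNat : ℕ) : ℤ) = a := fun a =>
        Int.toNat_sub_toNat_neg a
      have t1 := tn (gr n (ev y p) - gr n (ev x p))
      rw [neg_sub] at t1
      have t2 := tn (fr n (ev x p))
      have t3 := tn (fr n (ev y p))
      zify
      have k1 : (x.1.factorization p : ℤ) + y.2.factorization p -
          (x.2.factorization p + y.1.factorization p) = ev x p - ev y p := by
        rw [e3, e4]
        ring
      generalize (((gr n (ev y p) - gr n (ev x p)).toNat : ℕ) : ℤ) = A at *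
      generalize (((gr n (ev x p) - gr n (ev y p)).toNat : ℕ) : ℤ) = B at *
      generalize (((fr n (ev x p)).toNat : ℕ) : ℤ) = a1 at *
      generalize (((-(fr n (ev x p))).toNat : ℕ) : ℤ) = a2 at *
      generalize (((fr n (ev y p)).toNat : ℕ) : ℤ) = b1 at *
      generalize (((-(fr n (ev y p))).toNat : ℕ) : ℤ) = b2 at *
      linear_combination k1 + e1 - e2 + t1 - (n : ℤ) * t2 + (n : ℤ) * t3
    · rw [Nat.factorization_eq_zero_of_not_prime _ hpp,
        Nat.factorization_eq_zero_of_not_prime _ hpp]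

end AbcRad
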