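import Pool.Agent.Work.MP_a793bb_nt.Rad.XiBasic
import Pool.Agent.Work.MP_a793bb_nt.Rad.Ident

/-!
# Sizes for two solutions with the same label

Proofs. `T_bound`: apply `log_T1_le` with `A = κ n`. For `p` in the union: if `p` divides both
products and `p ≤ R ^ δ`, then `p` divides the common small part `D`, so the floors of `g_p / (κ n)` and
`g'_p / (κ n)` agree and `|g'_p - g_p| ≤ κ n` (both weights are `1`, fine). If `p ≤ R ^ δ` divides
one of the products then it divides the small part of it, hence the small part of the other, so it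
divides both (`p` prime divides `smallPart Y m` iff `p ≤ Y` and `p ∈ m.primeFactors`). If
`p > R ^ δ`, `|g_p| ≤ κ n` if `p ∣ x.1 x.2` and `g_p = 0` otherwise (`ev x p = 0`, `gr_zero`),
and the same for `y`. So `log T1 ≤ κ n (log R + log R)`; the same bound for `T1 n y x` by symmetry.
`X_bound`: `log (xiN x * xiD y) ≤ (log xiN x + log xiD x) + (log xiN y + log xiD y)` (all the logs
are nonnegative) `≤ (2 / n) (4 Q + 4 Q)` by `log_xi_le` and `h1`, `h2` of `Base`.
`ne_of_ne`: if `T1 n x y * X2 ^ n = T1 n y x * X1 ^ n` then `identity` gives `x.1 y.2 = x.2 y.1`,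
and both pairs are coprime, so `x = y`.
-/

set_option autoImplicit false

namespace AbcRad

open Finset

private theorem sp_pf (Y : ℝ) (m : ℕ) {p : ℕ} :
    p ∈ (smallPart Y m).primeFactors ↔ p ∈ m.primeFactors ∧ (p : ℝ) ≤ Y := by
  unfold smallPart
  rw [Nat.primeFactors_prod fun q hq => Nat.prime_of_mem_primeFactors (mem_filter.1 hq).1,
    mem_filter]

private theorem ev_zero {z : ℕ × ℕ} (h1 : 0 < z.1) (h2 : 0 < z.2) {p : ℕ}
    (hp : p ∉ (z.1 * z.2).primeFactors) (hpp : p.Prime) : ev z p = 0 := by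
  have h3 : ¬ p ∣ z.1 * z.2 := fun h => hp (Nat.mem_primeFactors.2 ⟨hpp, h, by positivity⟩)
  unfold ev
  rw [Nat.factorization_eq_zero_of_not_dvd fun h => h3 (h.mul_right _),
    Nat.factorization_eq_zero_of_not_dvd fun h => h3 (h.mul_left _)]
  simp

theorem T_bound (δ κ R Q : ℝ) (n : ℕ) (hn : 1 ≤ n) (hκ : 0 < κ) (hR : 2 ≤ R) (x y : ℕ × ℕ)
    (hx : Base δ κ R Q n x) (hy : Base δ κ R Q n y)
    (hD : smallPart (R ^ δ) (x.1 * x.2) = smallPart (R ^ δ) (y.1 * y.2))
    (hφ : ∀ p ∈ (smallPart (R ^ δ) (x.1 * x.2)).primeFactors,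
      ⌊(gr n (ev x p) : ℝ) / (κ * n)⌋ = ⌊(gr n (ev y p) : ℝ) / (κ * n)⌋) :
    (T1 n x y : ℝ) ≤ Real.exp (2 * (κ * n) * Real.log R) := by
  have hn0 : (0 : ℝ) < n := by exact_mod_cast hn
  have hA : 0 < κ * n := mul_pos hκ hn0
  have hT0 : (0 : ℝ) < T1 n x y := by exact_mod_cast T1_pos n x y
  rw [← Real.log_le_iff_le_exp hT0]
  have hr : ∀ z : ℕ × ℕ, Base δ κ R Q n z → Real.log (rad (z.1 * z.2)) ≤ Real.log R := by
    intro z hz
    have h0 : 0 < rad (z.1 * z.2) :=
      prod_pos fun _ hp => (Nat.prime_of_mem_primeFactors hp).pos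
    exact Real.log_le_log (by exact_mod_cast h0) hz.hrad
  refine (log_T1_le n x y (κ * n) hA.le fun p hp => ?_).trans ?_
  · have hpp : p.Prime := by
      rcases mem_union.1 hp with h | h <;> exact Nat.prime_of_mem_primeFactors h
    push_cast
    by_cases hpl : R ^ δ < (p : ℝ)
    · have h1 : -((gr n (ev x p) : ℤ) : ℝ) ≤
          κ * n * (if p ∈ (x.1 * x.2).primeFactors then 1 else 0) := by
        by_cases h : p ∈ (x.1 * x.2).primeFactors
        · rw [if_pos h, mul_one]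
          have := (abs_le.1 (hx.hlarge p h hpl)).1
          linarith
        · rw [if_neg h, ev_zero hx.pos1 hx.pos2 h hpp, gr_zero n hn]
          simp
      have h2 : ((gr n (ev y p) : ℤ) : ℝ) ≤
          κ * n * (if p ∈ (y.1 * y.2).primeFactors then 1 else 0) := by
        by_cases h : p ∈ (y.1 * y.2).primeFactors
        · rw [if_pos h, mul_one]
          exact (abs_le.1 (hy.hlarge p h hpl)).2
        · rw [if_neg h, ev_zero hy.pos1 hy.pos2 h hpp, gr_zero n hn]
          simp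
      rw [mul_add]
      linarith
    · have hpl' := not_lt.1 hpl
      have hiff : p ∈ (x.1 * x.2).primeFactors ↔ p ∈ (y.1 * y.2).primeFactors := by
        constructor
        · intro h
          have h1 : p ∈ (smallPart (R ^ δ) (x.1 * x.2)).primeFactors := (sp_pf _ _).2 ⟨h, hpl'⟩
          rw [hD] at h1
          exact ((sp_pf _ _).1 h1).1
        · intro h
          have h1 : p ∈ (smallPart (R ^ δ) (y.1 * y.2)).primeFactors := (sp_pf _ _).2 ⟨h, hpl'⟩
          rw [← hD] at h1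
          exact ((sp_pf _ _).1 h1).1
      have hpx : p ∈ (x.1 * x.2).primeFactors := by
        rcases mem_union.1 hp with h | h
        · exact h
        · exact hiff.2 h
      rw [if_pos hpx, if_pos (hiff.1 hpx)]
      have h1 := hφ p ((sp_pf _ _).2 ⟨hpx, hpl'⟩)
      have h2 := Int.floor_le ((gr n (ev x p) : ℝ) / (κ * n))
      have h3 := Int.lt_floor_add_one ((gr n (ev y p) : ℝ) / (κ * n))
      rw [← h1] at h3
      have h4 : (gr n (ev y p) : ℝ) / (κ * n) - (gr n (ev x p) : ℝ) / (κ * n) < 1 := by linarith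
      rw [← sub_div, div_lt_one hA] at h4
      linarith
  · have h1 := hr x hx
    have h2 := hr y hy
    have h3 : κ * n * (Real.log (rad (x.1 * x.2)) + Real.log (rad (y.1 * y.2))) ≤
        κ * n * (Real.log R + Real.log R) := mul_le_mul_of_nonneg_left (by linarith) hA.le
    linarith

theorem X_bound (δ κ R Q : ℝ) (n : ℕ) (hn : 1 ≤ n) (x y : ℕ × ℕ)
    (hx : Base δ κ R Q n x) (hy : Base δ κ R Q n y) :
    ((xiN n x * xiD n y : ℕ) : ℝ) ≤ Real.exp (16 * Q / n) := by
  have hn0 : (0 : ℝ) < n := by exact_mod_cast hn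
  have h1 : 0 < xiN n x := xiN_pos n x
  have h2 : 0 < xiD n y := xiD_pos n y
  have h1' : (0 : ℝ) < xiN n x := by exact_mod_cast h1
  have h2' : (0 : ℝ) < xiD n y := by exact_mod_cast h2
  push_cast
  rw [← Real.log_le_iff_le_exp (by positivity), Real.log_mul h1'.ne' h2'.ne']
  have h3 := log_xi_le n hn x hx.pos1 hx.pos2
  have h4 := log_xi_le n hn y hy.pos1 hy.pos2
  have h5 : 0 ≤ Real.log (xiD n x) := Real.log_natCast_nonneg _
  have h6 : 0 ≤ Real.log (xiN n y) := Real.log_natCast_nonneg _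
  have h7 : 2 / (n : ℝ) * (Real.log x.1 + Real.log x.2) ≤ 2 / (n : ℝ) * (4 * Q) :=
    mul_le_mul_of_nonneg_left (by linarith [hx.h1, hx.h2]) (by positivity)
  have h8 : 2 / (n : ℝ) * (Real.log y.1 + Real.log y.2) ≤ 2 / (n : ℝ) * (4 * Q) :=
    mul_le_mul_of_nonneg_left (by linarith [hy.h1, hy.h2]) (by positivity)
  have h9 : 2 / (n : ℝ) * (4 * Q) + 2 / (n : ℝ) * (4 * Q) = 16 * Q / n := by ring
  linarith

theorem ne_of_ne (n : ℕ) (hn : 1 ≤ n) (x y : ℕ × ℕ) (hx1 : 0 < x.1) (hx2 : 0 < x.2)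
    (hy1 : 0 < y.1) (hy2 : 0 < y.2) (hxc : Nat.Coprime x.1 x.2) (hyc : Nat.Coprime y.1 y.2)
    (h : T1 n x y * (xiN n y * xiD n x) ^ n = T1 n y x * (xiN n x * xiD n y) ^ n) : x = y := by
  have h1 := identity n hn x y hx1 hx2 hy1 hy2
  rw [h] at h1
  have h2 : 0 < T1 n y x * (xiN n x * xiD n y) ^ n :=
    Nat.mul_pos (T1_pos n y x) (pow_pos (Nat.mul_pos (xiN_pos n x) (xiD_pos n y)) n)
  have h3 : x.1 * y.2 = x.2 * y.1 := Nat.eq_of_mul_eq_mul_right h2 h1
  have h4 : x.1 ∣ y.1 := by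
    refine Nat.Coprime.dvd_of_dvd_mul_left hxc ?_
    rw [← h3]
    exact dvd_mul_right _ _
  have h5 : y.1 ∣ x.1 := by
    refine Nat.Coprime.dvd_of_dvd_mul_right hyc ?_
    rw [h3]
    exact dvd_mul_left _ _
  have h6 : x.1 = y.1 := Nat.dvd_antisymm h4 h5
  rw [h6, mul_comm] at h3
  have h7 : y.2 = x.2 := Nat.eq_of_mul_eq_mul_right hy1 h3
  exact Prod.ext h6 h7.symm

end AbcRad
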