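import Pool.Agent.Work.MP_a793bb_nt.Rad.XiBasic

/-!
# The size of `ξ` in the archimedean case

Proof. `log (xiN / xiD) = ∑ f_p log p` over `p ∣ x.1 x.2` (`f_p = fr n (ev x p)`,
`f^+ - f^- = f`), `log (x.1 / x.2) = ∑ (ev x p) log p`, `ev x p = n f_p + g_p`, so
`n log (xiN / xiD) = log (x.1 / x.2) - ∑ g_p log p`. By `gr_abs`
`|∑ g_p log p| ≤ (n / 2) log (rad (x.1 x.2)) ≤ (n / 2) log R`, and `|x.1 / x.2 - 1| ≤ exp (-2) ≤ 1 / 2`
gives `|log (x.1 / x.2)| ≤ 1` (`log (1/2) > -1`, `log (3/2) < 1`). Divide by `n ≥ 1`.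
-/

set_option autoImplicit false

namespace AbcRad

open Finset

theorem xi_range (δ κ R Q : ℝ) (n : ℕ) (hn : 1 ≤ n) (hR : 2 ≤ R) (hQ : 4 ≤ Q) (x : ℕ × ℕ)
    (hx : Base δ κ R Q n x) (hc : |(x.1 : ℝ) / x.2 - 1| ≤ Real.exp (-(Q / 2))) :
    |Real.log ((xiN n x : ℝ) / xiD n x)| ≤ Real.log R + 1 := by
  have hn1 : (1 : ℝ) ≤ n := by exact_mod_cast hn
  have hpr : ∀ q ∈ (x.1 * x.2).primeFactors, q.Prime := fun _ hq =>
    Nat.prime_of_mem_primeFactors hq
  have hlog : ∀ a : ℕ → ℕ, Real.log ((∏ q ∈ (x.1 * x.2).primeFactors, q ^ a q : ℕ) : ℝ) =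
      ∑ q ∈ (x.1 * x.2).primeFactors, (a q : ℝ) * Real.log q := by
    intro a
    push_cast
    rw [Real.log_prod fun q hq => by
      have := (hpr q hq).pos
      positivity]
    refine sum_congr rfl fun q _ => ?_
    rw [Real.log_pow]
  have hx1 := hx.pos1
  have hx2 := hx.pos2
  have hN : (0 : ℝ) < xiN n x := by exact_mod_cast xiN_pos n x
  have hD : (0 : ℝ) < xiD n x := by exact_mod_cast xiD_pos n x
  have e1 : Real.log (xiN n x) = ∑ p ∈ (x.1 * x.2).primeFactors,
      (((fr n (ev x p)).toNat : ℕ) : ℝ) * Real.log p := hlog _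
  have e2 : Real.log (xiD n x) = ∑ p ∈ (x.1 * x.2).primeFactors,
      (((-(fr n (ev x p))).toNat : ℕ) : ℝ) * Real.log p := hlog _
  have e3 : Real.log x.1 = ∑ p ∈ (x.1 * x.2).primeFactors,
      (x.1.factorization p : ℝ) * Real.log p := by
    have h3 := Real.log_nat_eq_sum_factorization x.1
    rw [h3]
    unfold Finsupp.sum
    rw [Nat.support_factorization]
    refine sum_subset (Nat.primeFactors_mono (dvd_mul_right _ _) (by positivity)) ?_
    intro p _ hp
    rw [← Nat.support_factorization, Finsupp.notMem_support_iff] at hp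
    rw [hp]
    simp
  have e4 : Real.log x.2 = ∑ p ∈ (x.1 * x.2).primeFactors,
      (x.2.factorization p : ℝ) * Real.log p := by
    have h3 := Real.log_nat_eq_sum_factorization x.2
    rw [h3]
    unfold Finsupp.sum
    rw [Nat.support_factorization]
    refine sum_subset (Nat.primeFactors_mono (dvd_mul_left _ _) (by positivity)) ?_
    intro p _ hp
    rw [← Nat.support_factorization, Finsupp.notMem_support_iff] at hp
    rw [hp]
    simp
  have hmain : (n : ℝ) * (Real.log (xiN n x) - Real.log (xiD n x)) =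
      (Real.log x.1 - Real.log x.2) -
        ∑ p ∈ (x.1 * x.2).primeFactors, ((gr n (ev x p) : ℤ) : ℝ) * Real.log p := by
    rw [e1, e2, e3, e4, ← sum_sub_distrib, ← sum_sub_distrib, ← sum_sub_distrib, mul_sum]
    refine sum_congr rfl fun p _ => ?_
    have t : (((fr n (ev x p)).toNat : ℕ) : ℝ) - (((-(fr n (ev x p))).toNat : ℕ) : ℝ) =
        ((fr n (ev x p) : ℤ) : ℝ) := by
      have := congrArg (fun z : ℤ => (z : ℝ)) (Int.toNat_sub_toNat_neg (fr n (ev x p)))
      push_cast at this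
      exact this
    have g : ((gr n (ev x p) : ℤ) : ℝ) = ((x.1.factorization p : ℝ) - x.2.factorization p) -
        n * ((fr n (ev x p) : ℤ) : ℝ) := by
      unfold gr
      push_cast
      unfold ev
      push_cast
      ring
    rw [g, ← t]
    ring
  have hsum : |∑ p ∈ (x.1 * x.2).primeFactors, ((gr n (ev x p) : ℤ) : ℝ) * Real.log p| ≤
      n / 2 * Real.log R := by
    have h0 : 0 < rad (x.1 * x.2) :=
      prod_pos fun _ hp => (Nat.prime_of_mem_primeFactors hp).pos
    have hr : Real.log (rad (x.1 * x.2)) = ∑ p ∈ (x.1 * x.2).primeFactors, Real.log p := by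
      unfold rad
      push_cast
      exact Real.log_prod fun q hq => by
        have := (hpr q hq).pos
        positivity
    have h1 : Real.log (rad (x.1 * x.2)) ≤ Real.log R :=
      Real.log_le_log (by exact_mod_cast h0) hx.hrad
    refine (abs_sum_le_sum_abs _ _).trans ?_
    calc ∑ p ∈ (x.1 * x.2).primeFactors, |((gr n (ev x p) : ℤ) : ℝ) * Real.log p| ≤
        ∑ p ∈ (x.1 * x.2).primeFactors, (n : ℝ) / 2 * Real.log p := by
          refine sum_le_sum fun p _ => ?_
          rw [abs_mul, abs_of_nonneg (Real.log_natCast_nonneg p)]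
          refine mul_le_mul_of_nonneg_right ?_ (Real.log_natCast_nonneg p)
          have h2 := gr_abs n hn (ev x p)
          have h3 : 2 * |((gr n (ev x p) : ℤ) : ℝ)| ≤ n := by exact_mod_cast h2
          linarith
      _ = (n : ℝ) / 2 * Real.log (rad (x.1 * x.2)) := by rw [hr, mul_sum]
      _ ≤ _ := mul_le_mul_of_nonneg_left h1 (by positivity)
  have hu : |Real.log x.1 - Real.log x.2| ≤ 1 := by
    have hx1' : (0 : ℝ) < x.1 := by exact_mod_cast hx1
    have hx2' : (0 : ℝ) < x.2 := by exact_mod_cast hx2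
    rw [← Real.log_div hx1'.ne' hx2'.ne']
    have h1 : Real.exp (-(Q / 2)) ≤ 1 / 2 := by
      have h2 : Real.exp (-(Q / 2)) ≤ Real.exp (-1) := by
        rw [Real.exp_le_exp]
        linarith
      have h3 : Real.exp (-1) ≤ 1 / 2 := by
        rw [Real.exp_neg, inv_le_comm₀ (Real.exp_pos 1) (by norm_num)]
        have := Real.exp_one_gt_d9
        norm_num
        linarith
      linarith
    have h2 := abs_le.1 (hc.trans h1)
    have h3 : (1 : ℝ) / 2 ≤ (x.1 : ℝ) / x.2 := by linarith
    have h4 : (x.1 : ℝ) / x.2 ≤ 2 := by linarith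
    have h5 : 0 < (x.1 : ℝ) / x.2 := by positivity
    have l2 := Real.log_two_lt_d9
    rw [abs_le]
    constructor
    · have h6 := Real.log_le_log (by norm_num : (0 : ℝ) < 1 / 2) h3
      rw [one_div, Real.log_inv] at h6
      linarith
    · have h6 := Real.log_le_log h5 h4
      linarith
  rw [Real.log_div hN.ne' hD.ne']
  set L := Real.log (xiN n x) - Real.log (xiD n x) with hL
  have hR0 : 0 ≤ Real.log R := Real.log_nonneg (by linarith)
  have h1 : |(n : ℝ) * L| ≤ 1 + n / 2 * Real.log R := by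
    rw [hmain]
    exact (abs_sub _ _).trans (add_le_add hu hsum)
  rw [abs_mul, abs_of_nonneg (by linarith : (0 : ℝ) ≤ n)] at h1
  have h2 : (n : ℝ) * |L| ≤ n * (Real.log R + 1) := by nlinarith
  exact le_of_mul_le_mul_left h2 (by linarith)

end AbcRad
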