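import Pool.Agent.Work.MP_a793bb_nt.Rad.CellR
import Pool.Agent.Work.MP_a793bb_nt.Rad.Cost
import Pool.Agent.Work.MP_a793bb_nt.Rad.XiRange
import Pool.Agent.Work.MP_a793bb_nt.Rad.CountP

/-!
# Counting the solutions in archimedean cells

Proof. As in `count_P`, with the label
`(D x, ⌊2 R ^ δ log (xiN / xiD)⌋, φ x restricted to (D x).primeFactors)`, which determines `x` by
`cellR_unique`. `1 ≤ D x ≤ ⌊Y⌋₊`; the floor is an integer between `-V - 1` and `V`,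
`V = 2 R ^ δ (log R + 1)` (`xi_range`), so it takes at most `2 V + 2 = 4 R ^ δ (log R + 1) + 2`
values; `φ` takes at most `(2 c + 1) ^ ω(D)` values (`phi_range`).
(`{k : ℤ | -V - 1 < k ≤ V}` is `Finset.Ioc (⌊-V-1⌋) ⌊V⌋`, of cardinality
`⌊V⌋ - ⌊-V-1⌋ < 2 V + 2`.)
-/

set_option autoImplicit false

namespace AbcRad

open Finset

theorem count_R (δ κ R Q Y : ℝ) (n I J L0 : ℕ) (hP : Par δ κ R Q n I J L0)
    (S : Finset (ℕ × ℕ)) (hS : ∀ x ∈ S, RCap δ κ R Q Y n x) :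
    (S.card : ℝ) ≤ (∑ D ∈ Icc 1 ⌊Y⌋₊, ((2 * ⌈1 / κ⌉₊ + 1 : ℕ) : ℝ) ^ (D.primeFactors.card)) *
      (4 * R ^ δ * (Real.log R + 1) + 2) := by
  classical
  have hn1 : 1 ≤ n := by
    have := hP.hJ8
    have := hP.hJn
    omega
  have hRδ : (0 : ℝ) < R ^ δ := Real.rpow_pos_of_pos (by linarith [hP.hR]) _
  have hlogR : 0 ≤ Real.log R := Real.log_nonneg (by linarith [hP.hR])
  obtain ⟨V, hV⟩ : ∃ V : ℝ, V = 2 * R ^ δ * (Real.log R + 1) := ⟨_, rfl⟩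
  have hV0 : 0 ≤ V := by
    rw [hV]
    positivity
  have hmaps : ∀ x ∈ S, smallPart (R ^ δ) (x.1 * x.2) ∈ Icc 1 ⌊Y⌋₊ := by
    intro x hx
    rw [Finset.mem_Icc]
    exact ⟨smallPart_pos _ _, Nat.le_floor (hS x hx).2.2⟩
  have hcard := Finset.card_eq_sum_card_fiberwise
    (f := fun x : ℕ × ℕ => smallPart (R ^ δ) (x.1 * x.2)) (s := S) (t := Icc 1 ⌊Y⌋₊)
    (fun x hx => hmaps x hx)
  rw [hcard]
  push_cast
  rw [Finset.sum_mul]
  refine Finset.sum_le_sum ?_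
  intro D hD
  have hle : (S.filter (fun x : ℕ × ℕ => smallPart (R ^ δ) (x.1 * x.2) = D)).card ≤
      (Ioc ⌊-V - 1⌋ ⌊V⌋ ×ˢ (D.primeFactors.pi
        (fun _ => Icc (-(⌈1 / κ⌉₊ : ℤ)) (⌈1 / κ⌉₊ : ℤ)))).card := by
    refine Finset.card_le_card_of_injOn
      (fun x => (⌊2 * R ^ δ * Real.log ((xiN n x : ℝ) / xiD n x)⌋,
        fun p (_ : p ∈ D.primeFactors) => ⌊(gr n (ev x p) : ℝ) / (κ * n)⌋))
      ?_ ?_
    · intro x hx
      rw [Finset.mem_coe, Finset.mem_filter] at hx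
      obtain ⟨hxS, hxq⟩ := hx
      rw [Finset.mem_coe, Finset.mem_product]
      refine ⟨?_, ?_⟩
      · have hxi := xi_range δ κ R Q n hn1 hP.hR hP.hQ x (hS x hxS).1 (hS x hxS).2.1
        have hb : |2 * R ^ δ * Real.log ((xiN n x : ℝ) / xiD n x)| ≤ V := by
          rw [abs_mul, abs_of_pos (by positivity : (0 : ℝ) < 2 * R ^ δ), hV]
          exact mul_le_mul_of_nonneg_left hxi (by positivity)
        rw [abs_le] at hb
        rw [Finset.mem_Ioc]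
        constructor
        · have h1 : (⌊-V - 1⌋ : ℝ) ≤ -V - 1 := Int.floor_le _
          have h2 := Int.lt_floor_add_one (2 * R ^ δ * Real.log ((xiN n x : ℝ) / xiD n x))
          have h3 : (⌊-V - 1⌋ : ℝ) <
              (⌊2 * R ^ δ * Real.log ((xiN n x : ℝ) / xiD n x)⌋ : ℝ) := by
            linarith [hb.1]
          exact_mod_cast h3
        · exact Int.floor_le_floor hb.2
      · rw [Finset.mem_pi]
        intro p hp
        exact phi_range κ hP.hκ n hn1 _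
    · intro x hx y hy hxy
      rw [Finset.mem_coe, Finset.mem_filter] at hx hy
      obtain ⟨hxS, hxq⟩ := hx
      obtain ⟨hyS, hyq⟩ := hy
      simp only [Prod.mk.injEq] at hxy
      obtain ⟨hv, hf⟩ := hxy
      refine cellR_unique δ κ R Q n I J L0 hP x y (hS x hxS).1 (hS y hyS).1
        (by rw [hxq, hyq]) ?_ (hS x hxS).2.1 (hS y hyS).2.1 hv
      intro p hp
      rw [hxq] at hp
      exact congrFun (congrFun hf p) hp
  have hc2 : ((Ioc ⌊-V - 1⌋ ⌊V⌋ ×ˢ (D.primeFactors.pi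
        (fun _ => Icc (-(⌈1 / κ⌉₊ : ℤ)) (⌈1 / κ⌉₊ : ℤ)))).card : ℝ) ≤
      ((2 * ⌈1 / κ⌉₊ + 1 : ℕ) : ℝ) ^ (D.primeFactors.card) *
        (4 * R ^ δ * (Real.log R + 1) + 2) := by
    rw [Finset.card_product, Finset.card_pi, Finset.prod_const, Int.card_Icc, Int.card_Ioc]
    have h1 : ((⌈1 / κ⌉₊ : ℤ) + 1 - -(⌈1 / κ⌉₊ : ℤ)).toNat = 2 * ⌈1 / κ⌉₊ + 1 := by omega
    have h2 : (((⌊V⌋ - ⌊-V - 1⌋).toNat : ℕ) : ℝ) ≤ 4 * R ^ δ * (Real.log R + 1) + 2 := by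
      have h3 : ⌊-V - 1⌋ ≤ ⌊V⌋ := Int.floor_le_floor (by linarith)
      have h4 : (((⌊V⌋ - ⌊-V - 1⌋).toNat : ℤ) : ℝ) = (⌊V⌋ : ℝ) - (⌊-V - 1⌋ : ℝ) := by
        rw [Int.toNat_of_nonneg (by omega)]
        push_cast
        ring
      have h5 : (((⌊V⌋ - ⌊-V - 1⌋).toNat : ℕ) : ℝ) = (⌊V⌋ : ℝ) - (⌊-V - 1⌋ : ℝ) := by
        rw [← h4]
        norm_cast
      have h6 : (⌊V⌋ : ℝ) ≤ V := Int.floor_le _
      have h7 : -V - 1 < (⌊-V - 1⌋ : ℝ) + 1 := Int.lt_floor_add_one _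
      rw [h5]
      linarith
    rw [h1]
    push_cast
    rw [mul_comm]
    refine mul_le_mul_of_nonneg_left h2 (by positivity)
  have hc3 := le_trans (Nat.cast_le (α := ℝ).mpr hle) hc2
  exact_mod_cast hc3

end AbcRad
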