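import Pool.Agent.Work.MP_a793bb_nt.Rad.Defs

/-!
# A power dividing a long side

Proof. Let `ℓ = log R > 0` and `z = ∏ p ^ (a p)` (`a = z.factorization`), so
`∑ a p log p = log z ≥ Q / 2`, and `∑ log p = log (rad z) ≤ ℓ` over the primes `p ∣ z`.
Case 1: some prime `p > R ^ δ` has `a p ≥ L0`. Take `M = p`.
Case 2: not. Then `∑_{p > R ^ δ} a p log p ≤ L0 ∑ log p ≤ L0 ℓ ≤ δ Q / 8`. Let
`W = ∏_{p ≤ R ^ δ} p ^ (a p / L0)` (natural division). `W ^ L0 ∣ z`, and
`log W ≥ ∑_{p ≤ R ^ δ} (a p / L0 - 1) log p ≥ (Q / 2 - δ Q / 8) / L0 - ℓ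
 ≥ (Q / 2 - δ Q / 8) * 8 ℓ / (δ Q) - ℓ = 4 ℓ / δ - ℓ - ℓ ≥ δ ℓ` (`L0 ≤ δ Q / (8 ℓ)`, `δ ≤ 1 / 10`;
use `a / L0 ≥ a/L0 - 1` for the natural division).
So `W ≥ R ^ δ`; every prime factor of `W` is at most `R ^ δ`. A minimal divisor `M` of `W` with
`M ≥ R ^ δ` satisfies `M ≤ R ^ (2 δ)`: if `M = 1` this is clear; otherwise remove one prime `q ∣ M`: `M / q < R ^ δ`
(minimality), so `M < q R ^ δ ≤ R ^ (2 δ)`. And `M ^ L0 ∣ W ^ L0 ∣ z`.
-/

set_option autoImplicit false

namespace AbcRad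

open Finset in
theorem log_eq_sum (z : ℕ) :
    Real.log z = ∑ p ∈ z.primeFactors, (z.factorization p : ℝ) * Real.log p := by
  rw [Real.log_nat_eq_sum_factorization, Finsupp.sum]
  rfl

open Finset in
theorem log_rad_eq (z : ℕ) : Real.log (rad z) = ∑ p ∈ z.primeFactors, Real.log p := by
  unfold rad
  push_cast
  rw [Real.log_prod]
  intro p hp
  have := (Nat.prime_of_mem_primeFactors hp).pos
  positivity

open Finset Classical in
theorem side_type (δ R Q : ℝ) (hδ : 0 < δ) (hδ1 : δ ≤ 1 / 10) (hR : 2 ≤ R) (hQ : 0 < Q)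
    (L0 : ℕ) (hL0 : 1 ≤ L0) (hL : (L0 : ℝ) * Real.log R ≤ δ * Q / 8) (z : ℕ) (hz : 0 < z)
    (hzQ : Q / 2 ≤ Real.log z) (hr : (rad z : ℝ) ≤ R) :
    ∃ M : ℕ, R ^ δ ≤ (M : ℝ) ∧ M ^ L0 ∣ z ∧
      ((M : ℝ) ≤ R ^ (2 * δ) ∨ (M.Prime ∧ R ^ δ < (M : ℝ) ∧ M ∣ z)) := by
  have hR0 : 0 < R := by linarith
  have hℓ : 0 < Real.log R := Real.log_pos (by linarith)
  by_cases hcase : ∃ p ∈ z.primeFactors, R ^ δ < (p : ℝ) ∧ L0 ≤ z.factorization p
  · obtain ⟨p, hp, hpR, hpL⟩ := hcase
    have hpp := Nat.prime_of_mem_primeFactors hp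
    exact ⟨p, hpR.le, (hpp.pow_dvd_iff_le_factorization hz.ne').2 hpL,
      Or.inr ⟨hpp, hpR, Nat.dvd_of_mem_primeFactors hp⟩⟩
  push Not at hcase
  set S := z.primeFactors with hS
  set A := S.filter (fun p : ℕ => (p : ℝ) ≤ R ^ δ) with hA
  set W : ℕ := ∏ p ∈ A, p ^ (z.factorization p / L0) with hW
  have hWpos : 0 < W := Finset.prod_pos fun p hp =>
    pow_pos (Nat.prime_of_mem_primeFactors (Finset.mem_filter.1 hp).1).pos _
  have hL0R : (0 : ℝ) < L0 := by exact_mod_cast hL0
  have hWz : W ^ L0 ∣ z := by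
    have h1 : W ^ L0 = ∏ p ∈ A, p ^ (z.factorization p / L0 * L0) := by
      rw [hW, ← Finset.prod_pow]
      exact Finset.prod_congr rfl fun p _ => by rw [← pow_mul]
    have h2 : ∏ p ∈ S, p ^ z.factorization p = z := by
      have := Nat.prod_factorization_pow_eq_self hz.ne'
      rwa [Finsupp.prod] at this
    rw [h1]
    calc ∏ p ∈ A, p ^ (z.factorization p / L0 * L0) ∣ ∏ p ∈ A, p ^ z.factorization p :=
          Finset.prod_dvd_prod_of_dvd _ _ fun p _ => pow_dvd_pow p (Nat.div_mul_le_self _ _)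
      _ ∣ ∏ p ∈ S, p ^ z.factorization p :=
          Finset.prod_dvd_prod_of_subset _ _ _ (Finset.filter_subset _ _)
      _ = z := h2
  have hlogW : Real.log W = ∑ p ∈ A, ((z.factorization p / L0 : ℕ) : ℝ) * Real.log p := by
    rw [hW]
    push_cast
    rw [Real.log_prod]
    · exact Finset.sum_congr rfl fun p _ => by rw [Real.log_pow]
    · intro p hp
      have := (Nat.prime_of_mem_primeFactors (Finset.mem_filter.1 hp).1).pos
      positivity
  have hlp : ∀ p ∈ S, 0 ≤ Real.log p := fun p hp =>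
    Real.log_nonneg (by exact_mod_cast (Nat.prime_of_mem_primeFactors hp).one_le)
  have hsum : Q / 2 ≤ L0 * Real.log W + L0 * Real.log R := by
    calc Q / 2 ≤ Real.log z := hzQ
      _ = ∑ p ∈ S, (z.factorization p : ℝ) * Real.log p := log_eq_sum z
      _ ≤ ∑ p ∈ S, (L0 * (if (p : ℝ) ≤ R ^ δ then
            ((z.factorization p / L0 : ℕ) : ℝ) * Real.log p else 0) + L0 * Real.log p) := by
          refine Finset.sum_le_sum fun p hp => ?_
          have h0 := hlp p hp
          split_ifs with hps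
          · have h1 : (z.factorization p : ℝ) ≤
                L0 * ((z.factorization p / L0 : ℕ) : ℝ) + L0 := by
              have := Nat.lt_mul_div_succ (z.factorization p) (show 0 < L0 from hL0)
              have h2 : z.factorization p ≤ L0 * (z.factorization p / L0 + 1) := this.le
              have h3 : (z.factorization p : ℝ) ≤
                L0 * (((z.factorization p / L0 : ℕ) : ℝ) + 1) := by exact_mod_cast h2
              linarith
            calc (z.factorization p : ℝ) * Real.log p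
                ≤ (L0 * ((z.factorization p / L0 : ℕ) : ℝ) + L0) * Real.log p := by gcongr
              _ = _ := by ring
          · have h1 : z.factorization p < L0 := hcase p hp (not_le.1 hps)
            have h2 : (z.factorization p : ℝ) ≤ L0 := by exact_mod_cast h1.le
            have : (z.factorization p : ℝ) * Real.log p ≤ L0 * Real.log p := by gcongr
            linarith
      _ = L0 * Real.log W + L0 * Real.log (rad z) := by
          rw [Finset.sum_add_distrib, ← Finset.mul_sum, ← Finset.mul_sum, hlogW, log_rad_eq,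
            hA, Finset.sum_filter]
      _ ≤ L0 * Real.log W + L0 * Real.log R := by
          have hrp : (0 : ℝ) < rad z := by
            have : 0 < rad z := Finset.prod_pos fun p hp =>
              (Nat.prime_of_mem_primeFactors hp).pos
            exact_mod_cast this
          have := Real.log_le_log hrp hr
          gcongr
  have hlW : δ * Real.log R ≤ Real.log W := by
    have h1 : 8 * (L0 * Real.log R) ≤ δ * Q := by linarith
    have h2 : 8 * (L0 * Real.log R) ≤ 1 / 10 * Q := le_trans h1 (by gcongr)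
    have h3 : L0 * (δ * Real.log R) ≤ L0 * Real.log W := by
      have h4 : L0 * (δ * Real.log R) ≤ L0 * Real.log R := by
        have : δ * Real.log R ≤ 1 * Real.log R := by gcongr; linarith
        have h5 : (L0 : ℝ) * (δ * Real.log R) ≤ L0 * (1 * Real.log R) := by gcongr
        linarith
      have h6 : 0 < L0 * Real.log R := by positivity
      linarith
    exact le_of_mul_le_mul_left h3 hL0R
  have hWR : R ^ δ ≤ (W : ℝ) := by
    rw [Real.rpow_def_of_pos hR0, ← Real.exp_log (show (0 : ℝ) < W by exact_mod_cast hWpos)]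
    apply Real.exp_le_exp.2
    linarith
  -- the minimal divisor
  have hne : (W.divisors.filter (fun m : ℕ => R ^ δ ≤ (m : ℝ))).Nonempty :=
    ⟨W, Finset.mem_filter.2 ⟨Nat.mem_divisors_self W hWpos.ne', hWR⟩⟩
  obtain ⟨M, hM, hmin⟩ := Finset.exists_min_image _ (fun m : ℕ => m) hne
  rw [Finset.mem_filter, Nat.mem_divisors] at hM
  obtain ⟨⟨hMW, -⟩, hMR⟩ := hM
  refine ⟨M, hMR, (pow_dvd_pow_of_dvd hMW L0).trans hWz, Or.inl ?_⟩
  have hRδ1 : 1 < R ^ δ := Real.one_lt_rpow (by linarith) hδ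
  have hM1 : M ≠ 1 := by
    rintro rfl
    norm_num at hMR
    linarith
  have hMpos : 0 < M := Nat.pos_of_dvd_of_pos hMW hWpos
  set q := M.minFac with hq
  have hqp : q.Prime := Nat.minFac_prime hM1
  have hqM : q ∣ M := Nat.minFac_dvd M
  obtain ⟨m, hm⟩ := hqM
  have hmW : m ∣ W := (Dvd.intro_left q hm.symm).trans hMW
  have hm0 : 0 < m := by
    rcases Nat.eq_zero_or_pos m with h | h
    · rw [h] at hm; omega
    · exact h
  have hmlt : (m : ℝ) < R ^ δ := by
    by_contra hcon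
    have h1 := hmin m (Finset.mem_filter.2 ⟨Nat.mem_divisors.2 ⟨hmW, hWpos.ne'⟩, not_lt.1 hcon⟩)
    have h2 := hqp.two_le
    have : M ≤ m := h1
    rw [hm] at this
    nlinarith
  have hqR : (q : ℝ) ≤ R ^ δ := by
    have h1 : q ∣ W := (Dvd.intro m hm.symm).trans hMW
    rw [hW, (Nat.Prime.prime hqp).dvd_finsetProd_iff] at h1
    obtain ⟨p, hp, hqp'⟩ := h1
    have hpp := Nat.prime_of_mem_primeFactors (Finset.mem_filter.1 hp).1
    have h2 : q = p := (Nat.prime_dvd_prime_iff_eq hqp hpp).1 (hqp.dvd_of_dvd_pow hqp')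
    rw [h2]
    exact (Finset.mem_filter.1 hp).2
  calc (M : ℝ) = q * m := by rw [hm]; push_cast; rfl
    _ ≤ R ^ δ * R ^ δ := by gcongr
    _ = R ^ (2 * δ) := by rw [← Real.rpow_add hR0]; ring_nf

end AbcRad
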