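import Pool.Agent.Work.MP_a793bb_nt.Rad.BaseEx
import Pool.Agent.Work.MP_a793bb_nt.Rad.SideType
import Pool.Agent.Work.MP_a793bb_nt.Rad.Cost

/-!
# Every solution in the window lies in a cheap cell

Proof. Let `c = a + b`, `ℓ = log R`, `L0 = LL δ R Q` (so `L0 ℓ ≤ δ Q / 8`), `a ≤ b`. `a, b, c` are
pairwise coprime and `rad a rad b rad c = rad (a b c) ≤ R`.
`log c > Q`, `b ≥ c / 2`, so `log b ≥ Q - log 2 ≥ Q / 2` (`Q ≥ 2`), `log c ≥ Q / 2`.
Take `Mb` for `z = b` and `Mc` for `z = c` from `side_type`. If `log a ≥ Q / 2` take `Ma` for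
`z = a` from `side_type`, otherwise put `Ma = 1 ≤ R ^ (2 δ)`. By `side_cost` (three times) and
`three_costs` (`sa = smallPart (R ^ δ) a`, etc., `ra = rad a`, etc.) one of the following holds:
* `smallPart (a c) * Mb ^ 2 ≤ Y`: then `PCap ... 1 (a, c)`: `Mb ^ L0 ∣ b`, `a - 1 * c = - b`,
  `Mb` is coprime to `a c` because `Mb ∣ b` (`L0 ≥ 1`) and `b` is coprime to `a c`;
* `smallPart (a b) * Mc ^ 2 ≤ Y`: then `PCap ... (-1) (a, b)`: `a - (-1) * b = c`;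
* `smallPart (b c) * Ma ^ 2 ≤ Y`: if `log a ≥ Q / 2` then `PCap ... 1 (b, c)`: `b - c = - a`;
  if `log a < Q / 2` then `Ma = 1` and `RCap ... (b, c)`: `|b / c - 1| = a / c ≤ exp (Q / 2 - Q)`.
In each case `Base` for `n = NN R Q / h` with some `1 ≤ h ≤ KK δ` comes from `base_exists` applied
to the pair in question (both entries are at most `c ≤ exp (2 Q)`, and the radical of the product
is at most `rad (a b c) ≤ R`).
-/

set_option autoImplicit false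

namespace AbcRad

private theorem cover_P (δ R Q : ℝ) (hδ : 0 < δ) (hδ1 : δ ≤ 1 / 10) (hR : 2 ≤ R) (hQ : 4 ≤ Q)
    (hN : 2 * KK δ ≤ NN R Q)
    (hNE : 4 * (2 * (Q / Real.log R) / δ) * (KK δ : ℝ) ^ 2 ≤ kap δ * (NN R Q : ℝ) ^ 2)
    (hL : 1 ≤ LL δ R Q) {u v z M : ℕ} (s : ℤ) {Y : ℝ} (hu : 0 < u) (hv : 0 < v)
    (huv : Nat.Coprime u v) (hzu : Nat.Coprime z u) (hzv : Nat.Coprime z v)
    (hz : (z : ℤ) ∣ (u : ℤ) - s * v) (hM : R ^ δ ≤ (M : ℝ)) (hMz : M ^ (LL δ R Q) ∣ z)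
    (hlu : Real.log u ≤ 2 * Q) (hlv : Real.log v ≤ 2 * Q) (hrad : (rad (u * v) : ℝ) ≤ R)
    (hcost : (smallPart (R ^ δ) u : ℝ) * smallPart (R ^ δ) v * (M : ℝ) ^ 2 ≤ Y) :
    ∃ h : ℕ, 1 ≤ h ∧ h ≤ KK δ ∧
      PCap δ (kap δ) R Q Y (NN R Q / h) (LL δ R Q) s (u, v) := by
  obtain ⟨h, h1, hK, hB⟩ := base_exists δ R Q hδ hδ1 hR (by linarith) hN hNE (u, v) hu hv huv
    hlu hlv hrad
  refine ⟨h, h1, hK, hB, M, hM, ?_, ?_, ?_⟩
  · have e1 : M ∣ z := (dvd_pow_self M (by omega)).trans hMz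
    exact Nat.Coprime.coprime_dvd_left e1 (Nat.Coprime.mul_right hzu hzv)
  · refine Dvd.dvd.trans ?_ hz
    exact_mod_cast hMz
  · show (smallPart (R ^ δ) (u * v) : ℝ) * (M : ℝ) ^ 2 ≤ Y
    rw [smallPart_mul _ _ _ huv]
    push_cast
    exact hcost

theorem cover (δ R Q : ℝ) (hδ : 0 < δ) (hδ1 : δ ≤ 1 / 10) (hR : 2 ≤ R) (hQ : 4 ≤ Q)
    (hN : 2 * KK δ ≤ NN R Q)
    (hNE : 4 * (2 * (Q / Real.log R) / δ) * (KK δ : ℝ) ^ 2 ≤ kap δ * (NN R Q : ℝ) ^ 2)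
    (hL : 1 ≤ LL δ R Q) (a b : ℕ) (hab : (a, b) ∈ wset R Q) (hle : a ≤ b) :
    ∃ h : ℕ, 1 ≤ h ∧ h ≤ KK δ ∧
      (PCap δ (kap δ) R Q (R ^ (2 / 3 + 4 * δ)) (NN R Q / h) (LL δ R Q) 1 (a, a + b) ∨
       PCap δ (kap δ) R Q (R ^ (2 / 3 + 4 * δ)) (NN R Q / h) (LL δ R Q) (-1) (a, b) ∨
       PCap δ (kap δ) R Q (R ^ (2 / 3 + 4 * δ)) (NN R Q / h) (LL δ R Q) 1 (b, a + b) ∨
       RCap δ (kap δ) R Q (R ^ (2 / 3 + 4 * δ)) (NN R Q / h) (b, a + b)) := by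
  obtain ⟨ha, hb, hcop, hr, hQl, hQu⟩ := hab
  simp only at ha hb hcop hr hQl hQu
  have hR0 : (0 : ℝ) < R := by linarith
  have hR1 : (1 : ℝ) ≤ R := by linarith
  have hlR : 0 < Real.log R := Real.log_pos (by linarith)
  have hQ0 : 0 < Q := by linarith
  have hac : Nat.Coprime a (a + b) := by simpa using hcop
  have hbc : Nat.Coprime b (a + b) := by simpa using hcop.symm
  have ha0 : (0 : ℝ) < a := by exact_mod_cast ha
  have hb0 : (0 : ℝ) < b := by exact_mod_cast hb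
  have hc0 : (0 : ℝ) < ((a + b : ℕ) : ℝ) := by exact_mod_cast (by omega : 0 < a + b)
  have hcp : 0 < a + b := by omega
  -- radicals
  have r1 : (1 : ℝ) ≤ rad a := by exact_mod_cast rad_pos a
  have r2 : (1 : ℝ) ≤ rad b := by exact_mod_cast rad_pos b
  have r3 : (1 : ℝ) ≤ rad (a + b) := by exact_mod_cast rad_pos (a + b)
  have hr' : (rad a : ℝ) * rad b * rad (a + b) ≤ R := by
    rw [rad_mul _ _ (Nat.Coprime.mul_left hac hbc), rad_mul _ _ hcop] at hr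
    push_cast at hr
    exact hr
  have hrab : (rad (a * b) : ℝ) ≤ R := by
    rw [rad_mul _ _ hcop]
    push_cast
    nlinarith [mul_le_mul r1 r2 zero_le_one (by linarith : (0 : ℝ) ≤ rad a)]
  have hrac : (rad (a * (a + b)) : ℝ) ≤ R := by
    rw [rad_mul _ _ hac]
    push_cast
    have e1 : 0 ≤ (rad a : ℝ) * rad (a + b) := by positivity
    nlinarith [mul_nonneg e1 (by linarith : (0 : ℝ) ≤ rad b - 1)]
  have hrbc : (rad (b * (a + b)) : ℝ) ≤ R := by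
    rw [rad_mul _ _ hbc]
    push_cast
    have e1 : 0 ≤ (rad b : ℝ) * rad (a + b) := by positivity
    nlinarith [mul_nonneg e1 (by linarith : (0 : ℝ) ≤ rad a - 1)]
  have hra : (rad a : ℝ) ≤ R := by
    rw [rad_mul _ _ hcop] at hrab
    push_cast at hrab
    nlinarith
  have hrb : (rad b : ℝ) ≤ R := by
    rw [rad_mul _ _ hcop] at hrab
    push_cast at hrab
    nlinarith
  have hrc : (rad (a + b) : ℝ) ≤ R := by
    rw [rad_mul _ _ hbc] at hrbc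
    push_cast at hrbc
    nlinarith
  -- logarithms
  have hlc : Real.log ((a + b : ℕ) : ℝ) ≤ 2 * Q := hQu
  have hla : Real.log a ≤ 2 * Q :=
    (Real.log_le_log ha0 (by push_cast; linarith)).trans hlc
  have hlb : Real.log b ≤ 2 * Q :=
    (Real.log_le_log hb0 (by push_cast; linarith)).trans hlc
  have hcQ : Q / 2 ≤ Real.log ((a + b : ℕ) : ℝ) := by linarith
  have hbQ : Q / 2 ≤ Real.log b := by
    have e1 : Real.log ((a + b : ℕ) : ℝ) ≤ Real.log (2 * b) := by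
      apply Real.log_le_log hc0
      push_cast
      have : (a : ℝ) ≤ b := by exact_mod_cast hle
      linarith
    rw [Real.log_mul (by norm_num) hb0.ne'] at e1
    have e2 := Real.log_two_lt_d9
    linarith
  have hLL : (LL δ R Q : ℝ) * Real.log R ≤ δ * Q / 8 := by
    have e1 : (LL δ R Q : ℝ) ≤ δ * (Q / Real.log R) / 8 := by
      unfold LL
      exact Nat.floor_le (by positivity)
    have e2 := mul_le_mul_of_nonneg_right e1 hlR.le
    refine e2.trans (le_of_eq ?_)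
    field_simp
  -- the three divisors
  obtain ⟨Mb, hMb1, hMb2, hMb3⟩ := side_type δ R Q hδ hδ1 hR hQ0 _ hL hLL b hb hbQ hrb
  obtain ⟨Mc, hMc1, hMc2, hMc3⟩ := side_type δ R Q hδ hδ1 hR hQ0 _ hL hLL (a + b) hcp hcQ hrc
  obtain ⟨Ma, hMa3, hMa⟩ : ∃ Ma : ℕ,
      ((Ma : ℝ) ≤ R ^ (2 * δ) ∨ (Ma.Prime ∧ R ^ δ < (Ma : ℝ) ∧ Ma ∣ a)) ∧
      ((R ^ δ ≤ (Ma : ℝ) ∧ Ma ^ (LL δ R Q) ∣ a) ∨ (Ma = 1 ∧ Real.log a < Q / 2)) := by
    by_cases haQ : Q / 2 ≤ Real.log a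
    · obtain ⟨Ma, h1, h2, h3⟩ := side_type δ R Q hδ hδ1 hR hQ0 _ hL hLL a ha haQ hra
      exact ⟨Ma, h3, Or.inl ⟨h1, h2⟩⟩
    · refine ⟨1, Or.inl ?_, Or.inr ⟨rfl, not_le.1 haQ⟩⟩
      push_cast
      exact Real.one_le_rpow hR1 (by positivity)
  have ca := side_cost δ R hδ hR a Ma ha hMa3
  have cb := side_cost δ R hδ hR b Mb hb hMb3
  have cc := side_cost δ R hδ hR (a + b) Mc hcp hMc3
  have s1 : (1 : ℝ) ≤ smallPart (R ^ δ) a := by exact_mod_cast smallPart_pos _ a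
  have s2 : (1 : ℝ) ≤ smallPart (R ^ δ) b := by exact_mod_cast smallPart_pos _ b
  have s3 : (1 : ℝ) ≤ smallPart (R ^ δ) (a + b) := by exact_mod_cast smallPart_pos _ (a + b)
  rcases three_costs δ R hδ hR _ _ _ (Ma : ℝ) (Mb : ℝ) (Mc : ℝ) _ _ _ s1 s2 s3 (by positivity)
    (by positivity) (by positivity) r1 r2 r3 ca cb cc hr' with h | h | h
  · obtain ⟨k, h1, hK, hP⟩ := cover_P δ R Q hδ hδ1 hR hQ hN hNE hL (u := a) (v := a + b) (z := b)
      (M := Mb) 1 ha hcp hac hcop.symm hbc ⟨-1, by push_cast; ring⟩ hMb1 hMb2 hla hlc hrac h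
    exact ⟨k, h1, hK, Or.inl hP⟩
  · obtain ⟨k, h1, hK, hP⟩ := cover_P δ R Q hδ hδ1 hR hQ hN hNE hL (u := a) (v := b) (z := a + b)
      (M := Mc) (-1) ha hb hcop hac.symm hbc.symm ⟨1, by push_cast; ring⟩ hMc1 hMc2 hla hlb hrab h
    exact ⟨k, h1, hK, Or.inr (Or.inl hP)⟩
  · rcases hMa with ⟨hM1, hM2⟩ | ⟨hM1, hM2⟩
    · obtain ⟨k, h1, hK, hP⟩ := cover_P δ R Q hδ hδ1 hR hQ hN hNE hL (u := b) (v := a + b) (z := a)
        (M := Ma) 1 hb hcp hbc hcop hac ⟨-1, by push_cast; ring⟩ hM1 hM2 hlb hlc hrbc h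
      exact ⟨k, h1, hK, Or.inr (Or.inr (Or.inl hP))⟩
    · obtain ⟨k, h1, hK, hB⟩ := base_exists δ R Q hδ hδ1 hR hQ0 hN hNE (b, a + b) hb hcp hbc
        hlb hlc hrbc
      refine ⟨k, h1, hK, Or.inr (Or.inr (Or.inr ⟨hB, ?_, ?_⟩))⟩
      · show |(b : ℝ) / ((a + b : ℕ) : ℝ) - 1| ≤ Real.exp (-(Q / 2))
        have e1 : (b : ℝ) / ((a + b : ℕ) : ℝ) - 1 = -((a : ℝ) / ((a + b : ℕ) : ℝ)) := by
          field_simp
          push_cast
          ring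
        rw [e1, abs_neg, abs_of_pos (by positivity)]
        have e2 : (a : ℝ) ≤ Real.exp (Q / 2) := by
          rw [← Real.log_le_iff_le_exp ha0]
          exact hM2.le
        have e3 : Real.exp Q ≤ ((a + b : ℕ) : ℝ) := by
          rw [← Real.le_log_iff_exp_le hc0]
          exact hQl.le
        rw [div_le_iff₀ hc0]
        calc (a : ℝ) ≤ Real.exp (Q / 2) := e2
          _ = Real.exp (-(Q / 2)) * Real.exp Q := by
              rw [← Real.exp_add]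
              congr 1
              ring
          _ ≤ Real.exp (-(Q / 2)) * ((a + b : ℕ) : ℝ) :=
              mul_le_mul_of_nonneg_left e3 (Real.exp_pos _).le
      · show (smallPart (R ^ δ) (b * (a + b)) : ℝ) ≤ R ^ (2 / 3 + 4 * δ)
        rw [smallPart_mul _ _ _ hbc]
        rw [hM1] at h
        push_cast at h ⊢
        linarith

end AbcRad
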