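import Mathlib

set_option autoImplicit false

/-!
# Definitions for the count of all solutions of `a + b = c` with `rad (a b c) ≤ R`

Plan of the proof (all modules in this folder):

* an auxiliary polynomial `Q_τ (y) = ∑ p_{kj} τ ^ k y ^ (n k + j)` (`k < I`, `j < J ≤ n`) with
  `(y - 1) ^ L ∣ Q_1`, `L` close to `I J` (Siegel), and a zero estimate (Wronskian);
* hence the main lemma: if `M ∣ x1 - x2` and `M ^ (I J) ∣ t1 x2 ^ n - t2 x1 ^ n ≠ 0` then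
  `M ^ (I J) ≤ ((n I 2 ^ (n I)) ^ 12 T ^ I X ^ J) ^ 2`;
* it is applied to the quotient of two solutions `x = (x1, x2)`, `y = (y1, y2)`, where the
  exponents `e_p` of `x1 / x2` are written `e_p = n f_p + g_p` with `g_p` small.
-/

namespace AbcRad

open Polynomial Finset

/-- The radical of a natural number. -/
def rad (n : ℕ) : ℕ := ∏ p ∈ n.primeFactors, p

/-- The auxiliary polynomial. -/
noncomputable def Qpol (F : Type*) [Field F] (p : ℕ → ℕ → ℤ) (n I J : ℕ) (τ : F) : F[X] :=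
  ∑ k ∈ range I, ∑ j ∈ range J, C ((p k j : F) * τ ^ k) * X ^ (n * k + j)

/-- The operator `y d/dy + e`. -/
noncomputable def thetaE {F : Type*} [Field F] (e : ℕ) (f : F[X]) : F[X] :=
  X * derivative f + C (e : F) * f

/-- The `l`-th Taylor coefficient of `Q_1` at `1`. -/
def tay (p : ℕ → ℕ → ℤ) (n I J l : ℕ) : ℤ :=
  ∑ k ∈ range I, ∑ j ∈ range J, p k j * ((n * k + j).choose l : ℤ)

/-- The integer obtained from the `l`-th derivative of `Q_τ` at `x1 / x2`. -/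
def Nl (p : ℕ → ℕ → ℤ) (n I J l : ℕ) (t1 t2 x1 x2 : ℤ) : ℤ :=
  ∑ k ∈ range I, ∑ j ∈ range J,
    p k j * ((n * k + j).choose l : ℤ) * t1 ^ k * t2 ^ (I - 1 - k) * x1 ^ j * x2 ^ (J - 1 - j)

/-- The integer nearest to `e / n`. -/
def fr (n : ℕ) (e : ℤ) : ℤ := (2 * e + n) / (2 * n)

/-- The remainder `e - n * fr n e`, of absolute value at most `n / 2`. -/
def gr (n : ℕ) (e : ℤ) : ℤ := e - n * fr n e

/-- The exponent of `p` in `x.1 / x.2`. -/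
def ev (x : ℕ × ℕ) (p : ℕ) : ℤ := (x.1.factorization p : ℤ) - (x.2.factorization p : ℤ)

/-- Numerator of `ξ = ∏ p ^ (fr n (ev x p))`. -/
def xiN (n : ℕ) (x : ℕ × ℕ) : ℕ := ∏ p ∈ (x.1 * x.2).primeFactors, p ^ (fr n (ev x p)).toNat

/-- Denominator of `ξ = ∏ p ^ (fr n (ev x p))`. -/
def xiD (n : ℕ) (x : ℕ × ℕ) : ℕ := ∏ p ∈ (x.1 * x.2).primeFactors, p ^ (-(fr n (ev x p))).toNat

/-- `T1 n x y` and `T1 n y x` are the numerator and denominator of `∏ p ^ (g'_p - g_p)`, where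
`g_p = gr n (ev x p)` and `g'_p = gr n (ev y p)`. -/
def T1 (n : ℕ) (x y : ℕ × ℕ) : ℕ :=
  ∏ p ∈ (x.1 * x.2).primeFactors ∪ (y.1 * y.2).primeFactors,
    p ^ (gr n (ev y p) - gr n (ev x p)).toNat

open Classical in
/-- The product of the primes `p ≤ Y` dividing `m`. -/
noncomputable def smallPart (Y : ℝ) (m : ℕ) : ℕ :=
  ∏ p ∈ m.primeFactors.filter (fun p : ℕ => (p : ℝ) ≤ Y), p

/-- Conditions on a pair `x = (x1, x2)` common to all the cells: coprime, of height at most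
`exp (2 Q)`, radical at most `R`, and all large primes have exponents nearly divisible by `n`. -/
structure Base (δ κ R Q : ℝ) (n : ℕ) (x : ℕ × ℕ) : Prop where
  pos1 : 0 < x.1
  pos2 : 0 < x.2
  cop : Nat.Coprime x.1 x.2
  h1 : Real.log x.1 ≤ 2 * Q
  h2 : Real.log x.2 ≤ 2 * Q
  hrad : (rad (x.1 * x.2) : ℝ) ≤ R
  hlarge : ∀ p ∈ (x.1 * x.2).primeFactors, R ^ δ < (p : ℝ) →
    |(gr n (ev x p) : ℝ)| ≤ κ * n

/-- `x` lies in a `p`-adic cell of cost at most `Y`. -/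
def PCap (δ κ R Q Y : ℝ) (n L0 : ℕ) (s : ℤ) (x : ℕ × ℕ) : Prop :=
  Base δ κ R Q n x ∧ ∃ M : ℕ, R ^ δ ≤ (M : ℝ) ∧ M.Coprime (x.1 * x.2) ∧
    (M : ℤ) ^ L0 ∣ (x.1 : ℤ) - s * x.2 ∧ (smallPart (R ^ δ) (x.1 * x.2) : ℝ) * (M : ℝ) ^ 2 ≤ Y

/-- `x` lies in an archimedean cell of cost at most `Y`. -/
def RCap (δ κ R Q Y : ℝ) (n : ℕ) (x : ℕ × ℕ) : Prop :=
  Base δ κ R Q n x ∧ |(x.1 : ℝ) / x.2 - 1| ≤ Real.exp (-(Q / 2)) ∧
    (smallPart (R ^ δ) (x.1 * x.2) : ℝ) ≤ Y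

/-- Conditions on the parameters. -/
structure Par (δ κ R Q : ℝ) (n I J L0 : ℕ) : Prop where
  hδ : 0 < δ
  hκ : 0 < κ
  hR : 2 ≤ R
  hQ : 4 ≤ Q
  hJ8 : 8 ≤ J
  hJn : J ≤ n
  hI : 2 ≤ I
  hIJ : I * J ≤ L0
  hL0 : (L0 : ℝ) * (δ * Real.log R) ≤ Q / 8
  key : 2 * (12 * (Real.log ((n * I : ℕ) : ℝ) + (n * I : ℕ) * Real.log 2) +
      I * (2 * (κ * n) * Real.log R) + J * (16 * Q / n)) < (I * J : ℕ) * (δ * Real.log R)

/-- `κ` as a function of `δ`. -/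
noncomputable def kap (δ : ℝ) : ℝ := δ ^ 3 / 393216

/-- The range of the Dirichlet multiplier `h`. -/
noncomputable def KK (δ : ℝ) : ℕ := ⌈2 / kap δ⌉₊ ^ ⌊1 / δ⌋₊

/-- The numerator `N` of `n = N / h`. -/
noncomputable def NN (R Q : ℝ) : ℕ := ⌊Q / Real.log R / 4⌋₊

/-- The exponent `L0`. -/
noncomputable def LL (δ R Q : ℝ) : ℕ := ⌊δ * (Q / Real.log R) / 8⌋₊

/-- The solutions in the window `Q < log (a + b) ≤ 2 Q`. -/
def wset (R Q : ℝ) : Set (ℕ × ℕ) :=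
  {p | 0 < p.1 ∧ 0 < p.2 ∧ Nat.Coprime p.1 p.2 ∧ (rad (p.1 * p.2 * (p.1 + p.2)) : ℝ) ≤ R ∧
    Q < Real.log ((p.1 + p.2 : ℕ) : ℝ) ∧ Real.log ((p.1 + p.2 : ℕ) : ℝ) ≤ 2 * Q}

end AbcRad
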