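import Pool.Agent.Work.MP_a793bb_nt.Rad.Defs

/-!
# The leading coefficient of a Wronskian-like determinant

Proof. Put `d i = (P i).natDegree`. By induction on `a`,
`((thetaE e)^[a] f).coeff m = ((m : F) + e) ^ a * f.coeff m` (`coeff` of `X * derivative f` at `m`
is `m * f.coeff m`). So the entry `(a, i)` has degree at most `d i`, and its coefficient at `d i`
is `(d i + e i) ^ a * lc_i`, `lc_i = (P i).leadingCoeff ≠ 0`.
The determinant is `∑ σ, sign σ * ∏ i, entry (σ i) i`; each product has degree at most `∑ d i` and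
its coefficient at `∑ d i` is the product of the coefficients at `d i`
(`Polynomial.coeff_prod_of_natDegree_le` or similar). Hence the coefficient of the determinant at
`∑ d i` is `det (fun a i => (d i + e i) ^ a * lc_i) = (∏ i, lc_i) * det (vandermonde)ᵀ ≠ 0`,
because the `d i + e i` are distinct in `F` (characteristic zero). So the determinant is not zero.
The degree bound is `natDegree ≤ ∑ d i` (`Polynomial.natDegree_sum_le_of_forall_le`).
-/

set_option autoImplicit false

namespace AbcRad

open Polynomial Finset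

private theorem dl_coeff {F : Type*} [Field F] (e : ℕ) (f : F[X]) (m : ℕ) :
    (thetaE e f).coeff m = ((m : F) + e) * f.coeff m := by
  unfold thetaE
  rw [coeff_add, coeff_C_mul]
  rcases m with _ | m
  · rw [coeff_X_mul_zero]
    simp
  · rw [coeff_X_mul, coeff_derivative]
    push_cast
    ring

private theorem dl_iter {F : Type*} [Field F] (e a : ℕ) (f : F[X]) (m : ℕ) :
    ((thetaE e)^[a] f).coeff m = ((m : F) + e) ^ a * f.coeff m := by
  induction a with
  | zero => simp
  | succ a ih =>
    rw [Function.iterate_succ_apply', dl_coeff, ih, pow_succ]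
    ring

private theorem dl_deg {F : Type*} [Field F] (e a : ℕ) (f : F[X]) :
    ((thetaE e)^[a] f).natDegree ≤ f.natDegree := by
  rw [natDegree_le_iff_coeff_eq_zero]
  intro N hN
  rw [dl_iter, coeff_eq_zero_of_natDegree_lt hN, mul_zero]

private theorem dl_prod {F : Type*} [Field F] {ι : Type*} (S : Finset ι) (f : ι → F[X])
    (d : ι → ℕ) (h : ∀ i ∈ S, (f i).natDegree ≤ d i) :
    (∏ i ∈ S, f i).natDegree ≤ ∑ i ∈ S, d i ∧
      (∏ i ∈ S, f i).coeff (∑ i ∈ S, d i) = ∏ i ∈ S, (f i).coeff (d i) := by
  classical
  induction S using Finset.induction_on with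
  | empty => simp
  | insert a S ha ih =>
    obtain ⟨h1, h2⟩ := ih (fun i hi => h i (Finset.mem_insert_of_mem hi))
    have h3 := h a (Finset.mem_insert_self a S)
    rw [Finset.prod_insert ha, Finset.sum_insert ha, Finset.prod_insert ha]
    refine ⟨natDegree_mul_le_of_le h3 h1, ?_⟩
    rw [coeff_mul_add_eq_of_natDegree_le h3 h1, h2]

theorem det_lead {F : Type*} [Field F] [CharZero F] {s : ℕ} (e : Fin s → ℕ) (P : Fin s → F[X])
    (hP : ∀ i, P i ≠ 0) (hinj : Function.Injective (fun i => e i + (P i).natDegree)) :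
    (Matrix.of fun (a i : Fin s) => (thetaE (e i))^[(a : ℕ)] (P i)).det ≠ 0 ∧
    (Matrix.of fun (a i : Fin s) => (thetaE (e i))^[(a : ℕ)] (P i)).det.natDegree ≤
      ∑ i, (P i).natDegree := by
  have hprod : ∀ σ : Equiv.Perm (Fin s),
      (∏ i, (thetaE (e i))^[((σ i : Fin s) : ℕ)] (P i)).natDegree ≤ ∑ i, (P i).natDegree ∧
      (∏ i, (thetaE (e i))^[((σ i : Fin s) : ℕ)] (P i)).coeff (∑ i, (P i).natDegree) =
        ∏ i, (((P i).natDegree : F) + e i) ^ ((σ i : Fin s) : ℕ) * (P i).leadingCoeff := by
    intro σ
    have h1 := dl_prod Finset.univ (fun i => (thetaE (e i))^[((σ i : Fin s) : ℕ)] (P i))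
      (fun i => (P i).natDegree) (fun i _ => dl_deg _ _ _)
    refine ⟨h1.1, h1.2.trans ?_⟩
    refine Finset.prod_congr rfl fun i _ => ?_
    rw [dl_iter]
    rfl
  constructor
  · intro h0
    have h1 : (Matrix.of fun (a i : Fin s) => (thetaE (e i))^[(a : ℕ)] (P i)).det.coeff
        (∑ i, (P i).natDegree) = (∏ i, (P i).leadingCoeff) *
          (Matrix.vandermonde (fun i => ((P i).natDegree : F) + e i)).transpose.det := by
      rw [Matrix.det_apply, finsetSum_coeff, ← Matrix.det_mul_row, Matrix.det_apply]
      refine Finset.sum_congr rfl fun σ _ => ?_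
      have h2 := (hprod σ).2
      rw [Units.smul_def, Units.smul_def, zsmul_eq_mul, zsmul_eq_mul]
      have h3 : ∀ (z : ℤ) (q : F[X]) (m : ℕ), ((z : F[X]) * q).coeff m = (z : F) * q.coeff m := by
        intro z q m
        rw [← map_intCast (C : F →+* F[X]), coeff_C_mul]
      rw [h3]
      congr 1
      refine h2.trans ?_
      refine Finset.prod_congr rfl fun i _ => ?_
      simp only [Matrix.of_apply, Matrix.transpose_apply, Matrix.vandermonde_apply]
      ring
    rw [h0, coeff_zero] at h1
    have h4 : (∏ i, (P i).leadingCoeff) ≠ 0 :=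
      Finset.prod_ne_zero_iff.2 fun i _ => leadingCoeff_ne_zero.2 (hP i)
    have h5 : (Matrix.vandermonde (fun i => ((P i).natDegree : F) + e i)).transpose.det ≠ 0 := by
      rw [Matrix.det_transpose, Matrix.det_vandermonde_ne_zero_iff]
      intro i j hij
      apply hinj
      have h6 : (((P i).natDegree + e i : ℕ) : F) = (((P j).natDegree + e j : ℕ) : F) := by
        push_cast
        exact hij
      have h7 := Nat.cast_injective h6
      change e i + (P i).natDegree = e j + (P j).natDegree
      omega
    exact mul_ne_zero h4 h5 h1.symm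
  · rw [Matrix.det_apply]
    refine natDegree_sum_le_of_forall_le _ _ fun σ _ => ?_
    rw [Units.smul_def]
    refine (natDegree_smul_le _ _).trans ?_
    exact (hprod σ).1

end AbcRad
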