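import Pool.Agent.Work.MP_a793bb_nt.Rad.Defs

/-!
# The lower bound

Proof. `coprime_pairs`: the pairs in `[1, N]²` which are not coprime are divisible by some prime
`p`, so their number is at most `∑_p (N / p) ^ 2 ≤ N ^ 2 (1/4 + ∑_{k ≥ 3 odd} 1 / k ^ 2)`
`≤ N ^ 2 (1/4 + ∑_{k ≥ 3 odd} 1 / ((k - 1) (k + 1))) = N ^ 2 (1/4 + 1/4)`. (Any proof giving
`N ^ 2 / 4`, or any positive constant, is fine too: the constant may be lowered to `1 / 100`.)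
`lower`: let `N = ⌊(R / 2) ^ (1 / 3)⌋₊`. A coprime pair `(a, b) ∈ [1, N]²` has
`rad (a b (a + b)) ≤ a b (a + b) ≤ 2 N ^ 3 ≤ R`, and `a + b ≤ 2 N ≤ 2 R`. If `R ≥ R1(ε)` then
`2 R ≤ exp (exp (R ^ (ε / 2)))` (since `log (2 R) ≤ R ^ (ε / 2) ≤ exp (R ^ (ε / 2))` for large `R`) and
`N ≥ (R / 2) ^ (1 / 3) / 2`, so the set, which is finite (`a + b` is bounded), has at least
`N ^ 2 / 100 ≥ c R ^ (2 / 3)` elements. If `2 ≤ R < R1` then `(1, 1)` is in the set (`rad 2 = 2`,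
`2 ≤ exp 1 ≤ exp (exp (R ^ (ε / 2)))`), so the number is at least `1 ≥ R ^ (2 / 3) / R1 ^ (2 / 3)`.
-/

set_option autoImplicit false

namespace AbcRad

theorem sum_inv_sq (N : ℕ) (hN : 2 ≤ N) :
    ∑ d ∈ Finset.Icc 2 N, (1 : ℝ) / (d : ℝ) ^ 2 ≤ 3 / 4 - 1 / N := by
  induction N, hN using Nat.le_induction with
  | base => norm_num
  | succ n hn ih =>
    rw [Finset.sum_Icc_succ_top (by omega)]
    have hn0 : (0 : ℝ) < n := by
      have : (2 : ℝ) ≤ n := by exact_mod_cast hn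
      linarith
    have h1 : (1 : ℝ) / ((n + 1 : ℕ) : ℝ) ^ 2 ≤ 1 / n - 1 / ((n + 1 : ℕ) : ℝ) := by
      push_cast
      rw [div_sub_div _ _ hn0.ne' (by positivity), div_le_div_iff₀ (by positivity) (by positivity)]
      nlinarith
    linarith

theorem coprime_pairs (N : ℕ) :
    (N : ℝ) ^ 2 / 100 ≤
      (((Finset.Icc 1 N ×ˢ Finset.Icc 1 N).filter (fun q => Nat.Coprime q.1 q.2)).card : ℝ) := by
  classical
  rcases Nat.lt_or_ge N 2 with hN | hN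
  · interval_cases N
    · simp
    · norm_num
      have : (Finset.filter (fun q : ℕ × ℕ => q.1.Coprime q.2) {(1, 1)}).card = 1 := by
        decide
      rw [this]; norm_num
  set T := Finset.Icc 1 N ×ˢ Finset.Icc 1 N with hT
  have hTc : (T.card : ℝ) = (N : ℝ) ^ 2 := by
    rw [hT, Finset.card_product]; simp; ring
  have hsplit := Finset.card_filter_add_card_filter_not (s := T) (fun q => Nat.Coprime q.1 q.2)
  have hnon : ((T.filter (fun q => ¬ Nat.Coprime q.1 q.2)).card : ℝ) ≤ 3 / 4 * (N : ℝ) ^ 2 := by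
    have hsub : T.filter (fun q => ¬ Nat.Coprime q.1 q.2) ⊆
        (Finset.Icc 2 N).biUnion (fun d => ((Finset.Ioc 0 N).filter (fun a => d ∣ a)) ×ˢ
          ((Finset.Ioc 0 N).filter (fun a => d ∣ a))) := by
      intro q hq
      rw [Finset.mem_filter, hT, Finset.mem_product, Finset.mem_Icc, Finset.mem_Icc] at hq
      obtain ⟨⟨⟨h1, h2⟩, h3, h4⟩, h5⟩ := hq
      rw [Finset.mem_biUnion]
      refine ⟨Nat.gcd q.1 q.2, ?_, ?_⟩
      · rw [Finset.mem_Icc]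
        have hg : Nat.gcd q.1 q.2 ≠ 1 := h5
        have hg0 : 0 < Nat.gcd q.1 q.2 := Nat.gcd_pos_of_pos_left _ h1
        have hg1 : Nat.gcd q.1 q.2 ≤ q.1 := Nat.gcd_le_left _ h1
        omega
      · rw [Finset.mem_product, Finset.mem_filter, Finset.mem_filter, Finset.mem_Ioc,
          Finset.mem_Ioc]
        exact ⟨⟨⟨h1, h2⟩, Nat.gcd_dvd_left _ _⟩, ⟨h3, h4⟩, Nat.gcd_dvd_right _ _⟩
    have hcard := (Finset.card_le_card hsub).trans Finset.card_biUnion_le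
    have hcR : ((T.filter (fun q => ¬ Nat.Coprime q.1 q.2)).card : ℝ) ≤
        ∑ d ∈ Finset.Icc 2 N, (((N / d : ℕ) : ℝ)) ^ 2 := by
      refine le_trans (Nat.cast_le.2 hcard) (le_of_eq ?_)
      push_cast
      refine Finset.sum_congr rfl fun d _ => ?_
      rw [Finset.card_product, Nat.Ioc_filter_dvd_card_eq_div]
      push_cast; ring
    refine hcR.trans ?_
    calc ∑ d ∈ Finset.Icc 2 N, (((N / d : ℕ) : ℝ)) ^ 2
        ≤ ∑ d ∈ Finset.Icc 2 N, (N : ℝ) ^ 2 * (1 / (d : ℝ) ^ 2) := by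
          refine Finset.sum_le_sum fun d hd => ?_
          have : ((N / d : ℕ) : ℝ) ≤ (N : ℝ) / d := Nat.cast_div_le
          calc (((N / d : ℕ) : ℝ)) ^ 2 ≤ ((N : ℝ) / d) ^ 2 := by gcongr
            _ = _ := by ring
      _ = (N : ℝ) ^ 2 * ∑ d ∈ Finset.Icc 2 N, (1 / (d : ℝ) ^ 2) := by rw [Finset.mul_sum]
      _ ≤ (N : ℝ) ^ 2 * (3 / 4) := by
          gcongr
          have := sum_inv_sq N hN
          have h1 : (0 : ℝ) ≤ 1 / N := by positivity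
          linarith
      _ = 3 / 4 * (N : ℝ) ^ 2 := by ring
  have h2 : ((T.filter (fun q => Nat.Coprime q.1 q.2)).card : ℝ) +
      ((T.filter (fun q => ¬ Nat.Coprime q.1 q.2)).card : ℝ) = (N : ℝ) ^ 2 := by
    rw [← hTc]; exact_mod_cast hsplit
  have h3 : (0 : ℝ) ≤ (N : ℝ) ^ 2 := by positivity
  linarith

theorem rad_le (m : ℕ) (hm : 0 < m) : rad m ≤ m := by
  unfold rad
  exact Nat.le_of_dvd hm (Nat.prod_primeFactors_dvd m)

theorem finite_bd (P : ℕ × ℕ → Prop) (B : ℝ) :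
    {p : ℕ × ℕ | P p ∧ ((p.1 + p.2 : ℕ) : ℝ) ≤ B}.Finite := by
  apply Set.Finite.subset (Finset.finite_toSet (Finset.Icc 0 ⌊B⌋₊ ×ˢ Finset.Icc 0 ⌊B⌋₊))
  rintro p ⟨-, hp⟩
  have h1 : p.1 + p.2 ≤ ⌊B⌋₊ := Nat.le_floor hp
  rw [Finset.mem_coe, Finset.mem_product, Finset.mem_Icc, Finset.mem_Icc]
  exact ⟨⟨Nat.zero_le _, by omega⟩, Nat.zero_le _, by omega⟩

theorem ev_large (ε : ℝ) (hε : 0 < ε) :
    ∃ R1 : ℝ, 2 ≤ R1 ∧ ∀ R : ℝ, R1 ≤ R → 2 * R ≤ Real.exp (Real.exp (R ^ (ε / 2))) := by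
  have h1 := (isLittleO_log_rpow_atTop (show 0 < ε / 2 by positivity)).bound
    (show (0 : ℝ) < 1 / 2 by norm_num)
  have h2 := (tendsto_rpow_atTop (show 0 < ε / 2 by positivity)).eventually_ge_atTop
    (2 * Real.log 2)
  obtain ⟨R1, hR1⟩ := Filter.eventually_atTop.1 (h1.and h2)
  refine ⟨max R1 2, le_max_right _ _, fun R hR => ?_⟩
  obtain ⟨h3, h4⟩ := hR1 R ((le_max_left _ _).trans hR)
  have hR2 : 2 ≤ R := (le_max_right _ _).trans hR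
  have hR0 : 0 < R := by linarith
  rw [Real.norm_of_nonneg (Real.log_nonneg (by linarith)),
    Real.norm_of_nonneg (Real.rpow_nonneg hR0.le _)] at h3
  have h5 : Real.log (2 * R) ≤ R ^ (ε / 2) := by
    rw [Real.log_mul (by norm_num) hR0.ne']
    linarith
  have h6 : R ^ (ε / 2) ≤ Real.exp (R ^ (ε / 2)) := by
    have := Real.add_one_le_exp (R ^ (ε / 2)); linarith
  calc 2 * R = Real.exp (Real.log (2 * R)) := (Real.exp_log (by linarith)).symm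
    _ ≤ Real.exp (Real.exp (R ^ (ε / 2))) := Real.exp_le_exp.2 (h5.trans h6)

theorem lower (ε : ℝ) (hε : 0 < ε) :
    ∃ c : ℝ, 0 < c ∧ ∀ R : ℝ, 2 ≤ R →
      c * R ^ (2 / 3 : ℝ) ≤
      ({p : ℕ × ℕ | 0 < p.1 ∧ 0 < p.2 ∧ Nat.Coprime p.1 p.2 ∧
        (rad (p.1 * p.2 * (p.1 + p.2)) : ℝ) ≤ R ∧
        ((p.1 + p.2 : ℕ) : ℝ) ≤ Real.exp (Real.exp (R ^ (ε / 2)))}.ncard : ℝ) := by
  classical
  obtain ⟨R1, hR1, hlarge⟩ := ev_large ε hε
  have hfin : ∀ R : ℝ, {p : ℕ × ℕ | 0 < p.1 ∧ 0 < p.2 ∧ Nat.Coprime p.1 p.2 ∧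
        (rad (p.1 * p.2 * (p.1 + p.2)) : ℝ) ≤ R ∧
        ((p.1 + p.2 : ℕ) : ℝ) ≤ Real.exp (Real.exp (R ^ (ε / 2)))}.Finite := by
    intro R
    refine (finite_bd (fun _ => True) (Real.exp (Real.exp (R ^ (ε / 2))))).subset ?_
    rintro p ⟨-, -, -, -, h⟩
    exact ⟨trivial, h⟩
  have hR1pos : 0 < R1 ^ (2 / 3 : ℝ) := Real.rpow_pos_of_pos (by linarith) _
  refine ⟨min (1 / 1000) (1 / R1 ^ (2 / 3 : ℝ)), by positivity, fun R hR => ?_⟩
  have hR0 : 0 < R := by linarith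
  have hRp : 0 < R ^ (2 / 3 : ℝ) := Real.rpow_pos_of_pos hR0 _
  rcases lt_or_ge R R1 with hlt | hge
  · -- the pair (1, 1)
    have hmem : ((1, 1) : ℕ × ℕ) ∈ {p : ℕ × ℕ | 0 < p.1 ∧ 0 < p.2 ∧ Nat.Coprime p.1 p.2 ∧
        (rad (p.1 * p.2 * (p.1 + p.2)) : ℝ) ≤ R ∧
        ((p.1 + p.2 : ℕ) : ℝ) ≤ Real.exp (Real.exp (R ^ (ε / 2)))} := by
      refine ⟨Nat.one_pos, Nat.one_pos, Nat.coprime_one_right 1, ?_, ?_⟩
      · have : rad (1 * 1 * (1 + 1)) ≤ 1 * 1 * (1 + 1) := rad_le _ (by norm_num)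
        have h2 : (rad (1 * 1 * (1 + 1)) : ℝ) ≤ 2 := by exact_mod_cast this
        exact h2.trans hR
      · have h1 : (0 : ℝ) ≤ R ^ (ε / 2) := Real.rpow_nonneg hR0.le _
        have h2 : (1 : ℝ) ≤ Real.exp (R ^ (ε / 2)) := Real.one_le_exp h1
        have h3 := Real.add_one_le_exp (Real.exp (R ^ (ε / 2)))
        push_cast
        linarith
    have hcard : (1 : ℝ) ≤ ({p : ℕ × ℕ | 0 < p.1 ∧ 0 < p.2 ∧ Nat.Coprime p.1 p.2 ∧
        (rad (p.1 * p.2 * (p.1 + p.2)) : ℝ) ≤ R ∧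
        ((p.1 + p.2 : ℕ) : ℝ) ≤ Real.exp (Real.exp (R ^ (ε / 2)))}.ncard : ℝ) := by
      have := (Set.ncard_pos (hfin R)).2 ⟨_, hmem⟩
      exact_mod_cast this
    refine le_trans ?_ hcard
    calc min (1 / 1000) (1 / R1 ^ (2 / 3 : ℝ)) * R ^ (2 / 3 : ℝ)
        ≤ 1 / R1 ^ (2 / 3 : ℝ) * R ^ (2 / 3 : ℝ) := by gcongr; exact min_le_right _ _
      _ ≤ 1 / R1 ^ (2 / 3 : ℝ) * R1 ^ (2 / 3 : ℝ) := by gcongr
      _ = 1 := by field_simp
  · set y : ℝ := (R / 2) ^ (1 / 3 : ℝ) with hy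
    have hy1 : 1 ≤ y := Real.one_le_rpow (by linarith) (by norm_num)
    have hy3 : y ^ 3 = R / 2 := by
      rw [hy, ← Real.rpow_natCast, ← Real.rpow_mul (by positivity)]
      norm_num
    set N := ⌊y⌋₊ with hN
    have hNy : (N : ℝ) ≤ y := Nat.floor_le (by linarith)
    have hNy2 : y / 2 ≤ N := by
      have h1 : y < N + 1 := Nat.lt_floor_add_one y
      have h2 : 1 ≤ N := Nat.le_floor (by exact_mod_cast hy1)
      have h3 : (1 : ℝ) ≤ N := by exact_mod_cast h2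
      linarith
    have hsub : (((Finset.Icc 1 N ×ˢ Finset.Icc 1 N).filter
        (fun q => Nat.Coprime q.1 q.2) : Finset (ℕ × ℕ)) : Set (ℕ × ℕ)) ⊆
        {p : ℕ × ℕ | 0 < p.1 ∧ 0 < p.2 ∧ Nat.Coprime p.1 p.2 ∧
        (rad (p.1 * p.2 * (p.1 + p.2)) : ℝ) ≤ R ∧
        ((p.1 + p.2 : ℕ) : ℝ) ≤ Real.exp (Real.exp (R ^ (ε / 2)))} := by
      intro p hp
      rw [Finset.mem_coe, Finset.mem_filter, Finset.mem_product, Finset.mem_Icc,
        Finset.mem_Icc] at hp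
      obtain ⟨⟨⟨h1, h2⟩, h3, h4⟩, h5⟩ := hp
      have h2R : (p.1 : ℝ) ≤ y := le_trans (by exact_mod_cast h2) hNy
      have h4R : (p.2 : ℝ) ≤ y := le_trans (by exact_mod_cast h4) hNy
      refine ⟨h1, h3, h5, ?_, ?_⟩
      · have e1 : rad (p.1 * p.2 * (p.1 + p.2)) ≤ p.1 * p.2 * (p.1 + p.2) :=
          rad_le _ (by positivity)
        have e2 : (rad (p.1 * p.2 * (p.1 + p.2)) : ℝ) ≤ (p.1 : ℝ) * p.2 * (p.1 + p.2) := by
          exact_mod_cast e1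
        calc (rad (p.1 * p.2 * (p.1 + p.2)) : ℝ) ≤ (p.1 : ℝ) * p.2 * (p.1 + p.2) := e2
          _ ≤ y * y * (y + y) := by gcongr
          _ = 2 * y ^ 3 := by ring
          _ = R := by rw [hy3]; ring
      · have hyR : y ≤ R := by
          calc y ≤ y ^ 3 := by nlinarith [sq_nonneg y, sq_nonneg (y - 1)]
            _ = R / 2 := hy3
            _ ≤ R := by linarith
        push_cast
        calc (p.1 : ℝ) + p.2 ≤ 2 * R := by linarith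
          _ ≤ _ := hlarge R hge
    have hcard := Set.ncard_le_ncard hsub (hfin R)
    rw [Set.ncard_coe_finset] at hcard
    have hcR : ((((Finset.Icc 1 N ×ˢ Finset.Icc 1 N).filter
        (fun q => Nat.Coprime q.1 q.2)).card : ℕ) : ℝ) ≤
        ({p : ℕ × ℕ | 0 < p.1 ∧ 0 < p.2 ∧ Nat.Coprime p.1 p.2 ∧
        (rad (p.1 * p.2 * (p.1 + p.2)) : ℝ) ≤ R ∧
        ((p.1 + p.2 : ℕ) : ℝ) ≤ Real.exp (Real.exp (R ^ (ε / 2)))}.ncard : ℝ) := by
      exact_mod_cast hcard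
    refine le_trans ?_ ((coprime_pairs N).trans hcR)
    have hR23 : R ^ (2 / 3 : ℝ) ≤ 2 * y ^ 2 := by
      have e1 : y ^ 2 = (R / 2) ^ (2 / 3 : ℝ) := by
        rw [hy, ← Real.rpow_natCast, ← Real.rpow_mul (by positivity)]
        norm_num
      rw [e1, Real.div_rpow hR0.le (by norm_num)]
      have e2 : (2 : ℝ) ^ (2 / 3 : ℝ) ≤ 2 := by
        calc (2 : ℝ) ^ (2 / 3 : ℝ) ≤ (2 : ℝ) ^ (1 : ℝ) :=
              Real.rpow_le_rpow_of_exponent_le (by norm_num) (by norm_num)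
          _ = 2 := Real.rpow_one 2
      have e3 : (0 : ℝ) < (2 : ℝ) ^ (2 / 3 : ℝ) := by positivity
      rw [← mul_div_assoc, le_div_iff₀ e3]
      calc R ^ (2 / 3 : ℝ) * (2 : ℝ) ^ (2 / 3 : ℝ) ≤ R ^ (2 / 3 : ℝ) * 2 := by gcongr
        _ = 2 * R ^ (2 / 3 : ℝ) := by ring
    calc min (1 / 1000) (1 / R1 ^ (2 / 3 : ℝ)) * R ^ (2 / 3 : ℝ)
        ≤ 1 / 1000 * R ^ (2 / 3 : ℝ) := by gcongr; exact min_le_left _ _
      _ ≤ 1 / 1000 * (2 * y ^ 2) := by gcongr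
      _ ≤ (y / 2) ^ 2 / 100 := by nlinarith [sq_nonneg y]
      _ ≤ (N : ℝ) ^ 2 / 100 := by gcongr

end AbcRad
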