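import Pool.Agent.Work.MP_a793bb_nt.Rad.Defs

/-!
# The parameters exist

Proof. Fix `δ`. Put `ℓ = log R`, `X = Q / ℓ ≥ C0`, `κ = kap δ = δ ^ 3 / 393216`,
`j = δ ^ 2 / 4096`, `N = NN R Q = ⌊X / 4⌋₊`, `L0 = LL δ R Q = ⌊δ X / 8⌋₊`, `K = KK δ ≥ 1`,
`n = N / h`, `J = ⌊j n⌋₊`, `I = L0 / J`. Choose `C0` (depending on `δ` only) so large that for
`X ≥ C0`: `N ≥ 2 K`, `j N / (2 K) ≥ 9` (so that `j n ≥ 9`, as `n ≥ N / (2 K)`),
`4 (2 X / δ) K ^ 2 ≤ κ N ^ 2` (as `N ≥ X / 8`, it is enough that `X ≥ 512 K ^ 2 / (δ κ)`),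
`δ X / 8 ≥ 2`, `C0 ≥ 8`; and `R0` so large that `δ ℓ / 2 > 82 * 4096 / δ ^ 2`, `R0 ≥ 8`.
Then `Q ≥ C0 ℓ ≥ 4`, `8 ≤ J ≤ j n ≤ n`, and
* `L0 ≥ δ X / 16`, `J ≤ j n ≤ j X / 4 = δ ^ 2 X / 16384 ≤ δ L0 / 1024`; so `I ≥ 2` and
  `I J ≥ L0 - J ≥ (1 - 1 / 1024) L0`; `I J ≤ L0` clear;
* `L0 δ ℓ ≤ δ ^ 2 X ℓ / 8 ≤ Q / 8`;
* `J ≥ j n / 2` so `n I ≤ n L0 / J ≤ 2 L0 / j`, and
  `24 (log (n I) + n I log 2) ≤ 24 * 1.7 * (n I) ≤ 82 L0 / j`;
* `4 I κ n ℓ ≤ 8 κ L0 ℓ / j = δ L0 ℓ / 12`;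
* `32 J Q / n ≤ 32 j Q = 32 j X ℓ ≤ 512 j L0 ℓ / δ = δ L0 ℓ / 8` (`X ≤ 16 L0 / δ`);
* altogether the left side of `key` is at most `82 L0 / j + δ L0 ℓ (1 / 12 + 1 / 8)`, the right
  side is at least `(1 - 1 / 1024) δ L0 ℓ`, and `82 / j = 82 * 4096 / δ ^ 2 < δ ℓ / 2`.
-/

set_option autoImplicit false

namespace AbcRad

theorem par_core (δ ℓ X : ℝ) (K N L0 h : ℕ) (hδ : 0 < δ) (hδ1 : δ ≤ 1 / 10) (hℓ : 0 < ℓ)
    (hℓ2 : 335872 / δ ^ 2 < δ * ℓ / 2)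
    (hN1 : (N : ℝ) ≤ X / 4) (hN2 : 2 * K ≤ N) (hN3 : 18 * K ≤ δ ^ 2 / 4096 * (N : ℝ))
    (hL2 : δ * X / 16 ≤ (L0 : ℝ)) (hX : 0 < X)
    (h1 : 1 ≤ h) (hK : h ≤ K) :
    ∃ I J : ℕ, 8 ≤ J ∧ J ≤ N / h ∧ 2 ≤ I ∧ I * J ≤ L0 ∧
      2 * (12 * (Real.log (((N / h) * I : ℕ) : ℝ) + ((N / h) * I : ℕ) * Real.log 2) +
        I * (2 * ((δ ^ 3 / 393216) * ((N / h : ℕ) : ℝ)) * ℓ) +
        J * (16 * (X * ℓ) / ((N / h : ℕ) : ℝ))) < (I * J : ℕ) * (δ * ℓ) := by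
  have hK1 : 1 ≤ K := le_trans h1 hK
  set n : ℕ := N / h with hn
  set j : ℝ := δ ^ 2 / 4096 with hj
  have hj0 : 0 < j := by positivity
  have hj1 : j ≤ 1 := by
    rw [hj]; nlinarith
  have hhR : (1 : ℝ) ≤ h := by exact_mod_cast h1
  have hKR : (h : ℝ) ≤ K := by exact_mod_cast hK
  have hNK : (2 : ℝ) * K ≤ N := by exact_mod_cast hN2
  -- n h > N - h
  have hn_lt : (N : ℝ) < h * n + h := by
    have := Nat.lt_mul_div_succ N (show 0 < h from h1)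
    have h3 : N < h * (n + 1) := by rw [hn]; exact this
    have h4 : (N : ℝ) < h * (n + 1) := by exact_mod_cast h3
    linarith
  have hn_le : (h : ℝ) * n ≤ N := by
    have := Nat.mul_div_le N h
    exact_mod_cast this
  have hnN : (n : ℝ) ≤ N := by
    have : n ≤ N := Nat.div_le_self _ _
    exact_mod_cast this
  -- n ≥ N / (2 h)
  have hn2 : (N : ℝ) ≤ 2 * (h * n) := by linarith
  have hjn : 9 ≤ j * n := by
    have h5 : 18 * (K : ℝ) ≤ j * (2 * (h * n)) := le_trans hN3 (by gcongr)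
    have h6 : 18 * (h : ℝ) ≤ j * (2 * (h * n)) := by linarith
    have h7 : 0 < (h : ℝ) := by linarith
    have h8 : (h : ℝ) * 9 ≤ h * (j * n) := by linarith
    exact le_of_mul_le_mul_left h8 h7
  have hn0 : 0 < (n : ℝ) := by
    rcases (Nat.cast_nonneg (α := ℝ) n).lt_or_eq with h9 | h9
    · exact h9
    · rw [← h9] at hjn; norm_num at hjn
  set J : ℕ := ⌊j * n⌋₊ with hJ
  have hJle : (J : ℝ) ≤ j * n := Nat.floor_le (by positivity)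
  have hJlt : j * n < J + 1 := Nat.lt_floor_add_one _
  have hJ9 : 9 ≤ J := Nat.le_floor (by exact_mod_cast hjn)
  have hJR : (9 : ℝ) ≤ J := by exact_mod_cast hJ9
  have hJhalf : j * n ≤ 2 * J := by linarith
  have hJn : J ≤ n := by
    have : (J : ℝ) ≤ n := le_trans hJle (by nlinarith)
    exact_mod_cast this
  set I : ℕ := L0 / J with hI
  have hIJ : I * J ≤ L0 := Nat.div_mul_le_self _ _
  have hIJR : (I : ℝ) * J ≤ L0 := by exact_mod_cast hIJ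
  have hJpos : 0 < J := by omega
  have hIJ2 : (L0 : ℝ) < I * J + J := by
    have := Nat.lt_mul_div_succ L0 hJpos
    have h3 : L0 < J * (I + 1) := by rw [hI]; exact this
    have h4 : (L0 : ℝ) < J * (I + 1) := by exact_mod_cast h3
    linarith
  -- J ≤ δ L0 / 1024
  have hJL : (J : ℝ) * 1024 ≤ δ * L0 := by
    have e1 : (J : ℝ) ≤ j * (X / 4) := le_trans hJle (by gcongr; linarith)
    have e2 : j * (X / 4) * 1024 = δ * (δ * X / 16) := by rw [hj]; ring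
    calc (J : ℝ) * 1024 ≤ j * (X / 4) * 1024 := by gcongr
      _ = δ * (δ * X / 16) := e2
      _ ≤ δ * L0 := by gcongr
  have hL0pos : 0 < (L0 : ℝ) := lt_of_lt_of_le (by positivity) hL2
  have hJL2 : (J : ℝ) * 10240 ≤ L0 := by nlinarith
  have hI2 : 2 ≤ I := by
    rw [hI, Nat.le_div_iff_mul_le hJpos]
    have : (2 : ℝ) * J ≤ L0 := by nlinarith
    exact_mod_cast this
  have hIR : (2 : ℝ) ≤ I := by exact_mod_cast hI2
  have hnI : ((n * I : ℕ) : ℝ) * j ≤ 2 * L0 := by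
    push_cast
    calc (n : ℝ) * I * j = I * (j * n) := by ring
      _ ≤ I * (2 * J) := by gcongr
      _ = 2 * (I * J) := by ring
      _ ≤ 2 * L0 := by linarith
  have hnI0 : 0 < ((n * I : ℕ) : ℝ) := by
    push_cast; positivity
  refine ⟨I, J, by omega, hJn, hI2, hIJ, ?_⟩
  have hlog : Real.log ((n * I : ℕ) : ℝ) ≤ ((n * I : ℕ) : ℝ) := by
    have := Real.log_le_sub_one_of_pos hnI0
    linarith
  have hl2 : Real.log 2 ≤ 0.7 := by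
    have := Real.log_two_lt_d9
    linarith
  -- the three terms
  have t1 : 24 * (Real.log ((n * I : ℕ) : ℝ) + ((n * I : ℕ) : ℝ) * Real.log 2) ≤ 82 * L0 / j := by
    have e1 : ((n * I : ℕ) : ℝ) * Real.log 2 ≤ ((n * I : ℕ) : ℝ) * 0.7 := by gcongr
    have e2 : 24 * (Real.log ((n * I : ℕ) : ℝ) + ((n * I : ℕ) : ℝ) * Real.log 2) ≤
        41 * ((n * I : ℕ) : ℝ) := by linarith
    have e3 : ((n * I : ℕ) : ℝ) ≤ 2 * L0 / j := by
      rw [le_div_iff₀ hj0]; exact hnI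
    calc _ ≤ 41 * ((n * I : ℕ) : ℝ) := e2
      _ ≤ 41 * (2 * L0 / j) := by gcongr
      _ = 82 * L0 / j := by ring
  have t2 : 2 * (I * (2 * ((δ ^ 3 / 393216) * (n : ℝ)) * ℓ)) ≤ δ * L0 * ℓ / 12 := by
    have e1 : 2 * (I * (2 * ((δ ^ 3 / 393216) * (n : ℝ)) * ℓ)) =
        (δ / 24 * ℓ) * (((n * I : ℕ) : ℝ) * j) := by
      push_cast; rw [hj]; ring
    rw [e1]
    calc (δ / 24 * ℓ) * (((n * I : ℕ) : ℝ) * j) ≤ (δ / 24 * ℓ) * (2 * L0) := by gcongr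
      _ = δ * L0 * ℓ / 12 := by ring
  have t3 : 2 * (J * (16 * (X * ℓ) / (n : ℝ))) ≤ δ * L0 * ℓ / 8 := by
    have e1 : (J : ℝ) / n ≤ j := by
      rw [div_le_iff₀ hn0]; exact hJle
    have e2 : 2 * (J * (16 * (X * ℓ) / (n : ℝ))) = 32 * (X * ℓ) * (J / n) := by ring
    rw [e2]
    calc 32 * (X * ℓ) * (J / n) ≤ 32 * (X * ℓ) * j := by gcongr
      _ = δ * ℓ / 8 * (δ * X / 16) := by rw [hj]; ring
      _ ≤ δ * ℓ / 8 * L0 := by gcongr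
      _ = δ * L0 * ℓ / 8 := by ring
  have t4 : 82 * L0 / j < δ * ℓ / 2 * L0 := by
    have : 82 * (L0 : ℝ) / j = 335872 / δ ^ 2 * L0 := by
      rw [hj]; field_simp; ring
    rw [this]
    gcongr
  have t5 : (L0 : ℝ) * (1 - 1 / 10240) ≤ (I * J : ℕ) := by
    push_cast
    nlinarith
  have t6 : (L0 : ℝ) * (1 - 1 / 10240) * (δ * ℓ) ≤ (I * J : ℕ) * (δ * ℓ) := by
    gcongr
  have t7 : 0 < L0 * (δ * ℓ) := by positivity
  calc 2 * (12 * (Real.log ((n * I : ℕ) : ℝ) + ((n * I : ℕ) : ℝ) * Real.log 2) +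
        I * (2 * ((δ ^ 3 / 393216) * (n : ℝ)) * ℓ) + J * (16 * (X * ℓ) / (n : ℝ)))
      = 24 * (Real.log ((n * I : ℕ) : ℝ) + ((n * I : ℕ) : ℝ) * Real.log 2) +
        2 * (I * (2 * ((δ ^ 3 / 393216) * (n : ℝ)) * ℓ)) +
        2 * (J * (16 * (X * ℓ) / (n : ℝ))) := by ring
    _ ≤ 82 * L0 / j + δ * L0 * ℓ / 12 + δ * L0 * ℓ / 8 := by linarith
    _ < (L0 : ℝ) * (1 - 1 / 10240) * (δ * ℓ) := by nlinarith
    _ ≤ _ := t6

theorem par_exists (δ : ℝ) (hδ : 0 < δ) (hδ1 : δ ≤ 1 / 10) :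
    ∃ R0 C0 : ℝ, 2 ≤ R0 ∧ 1 ≤ C0 ∧ ∀ R Q : ℝ, R0 ≤ R → C0 * Real.log R ≤ Q →
      (∀ h : ℕ, 1 ≤ h → h ≤ KK δ → ∃ I J : ℕ, Par δ (kap δ) R Q (NN R Q / h) I J (LL δ R Q)) ∧
      2 * KK δ ≤ NN R Q ∧
      4 * (2 * (Q / Real.log R) / δ) * (KK δ : ℝ) ^ 2 ≤ kap δ * (NN R Q : ℝ) ^ 2 ∧
      1 ≤ LL δ R Q := by
  have hκ : 0 < kap δ := by unfold kap; positivity
  set K : ℕ := KK δ with hK
  have hK0 : (0 : ℝ) ≤ K := Nat.cast_nonneg _
  set j : ℝ := δ ^ 2 / 4096 with hj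
  have hj0 : 0 < j := by positivity
  refine ⟨Real.exp (671744 / δ ^ 3 + 1) + 2,
    8 + 12 * K + 144 * K / j + 512 * K ^ 2 / (δ * kap δ) + 16 / δ + 16 / δ, ?_, ?_, ?_⟩
  · have := Real.exp_pos (671744 / δ ^ 3 + 1); linarith
  · have h1 : 0 ≤ 144 * K / j := by positivity
    have h2 : 0 ≤ 512 * K ^ 2 / (δ * kap δ) := by positivity
    have h3 : 0 ≤ 16 / δ := by positivity
    linarith
  intro R Q hR hQ
  have hexp := Real.exp_pos (671744 / δ ^ 3 + 1)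
  have hR2 : 2 ≤ R := by linarith
  have hlog : 671744 / δ ^ 3 + 1 ≤ Real.log R := by
    rw [Real.le_log_iff_exp_le (by linarith)]
    linarith
  have hpos : 0 < 671744 / δ ^ 3 := by positivity
  have hℓ : 0 < Real.log R := by linarith
  set X : ℝ := Q / Real.log R with hX
  have hXC : 8 + 12 * K + 144 * K / j + 512 * K ^ 2 / (δ * kap δ) + 16 / δ + 16 / δ ≤ X := by
    rw [hX, le_div_iff₀ hℓ]; exact hQ
  have c1 : 0 ≤ 144 * K / j := by positivity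
  have c2 : 0 ≤ 512 * K ^ 2 / (δ * kap δ) := by positivity
  have c3 : 0 ≤ 16 / δ := by positivity
  have hX8 : 8 ≤ X := by linarith
  have hX0 : 0 < X := by linarith
  have hQX : Q = X * Real.log R := by rw [hX]; field_simp
  have hNle : (NN R Q : ℝ) ≤ X / 4 := Nat.floor_le (by positivity)
  have hNlt : X / 4 < NN R Q + 1 := Nat.lt_floor_add_one _
  have hN8 : X / 8 ≤ NN R Q := by linarith
  have hLle : (LL δ R Q : ℝ) ≤ δ * X / 8 := Nat.floor_le (by positivity)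
  have hLlt : δ * X / 8 < LL δ R Q + 1 := Nat.lt_floor_add_one _
  have hδX : 16 ≤ δ * X := by
    have : 16 / δ ≤ X := by linarith
    rw [div_le_iff₀ hδ] at this; linarith
  have hL16 : δ * X / 16 ≤ LL δ R Q := by linarith
  have hN2 : 2 * K ≤ NN R Q := by
    have : (2 : ℝ) * K ≤ NN R Q := by linarith
    exact_mod_cast this
  have hN3 : 18 * (K : ℝ) ≤ δ ^ 2 / 4096 * (NN R Q : ℝ) := by
    have h1 : 144 * K / j ≤ X := by linarith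
    rw [div_le_iff₀ hj0] at h1
    calc 18 * (K : ℝ) ≤ X * j / 8 := by linarith
      _ = j * (X / 8) := by ring
      _ ≤ j * (NN R Q : ℝ) := by gcongr
  refine ⟨?_, hN2, ?_, ?_⟩
  · intro h h1 hhK
    have hℓ2 : 335872 / δ ^ 2 < δ * Real.log R / 2 := by
      have e1 : δ * (671744 / δ ^ 3 + 1) / 2 = 335872 / δ ^ 2 + δ / 2 := by
        field_simp; ring
      have e2 : δ * (671744 / δ ^ 3 + 1) / 2 ≤ δ * Real.log R / 2 := by gcongr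
      have : 0 < δ / 2 := by positivity
      linarith
    obtain ⟨I, J, hJ8, hJn, hI2, hIJ, hkey⟩ := par_core δ (Real.log R) X K (NN R Q) (LL δ R Q) h
      hδ hδ1 hℓ hℓ2 hNle hN2 hN3 hL16 hX0 h1 hhK
    refine ⟨I, J, hδ, hκ, hR2, ?_, hJ8, hJn, hI2, hIJ, ?_, ?_⟩
    · rw [hQX]
      have : (1 : ℝ) ≤ Real.log R := by linarith
      nlinarith
    · calc (LL δ R Q : ℝ) * (δ * Real.log R) ≤ (δ * X / 8) * (δ * Real.log R) := by gcongr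
        _ = δ ^ 2 * (Q / 8) := by rw [hQX]; ring
        _ ≤ 1 * (Q / 8) := by
          have hQ0 : 0 < Q := by rw [hQX]; positivity
          have : δ ^ 2 ≤ 1 := by nlinarith
          gcongr
        _ = Q / 8 := one_mul _
    · rw [← hQX] at hkey
      unfold kap
      exact hkey
  · have h2 : 512 * K ^ 2 / (δ * kap δ) ≤ X := by linarith
    rw [div_le_iff₀ (by positivity)] at h2
    have h3 : (X / 8) ^ 2 ≤ (NN R Q : ℝ) ^ 2 := by gcongr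
    calc 4 * (2 * X / δ) * (K : ℝ) ^ 2 = X / (64 * δ) * (512 * K ^ 2) := by
          field_simp; ring
      _ ≤ X / (64 * δ) * (X * (δ * kap δ)) := by gcongr
      _ = kap δ * (X / 8) ^ 2 := by field_simp; ring
      _ ≤ kap δ * (NN R Q : ℝ) ^ 2 := by gcongr
  · have : (1 : ℝ) ≤ LL δ R Q := by linarith
    exact_mod_cast this

end AbcRad
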