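import Pool.Agent.Work.MP_a793bb_nt.Rad.Cost
import Pool.Agent.Work.MP_a793bb_nt.Rad.PowOmega
import Pool.Agent.Work.MP_a793bb_nt.TR.RadCount

/-!
# Solutions of small height

Proof. Let `X = ⌊R ^ C0⌋₊` (so `c = a + b ≤ X`), `Z = R ^ (2 / 3)`. `a, b, c` are pairwise coprime
so `rad a * rad b * rad c ≤ R` and one of the products `rad a * rad b`, `rad b * rad c`,
`rad a * rad c` is at most `Z` (their product is `≤ R ^ 2`). So it is enough to bound, for each of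
the three injective maps `(a, b) ↦ (a, b), (b, c), (a, c)`, the number of pairs `(x, y)` with
`1 ≤ x, y ≤ X`, `rad x * rad y ≤ Z`. By `AbcTR.card_rad_eq_le` (in `TR/RadCount.lean`, with
`AbcTR.rad` which is the same function) with `ε' = η / (4 (C0 + 1))` there are at most
`C X ^ ε'` values of `x` with a given radical `u`, and the same for `y`, so at most
`C ^ 2 X ^ (2 ε') #{(u, v) : u v ≤ Z} ≤ C ^ 2 X ^ (2 ε') Z (1 + log Z)`, and
`X ^ (2 ε') ≤ R ^ (η / 2)`, `1 + log Z ≤ C' R ^ (η / 2)`.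
-/

set_option autoImplicit false

namespace AbcRad

private theorem small_H (Z : ℝ) (hZ : 1 ≤ Z) :
    ((((Finset.Icc 1 ⌊Z⌋₊ ×ˢ Finset.Icc 1 ⌊Z⌋₊).filter
      (fun q : ℕ × ℕ => q.1 * q.2 ≤ ⌊Z⌋₊)).card : ℕ) : ℝ) ≤ Z * (1 + Real.log Z) := by
  have hZ0 : 0 ≤ Z := by linarith
  have hfl : ((⌊Z⌋₊ : ℕ) : ℝ) ≤ Z := Nat.floor_le hZ0
  rw [Finset.card_eq_sum_ones, Finset.sum_filter, Finset.sum_product]
  push_cast
  have hin : ∀ u ∈ Finset.Icc 1 ⌊Z⌋₊,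
      ∑ v ∈ Finset.Icc 1 ⌊Z⌋₊, (if u * v ≤ ⌊Z⌋₊ then (1 : ℝ) else 0) ≤ Z * (u : ℝ)⁻¹ := by
    intro u hu
    rw [Finset.mem_Icc] at hu
    have hu0 : 0 < u := hu.1
    rw [← Finset.sum_filter, Finset.sum_const, nsmul_eq_mul, mul_one]
    have hsub : (Finset.Icc 1 ⌊Z⌋₊).filter (fun v => u * v ≤ ⌊Z⌋₊) ⊆
        Finset.Icc 1 (⌊Z⌋₊ / u) := by
      intro v hv
      rw [Finset.mem_filter, Finset.mem_Icc] at hv
      rw [Finset.mem_Icc, Nat.le_div_iff_mul_le hu0, mul_comm]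
      exact ⟨hv.1.1, hv.2⟩
    have h1 := Finset.card_le_card hsub
    rw [Nat.card_Icc, Nat.add_sub_cancel] at h1
    calc ((((Finset.Icc 1 ⌊Z⌋₊).filter (fun v => u * v ≤ ⌊Z⌋₊)).card : ℕ) : ℝ)
        ≤ ((⌊Z⌋₊ / u : ℕ) : ℝ) := by exact_mod_cast h1
      _ ≤ (⌊Z⌋₊ : ℝ) / u := Nat.cast_div_le
      _ ≤ Z * (u : ℝ)⁻¹ := by
          rw [div_eq_mul_inv]
          exact mul_le_mul_of_nonneg_right hfl (by positivity)
  refine (Finset.sum_le_sum hin).trans ?_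
  rw [← Finset.mul_sum]
  refine mul_le_mul_of_nonneg_left ?_ hZ0
  have h3 := harmonic_floor_le_one_add_log Z hZ
  rw [harmonic_eq_sum_Icc] at h3
  push_cast at h3
  exact h3

private theorem small_G {C ε : ℝ} (hC : 1 ≤ C)
    (h : ∀ X r : ℕ, 1 ≤ X →
      (((Finset.Icc 1 X).filter (fun n => rad n = r)).card : ℝ) ≤ C * (X : ℝ) ^ ε)
    (X : ℕ) (hX : 1 ≤ X) (Z : ℝ) (hZ : 1 ≤ Z) :
    ((((Finset.Icc 1 X ×ˢ Finset.Icc 1 X).filter
      (fun q : ℕ × ℕ => rad q.1 * rad q.2 ≤ ⌊Z⌋₊)).card : ℕ) : ℝ) ≤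
      (C * (X : ℝ) ^ ε) ^ 2 * (Z * (1 + Real.log Z)) := by
  have hmaps : ∀ q ∈ (Finset.Icc 1 X ×ˢ Finset.Icc 1 X).filter
      (fun q : ℕ × ℕ => rad q.1 * rad q.2 ≤ ⌊Z⌋₊),
      (rad q.1, rad q.2) ∈ (Finset.Icc 1 ⌊Z⌋₊ ×ˢ Finset.Icc 1 ⌊Z⌋₊).filter
        (fun q : ℕ × ℕ => q.1 * q.2 ≤ ⌊Z⌋₊) := by
    intro q hq
    rw [Finset.mem_filter] at hq
    have h1 := rad_pos q.1
    have h2 := rad_pos q.2
    rw [Finset.mem_filter, Finset.mem_product, Finset.mem_Icc, Finset.mem_Icc]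
    refine ⟨⟨⟨h1, ?_⟩, ⟨h2, ?_⟩⟩, hq.2⟩
    · exact (Nat.le_mul_of_pos_right _ h2).trans hq.2
    · exact (Nat.le_mul_of_pos_left _ h1).trans hq.2
  rw [Finset.card_eq_sum_card_fiberwise hmaps]
  push_cast
  have hX0 : 0 ≤ C * (X : ℝ) ^ ε := by positivity
  have hfib : ∀ w ∈ (Finset.Icc 1 ⌊Z⌋₊ ×ˢ Finset.Icc 1 ⌊Z⌋₊).filter
        (fun q : ℕ × ℕ => q.1 * q.2 ≤ ⌊Z⌋₊),
      (((((Finset.Icc 1 X ×ˢ Finset.Icc 1 X).filter
        (fun q : ℕ × ℕ => rad q.1 * rad q.2 ≤ ⌊Z⌋₊)).filter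
          (fun q => (rad q.1, rad q.2) = w)).card : ℕ) : ℝ) ≤ (C * (X : ℝ) ^ ε) ^ 2 := by
    intro w _
    have hsub : ((Finset.Icc 1 X ×ˢ Finset.Icc 1 X).filter
        (fun q : ℕ × ℕ => rad q.1 * rad q.2 ≤ ⌊Z⌋₊)).filter (fun q => (rad q.1, rad q.2) = w) ⊆
        ((Finset.Icc 1 X).filter (fun n => rad n = w.1)) ×ˢ
          ((Finset.Icc 1 X).filter (fun n => rad n = w.2)) := by
      intro q hq
      rw [Finset.mem_filter, Finset.mem_filter, Finset.mem_product] at hq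
      rw [Finset.mem_product, Finset.mem_filter, Finset.mem_filter]
      have h3 := hq.2
      exact ⟨⟨hq.1.1.1, congrArg Prod.fst h3⟩, ⟨hq.1.1.2, congrArg Prod.snd h3⟩⟩
    have h4 := Finset.card_le_card hsub
    rw [Finset.card_product] at h4
    calc _ ≤ ((((Finset.Icc 1 X).filter (fun n => rad n = w.1)).card *
          ((Finset.Icc 1 X).filter (fun n => rad n = w.2)).card : ℕ) : ℝ) := by exact_mod_cast h4
      _ = (((Finset.Icc 1 X).filter (fun n => rad n = w.1)).card : ℝ) *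
          (((Finset.Icc 1 X).filter (fun n => rad n = w.2)).card : ℝ) := by push_cast; rfl
      _ ≤ (C * (X : ℝ) ^ ε) * (C * (X : ℝ) ^ ε) :=
          mul_le_mul (h X _ hX) (h X _ hX) (by positivity) hX0
      _ = (C * (X : ℝ) ^ ε) ^ 2 := by ring
  refine (Finset.sum_le_sum hfib).trans ?_
  rw [Finset.sum_const, nsmul_eq_mul, mul_comm]
  exact mul_le_mul_of_nonneg_left (small_H Z hZ) (by positivity)

private theorem small_mem {R : ℝ} (hR : 2 ≤ R) {a b : ℕ} (ha : 0 < a) (hb : 0 < b)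
    (hab : Nat.Coprime a b) (hr : (rad (a * b * (a + b)) : ℝ) ≤ R) :
    rad a * rad b ≤ ⌊R ^ (2 / 3 : ℝ)⌋₊ ∨ rad b * rad (a + b) ≤ ⌊R ^ (2 / 3 : ℝ)⌋₊ ∨
      rad a * rad (a + b) ≤ ⌊R ^ (2 / 3 : ℝ)⌋₊ := by
  have hR0 : (0 : ℝ) < R := by linarith
  have hac : Nat.Coprime a (a + b) := by simpa using hab
  have hbc : Nat.Coprime b (a + b) := by simpa using hab.symm
  rw [rad_mul _ _ (Nat.Coprime.mul_left hac hbc), rad_mul _ _ hab] at hr
  push_cast at hr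
  have h1 : (0 : ℝ) < rad a := by exact_mod_cast rad_pos a
  have h2 : (0 : ℝ) < rad b := by exact_mod_cast rad_pos b
  have h3 : (0 : ℝ) < rad (a + b) := by exact_mod_cast rad_pos (a + b)
  set Z : ℝ := R ^ (2 / 3 : ℝ) with hZ
  have hZ0 : 0 ≤ Z := by positivity
  have hZ3 : Z ^ 3 = R ^ 2 := by
    rw [hZ, ← Real.rpow_natCast (R ^ (2 / 3 : ℝ)) 3, ← Real.rpow_mul hR0.le,
      ← Real.rpow_natCast R 2]
    norm_num
  by_contra hcon
  push Not at hcon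
  obtain ⟨c1, c2, c3⟩ := hcon
  rw [Nat.floor_lt hZ0] at c1 c2 c3
  push_cast at c1 c2 c3
  have e1 : Z * Z < (rad a * rad b) * (rad b * rad (a + b)) :=
    mul_lt_mul'' c1 c2 hZ0 hZ0
  have e2 : Z * Z * Z < (rad a * rad b) * (rad b * rad (a + b)) * (rad a * rad (a + b)) :=
    mul_lt_mul'' e1 c3 (by positivity) hZ0
  have e3 : ((rad a : ℝ) * rad b * rad (a + b)) ^ 2 ≤ R ^ 2 :=
    pow_le_pow_left₀ (by positivity) hr 2
  nlinarith

theorem small_count (η : ℝ) (hη : 0 < η) (C0 : ℝ) (hC0 : 1 ≤ C0) :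
    ∃ C : ℝ, 0 ≤ C ∧ ∀ R : ℝ, 2 ≤ R →
      {p : ℕ × ℕ | 0 < p.1 ∧ 0 < p.2 ∧ Nat.Coprime p.1 p.2 ∧
        (rad (p.1 * p.2 * (p.1 + p.2)) : ℝ) ≤ R ∧
        Real.log ((p.1 + p.2 : ℕ) : ℝ) ≤ C0 * Real.log R}.Finite ∧
      ({p : ℕ × ℕ | 0 < p.1 ∧ 0 < p.2 ∧ Nat.Coprime p.1 p.2 ∧
        (rad (p.1 * p.2 * (p.1 + p.2)) : ℝ) ≤ R ∧
        Real.log ((p.1 + p.2 : ℕ) : ℝ) ≤ C0 * Real.log R}.ncard : ℝ) ≤
          C * R ^ (2 / 3 + η) := by
  have hC0' : 0 < C0 := by linarith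
  obtain ⟨C, hC, h⟩ := AbcTR.card_rad_eq_le (ε := η / (4 * C0)) (by positivity)
  refine ⟨3 * (C ^ 2 * (1 + 2 / η)), by positivity, fun R hR => ?_⟩
  have hR0 : (0 : ℝ) < R := by linarith
  have hR1 : (1 : ℝ) ≤ R := by linarith
  obtain ⟨X, hXdef⟩ : ∃ X : ℕ, X = ⌊R ^ C0⌋₊ := ⟨_, rfl⟩
  have hRC : (1 : ℝ) ≤ R ^ C0 := Real.one_le_rpow hR1 hC0'.le
  have hX : 1 ≤ X := by
    rw [hXdef]
    exact Nat.le_floor (by exact_mod_cast hRC)
  set Z : ℝ := R ^ (2 / 3 : ℝ) with hZdef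
  have hZ : 1 ≤ Z := Real.one_le_rpow hR1 (by norm_num)
  obtain ⟨G, hG⟩ : ∃ G : Finset (ℕ × ℕ), G = (Finset.Icc 1 X ×ˢ Finset.Icc 1 X).filter
      (fun q : ℕ × ℕ => rad q.1 * rad q.2 ≤ ⌊Z⌋₊) := ⟨_, rfl⟩
  have hGmem : ∀ x y : ℕ, 0 < x → 0 < y → x ≤ X → y ≤ X → rad x * rad y ≤ ⌊Z⌋₊ → (x, y) ∈ G := by
    intro x y hx hy hx' hy' hr
    rw [hG, Finset.mem_filter, Finset.mem_product, Finset.mem_Icc, Finset.mem_Icc]
    exact ⟨⟨⟨hx, hx'⟩, ⟨hy, hy'⟩⟩, hr⟩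
  have hsub : {p : ℕ × ℕ | 0 < p.1 ∧ 0 < p.2 ∧ Nat.Coprime p.1 p.2 ∧
        (rad (p.1 * p.2 * (p.1 + p.2)) : ℝ) ≤ R ∧
        Real.log ((p.1 + p.2 : ℕ) : ℝ) ≤ C0 * Real.log R} ⊆
      ((G ∪ (G.image (fun q => (q.2 - q.1, q.1)) ∪ G.image (fun q => (q.1, q.2 - q.1))) :
        Finset (ℕ × ℕ)) : Set (ℕ × ℕ)) := by
    rintro ⟨a, b⟩ ⟨ha, hb, hab, hr, hl⟩
    simp only at ha hb hab hr hl
    have hs : a + b ≤ X := by
      rw [hXdef]
      apply Nat.le_floor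
      have h5 : (0 : ℝ) < ((a + b : ℕ) : ℝ) := by exact_mod_cast (by omega : 0 < a + b)
      rw [← Real.log_le_log_iff h5 (by positivity), Real.log_rpow hR0]
      exact hl
    rw [Finset.mem_coe, Finset.mem_union, Finset.mem_union]
    rcases small_mem hR ha hb hab hr with h1 | h1 | h1
    · exact Or.inl (hGmem a b ha hb (by omega) (by omega) h1)
    · refine Or.inr (Or.inl (Finset.mem_image.2 ⟨(b, a + b), ?_, ?_⟩))
      · exact hGmem b (a + b) hb (by omega) (by omega) hs h1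
      · simp
    · refine Or.inr (Or.inr (Finset.mem_image.2 ⟨(a, a + b), ?_, ?_⟩))
      · exact hGmem a (a + b) ha (by omega) (by omega) hs h1
      · simp
  refine ⟨Set.Finite.subset (Finset.finite_toSet _) hsub, ?_⟩
  have h6 := Set.ncard_le_ncard hsub (Finset.finite_toSet _)
  rw [Set.ncard_coe_finset] at h6
  have h7 : (G ∪ (G.image (fun q => (q.2 - q.1, q.1)) ∪
      G.image (fun q => (q.1, q.2 - q.1)))).card ≤ 3 * G.card := by
    have e1 := Finset.card_union_le G (G.image (fun q => (q.2 - q.1, q.1)) ∪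
      G.image (fun q => (q.1, q.2 - q.1)))
    have e2 := Finset.card_union_le (G.image (fun q : ℕ × ℕ => (q.2 - q.1, q.1)))
      (G.image (fun q : ℕ × ℕ => (q.1, q.2 - q.1)))
    have e3 : (G.image (fun q : ℕ × ℕ => (q.2 - q.1, q.1))).card ≤ G.card := Finset.card_image_le
    have e4 : (G.image (fun q : ℕ × ℕ => (q.1, q.2 - q.1))).card ≤ G.card := Finset.card_image_le
    omega
  have h8 : (G.card : ℝ) ≤ (C * (X : ℝ) ^ (η / (4 * C0))) ^ 2 * (Z * (1 + Real.log Z)) := by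
    rw [hG]
    exact small_G hC h X hX Z hZ
  have h9 : ((X : ℝ) ^ (η / (4 * C0))) ^ 2 ≤ R ^ (η / 2) := by
    have e1 : (X : ℝ) ≤ R ^ C0 := by
      rw [hXdef]
      exact Nat.floor_le (by positivity)
    have e2 : (X : ℝ) ^ (η / (4 * C0)) ≤ R ^ (η / 4) := by
      refine (Real.rpow_le_rpow (by positivity) e1 (by positivity)).trans (le_of_eq ?_)
      rw [← Real.rpow_mul hR0.le]
      congr 1
      field_simp
    calc ((X : ℝ) ^ (η / (4 * C0))) ^ 2 ≤ (R ^ (η / 4)) ^ 2 :=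
          pow_le_pow_left₀ (by positivity) e2 2
      _ = R ^ (η / 2) := by
          rw [pow_two, ← Real.rpow_add hR0]
          congr 1
          ring
  have hRη : 1 ≤ R ^ (η / 2) := Real.one_le_rpow hR1 (by positivity)
  have h10 : 1 + Real.log Z ≤ (1 + 2 / η) * R ^ (η / 2) := by
    have e1 : Real.log Z ≤ Real.log R := by
      rw [hZdef, Real.log_rpow hR0]
      have := Real.log_nonneg hR1
      linarith
    have e2 : Real.log R ≤ 2 / η * R ^ (η / 2) := by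
      have := Real.log_le_rpow_div hR0.le (ε := η / 2) (by positivity)
      refine this.trans (le_of_eq ?_)
      field_simp
    have e3 : (1 + 2 / η) * R ^ (η / 2) = R ^ (η / 2) + 2 / η * R ^ (η / 2) := by ring
    rw [e3]
    linarith
  have hZ0 : 0 ≤ Z := by linarith
  calc _ ≤ ((3 * G.card : ℕ) : ℝ) := by exact_mod_cast h6.trans h7
    _ = 3 * (G.card : ℝ) := by push_cast; rfl
    _ ≤ 3 * ((C * (X : ℝ) ^ (η / (4 * C0))) ^ 2 * (Z * (1 + Real.log Z))) := by linarith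
    _ = 3 * (C ^ 2 * (((X : ℝ) ^ (η / (4 * C0))) ^ 2 * (Z * (1 + Real.log Z)))) := by ring
    _ ≤ 3 * (C ^ 2 * (R ^ (η / 2) * (Z * ((1 + 2 / η) * R ^ (η / 2))))) := by
        have hl : 0 ≤ 1 + Real.log Z := by
          have := Real.log_nonneg hZ
          linarith
        have i1 : Z * (1 + Real.log Z) ≤ Z * ((1 + 2 / η) * R ^ (η / 2)) :=
          mul_le_mul_of_nonneg_left h10 hZ0
        have i2 : ((X : ℝ) ^ (η / (4 * C0))) ^ 2 * (Z * (1 + Real.log Z)) ≤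
            R ^ (η / 2) * (Z * ((1 + 2 / η) * R ^ (η / 2))) :=
          mul_le_mul h9 i1 (by positivity) (by positivity)
        have i3 := mul_le_mul_of_nonneg_left i2 (by positivity : (0 : ℝ) ≤ C ^ 2)
        linarith
    _ = 3 * (C ^ 2 * (1 + 2 / η)) * (Z * R ^ (η / 2) * R ^ (η / 2)) := by ring
    _ = 3 * (C ^ 2 * (1 + 2 / η)) * R ^ (2 / 3 + η) := by
        rw [hZdef, ← Real.rpow_add hR0, ← Real.rpow_add hR0]
        congr 2
        ring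

end AbcRad
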