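import Pool.Agent.Work.MP_a793bb_nt.Rad.PowOmega

/-!
# The two label counts

Proofs. `sum_P_le`: `Y = R ^ (2 / 3 + 4 δ)`, by `pow_omega` with `η = δ / 2`,
`A ^ ω(D) ≤ C D ^ (δ / 2) ≤ C Y ^ (δ / 2)`; then `sum_pairs`, and
`Y ^ (δ / 2) (1 + log Y) ≤ C' R ^ (2 δ)`: `Y ^ (δ / 2) ≤ R ^ δ` (as `2 / 3 + 4 δ ≤ 2`) and
`log Y ≤ 2 log R ≤ (2 / δ) R ^ δ`. Total: `C'' R ^ (2 / 3 + 4 δ + 2 δ)`.
`sum_R_le`: `∑_{D ≤ Y} A ^ ω(D) ≤ C Y ^ (1 + δ / 2) ≤ C Y R ^ δ`, and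
`4 R ^ δ (log R + 1) + 2 ≤ C' R ^ (2 δ)`. Total: `C'' R ^ (2 / 3 + 4 δ + 3 δ)`.
-/

set_option autoImplicit false

namespace AbcRad

open Finset

private theorem sums_aux (δ : ℝ) (hδ : 0 < δ) (hδ1 : δ ≤ 1 / 10) {R : ℝ} (hR : 2 ≤ R) :
    1 ≤ R ^ (2 / 3 + 4 * δ) ∧ (R ^ (2 / 3 + 4 * δ)) ^ (δ / 2) ≤ R ^ δ ∧
      Real.log (R ^ (2 / 3 + 4 * δ)) ≤ 2 * Real.log R ∧ Real.log R ≤ 1 / δ * R ^ δ ∧
      1 ≤ R ^ δ := by
  have hR1 : (1 : ℝ) ≤ R := by linarith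
  have hR0 : (0 : ℝ) < R := by linarith
  have hlog : 0 ≤ Real.log R := Real.log_nonneg hR1
  refine ⟨Real.one_le_rpow hR1 (by positivity), ?_, ?_, ?_, Real.one_le_rpow hR1 hδ.le⟩
  · rw [← Real.rpow_mul hR0.le]
    refine Real.rpow_le_rpow_of_exponent_le hR1 ?_
    nlinarith
  · rw [Real.log_rpow hR0]
    refine mul_le_mul_of_nonneg_right ?_ hlog
    linarith
  · have := Real.log_le_rpow_div hR0.le hδ
    rw [one_div, inv_mul_eq_div]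
    exact this

theorem sum_P_le (δ : ℝ) (hδ : 0 < δ) (hδ1 : δ ≤ 1 / 10) (A : ℕ) :
    ∃ C : ℝ, 1 ≤ C ∧ ∀ R : ℝ, 2 ≤ R →
      ∑ q ∈ pairs (R ^ (2 / 3 + 4 * δ)), ((A : ℝ) ^ (q.1.primeFactors.card) * (q.2 : ℝ)) ≤
        C * R ^ (2 / 3 + 6 * δ) := by
  obtain ⟨C0, hC0, h⟩ := pow_omega A (δ / 2) (by positivity)
  have hd : 0 < 1 / δ := by positivity
  refine ⟨C0 * (1 + 2 * (1 / δ)), ?_, fun R hR => ?_⟩
  · nlinarith
  obtain ⟨hY1, hYδ, hlY, hlR, hRδ⟩ := sums_aux δ hδ hδ1 hR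
  have hR0 : (0 : ℝ) < R := by linarith
  set Y : ℝ := R ^ (2 / 3 + 4 * δ) with hY
  have hY0 : 0 ≤ Y := by linarith
  have h1 : ∀ q ∈ pairs Y, (A : ℝ) ^ (q.1.primeFactors.card) * (q.2 : ℝ) ≤
      (C0 * R ^ δ) * (q.2 : ℝ) := by
    intro q hq
    rw [pairs, mem_filter, mem_product, mem_Icc, mem_Icc] at hq
    refine mul_le_mul_of_nonneg_right ?_ (by positivity)
    refine (h q.1 hq.1.1.1).trans ?_
    refine mul_le_mul_of_nonneg_left ?_ (by linarith)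
    have h2 : (q.1 : ℝ) ≤ Y := by
      have : (q.1 : ℝ) ≤ (⌊Y⌋₊ : ℝ) := by exact_mod_cast hq.1.1.2
      exact this.trans (Nat.floor_le hY0)
    exact (Real.rpow_le_rpow (by positivity) h2 (by positivity)).trans hYδ
  calc ∑ q ∈ pairs Y, ((A : ℝ) ^ (q.1.primeFactors.card) * (q.2 : ℝ))
      ≤ ∑ q ∈ pairs Y, (C0 * R ^ δ) * (q.2 : ℝ) := sum_le_sum h1
    _ = (C0 * R ^ δ) * ∑ q ∈ pairs Y, (q.2 : ℝ) := by rw [mul_sum]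
    _ ≤ (C0 * R ^ δ) * (Y * (1 + Real.log Y)) := by
        exact mul_le_mul_of_nonneg_left (sum_pairs Y hY1) (by positivity)
    _ ≤ (C0 * R ^ δ) * (Y * ((1 + 2 * (1 / δ)) * R ^ δ)) := by
        refine mul_le_mul_of_nonneg_left (mul_le_mul_of_nonneg_left ?_ hY0) (by positivity)
        linarith
    _ = C0 * (1 + 2 * (1 / δ)) * (Y * R ^ δ * R ^ δ) := by ring
    _ = C0 * (1 + 2 * (1 / δ)) * R ^ (2 / 3 + 6 * δ) := by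
        rw [hY, ← Real.rpow_add hR0, ← Real.rpow_add hR0]
        congr 2
        ring

theorem sum_R_le (δ : ℝ) (hδ : 0 < δ) (hδ1 : δ ≤ 1 / 10) (A : ℕ) :
    ∃ C : ℝ, 1 ≤ C ∧ ∀ R : ℝ, 2 ≤ R →
      (∑ D ∈ Icc 1 ⌊R ^ (2 / 3 + 4 * δ)⌋₊, (A : ℝ) ^ (D.primeFactors.card)) *
        (4 * R ^ δ * (Real.log R + 1) + 2) ≤ C * R ^ (2 / 3 + 7 * δ) := by
  obtain ⟨C0, hC0, h⟩ := pow_omega A (δ / 2) (by positivity)
  have hd : 0 < 1 / δ := by positivity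
  refine ⟨C0 * (4 * (1 / δ) + 6), ?_, fun R hR => ?_⟩
  · nlinarith
  obtain ⟨hY1, hYδ, hlY, hlR, hRδ⟩ := sums_aux δ hδ hδ1 hR
  have hR0 : (0 : ℝ) < R := by linarith
  have hlR0 : 0 ≤ Real.log R := Real.log_nonneg (by linarith)
  set Y : ℝ := R ^ (2 / 3 + 4 * δ) with hY
  have hY0 : 0 ≤ Y := by linarith
  have hfl : (⌊Y⌋₊ : ℝ) ≤ Y := Nat.floor_le hY0
  have h1 : ∑ D ∈ Icc 1 ⌊Y⌋₊, (A : ℝ) ^ (D.primeFactors.card) ≤ Y * (C0 * R ^ δ) := by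
    have h2 : ∀ D ∈ Icc 1 ⌊Y⌋₊, (A : ℝ) ^ (D.primeFactors.card) ≤ C0 * R ^ δ := by
      intro D hD
      rw [mem_Icc] at hD
      refine (h D hD.1).trans ?_
      refine mul_le_mul_of_nonneg_left ?_ (by linarith)
      have h2 : (D : ℝ) ≤ Y := by
        have : (D : ℝ) ≤ (⌊Y⌋₊ : ℝ) := by exact_mod_cast hD.2
        exact this.trans hfl
      exact (Real.rpow_le_rpow (by positivity) h2 (by positivity)).trans hYδ
    refine (sum_le_sum h2).trans ?_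
    rw [sum_const, Nat.card_Icc, nsmul_eq_mul, Nat.add_sub_cancel]
    exact mul_le_mul_of_nonneg_right hfl (by positivity)
  have h3 : 4 * R ^ δ * (Real.log R + 1) + 2 ≤ (4 * (1 / δ) + 6) * (R ^ δ * R ^ δ) := by
    have h4 : R ^ δ * (Real.log R + 1) ≤ R ^ δ * ((1 / δ) * R ^ δ + R ^ δ) :=
      mul_le_mul_of_nonneg_left (by linarith) (by positivity)
    have h5 : 1 ≤ R ^ δ * R ^ δ := by nlinarith
    nlinarith
  calc (∑ D ∈ Icc 1 ⌊Y⌋₊, (A : ℝ) ^ (D.primeFactors.card)) * (4 * R ^ δ * (Real.log R + 1) + 2)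
      ≤ (Y * (C0 * R ^ δ)) * ((4 * (1 / δ) + 6) * (R ^ δ * R ^ δ)) := by
        refine mul_le_mul h1 h3 (by positivity) (by positivity)
    _ = C0 * (4 * (1 / δ) + 6) * (Y * R ^ δ * R ^ δ * R ^ δ) := by ring
    _ = C0 * (4 * (1 / δ) + 6) * R ^ (2 / 3 + 7 * δ) := by
        rw [hY, ← Real.rpow_add hR0, ← Real.rpow_add hR0, ← Real.rpow_add hR0]
        congr 2
        ring

end AbcRad
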