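import Pool.Agent.Work.MP_a793bb_nt.Rad.Defs

/-!
# Elementary properties of `thetaE`

Proofs. `theta_X_pow`: for `a = 1`, `thetaE 0 (X ^ e * f) = X * (e X ^ (e - 1) f + X ^ e f')`
`= X ^ e * (X f' + e f) = X ^ e * thetaE e f` (case `e = 0` separately), then induction on `a`.
`theta_dvd`: `(X - C ξ) ^ m ∣ f` implies `(X - C ξ) ^ (m - 1) ∣ thetaE 0 f = X * f'`
(if `m = 0` trivial; if `f = (X - C ξ) ^ m * g` then
`f' = m (X - C ξ) ^ (m - 1) g + (X - C ξ) ^ m g'`); then induction on `a`.
`theta_sum` is linearity (`thetaE 0` is additive and commutes with `C c *`), by induction on `a`.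
-/

set_option autoImplicit false

namespace AbcRad

open Polynomial Finset

private theorem th_zero {F : Type*} [Field F] (g : F[X]) : thetaE 0 g = X * derivative g := by
  unfold thetaE
  rw [Nat.cast_zero, map_zero, zero_mul, add_zero]

theorem theta_X_pow {F : Type*} [Field F] (e a : ℕ) (f : F[X]) :
    (thetaE 0)^[a] (X ^ e * f) = X ^ e * (thetaE e)^[a] f := by
  have key : ∀ g : F[X], thetaE 0 (X ^ e * g) = X ^ e * thetaE e g := by
    intro g
    unfold thetaE
    rcases e with _ | e
    · simp
    · rw [derivative_mul, derivative_X_pow]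
      push_cast
      simp only [map_add, map_natCast, map_one, map_zero]
      ring
  induction a generalizing f with
  | zero => rfl
  | succ a ih =>
    rw [Function.iterate_succ_apply, Function.iterate_succ_apply, key, ih]

theorem theta_dvd {F : Type*} [Field F] (ξ : F) (m a : ℕ) (f : F[X]) (h : (X - C ξ) ^ m ∣ f) :
    (X - C ξ) ^ (m - a) ∣ (thetaE 0)^[a] f := by
  induction a with
  | zero => exact h
  | succ a ih =>
    rw [Function.iterate_succ_apply']
    have h1 := Polynomial.pow_sub_one_dvd_derivative_of_pow_dvd ih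
    have h2 : m - (a + 1) = m - a - 1 := by omega
    rw [h2, th_zero]
    exact h1.mul_left _

theorem theta_sum {F : Type*} [Field F] {ι : Type*} (S : Finset ι) (c : ι → F) (f : ι → F[X])
    (a : ℕ) :
    (thetaE 0)^[a] (∑ i ∈ S, C (c i) * f i) = ∑ i ∈ S, C (c i) * (thetaE 0)^[a] (f i) := by
  induction a generalizing f with
  | zero => rfl
  | succ a ih =>
    have key : thetaE 0 (∑ i ∈ S, C (c i) * f i) = ∑ i ∈ S, C (c i) * thetaE 0 (f i) := by
      rw [th_zero, derivative_sum, Finset.mul_sum]
      refine Finset.sum_congr rfl fun i _ => ?_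
      rw [th_zero, derivative_C_mul]
      ring
    rw [Function.iterate_succ_apply, key, ih]
    refine Finset.sum_congr rfl fun i _ => ?_
    rw [Function.iterate_succ_apply]

end AbcRad
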