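import Pool.Agent.Work.MP_a793bb_nt.Rad.Window
import Pool.Agent.Work.MP_a793bb_nt.Rad.Small

/-!
# The upper bound

Proof. Let `δ = min (ε / 16) (1 / 10)`, `R0, C0, C1` from `window_count`, `C2` from
`small_count (δ)` with this `C0`. For `R ≥ R0` let `Q_i = 2 ^ i C0 log R`. A solution with
`log (a + b) ≤ C0 log R` is counted by `small_count`; otherwise
`Q_i < log (a + b) ≤ 2 Q_i` for the `i ≥ 0` with `2 ^ i < log (a + b) / (C0 log R) ≤ 2 ^ (i + 1)`,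
and `log (a + b) ≤ exp (R ^ (ε / 2))`, `C0 log R ≥ log 2`, `2 ^ i < exp (R ^ (ε / 2)) / log 2`, so
`i ≤ i_max := ⌊2 R ^ (ε / 2) + 2⌋₊` (`exp t / log 2 ≤ 2 ^ (2 t + 1)`, as `exp 1 ≤ 4`,
`1 / log 2 ≤ 2`). So the number is at most
`C2 R ^ (2 / 3 + δ) + (2 R ^ (ε / 2) + 3) C1 R ^ (2 / 3 + 7 δ) ≤ C R ^ (2 / 3 + ε)` because
`7 δ + ε / 2 ≤ ε`.
For `2 ≤ R < R0` the set is contained in `[1, X0]²`, `X0 = exp (exp (R0 ^ (ε / 2)))`, so its
cardinality is at most a constant.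
-/

set_option autoImplicit false

namespace AbcRad

private theorem exists_scale (x : ℝ) (K : ℕ) (hx : 1 < x) (hK : x ≤ 2 ^ K) :
    ∃ i < K, (2 : ℝ) ^ i < x ∧ x ≤ 2 ^ (i + 1) := by
  classical
  have hK0 : K ≠ 0 := by
    rintro rfl
    simp only [pow_zero] at hK
    linarith
  obtain ⟨k, rfl⟩ := Nat.exists_eq_succ_of_ne_zero hK0
  have hex : ∃ i : ℕ, x ≤ (2 : ℝ) ^ (i + 1) := ⟨k, hK⟩
  refine ⟨Nat.find hex, Nat.lt_succ_of_le (Nat.find_min' hex hK), ?_, Nat.find_spec hex⟩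
  rcases Nat.eq_zero_or_pos (Nat.find hex) with h0 | h0
  · rw [h0, pow_zero]
    exact hx
  · have h1 := Nat.find_min hex (show Nat.find hex - 1 < Nat.find hex by omega)
    rw [show Nat.find hex - 1 + 1 = Nat.find hex by omega] at h1
    exact not_le.mp h1

private theorem exp_le_two (t : ℝ) (ht : 0 ≤ t) (K : ℕ) (hK : 2 * t + 1 ≤ K) :
    2 * Real.exp t ≤ 2 ^ K := by
  have h1 : Real.exp t ≤ (2 : ℝ) ^ (2 * t) := by
    rw [Real.rpow_def_of_pos (by norm_num)]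
    apply Real.exp_le_exp.mpr
    have h2 := Real.log_two_gt_d9
    nlinarith
  have h3 : (2 : ℝ) ^ K = (2 : ℝ) ^ (K : ℝ) := (Real.rpow_natCast 2 K).symm
  rw [h3]
  calc 2 * Real.exp t ≤ (2 : ℝ) ^ (1 : ℝ) * (2 : ℝ) ^ (2 * t) := by
        rw [Real.rpow_one]
        linarith
    _ = (2 : ℝ) ^ (1 + 2 * t) := by rw [Real.rpow_add (by norm_num)]
    _ ≤ (2 : ℝ) ^ (K : ℝ) := Real.rpow_le_rpow_of_exponent_le (by norm_num) (by linarith)

theorem upper (ε : ℝ) (hε : 0 < ε) :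
    ∃ C : ℝ, ∀ R : ℝ, 2 ≤ R →
      ({p : ℕ × ℕ | 0 < p.1 ∧ 0 < p.2 ∧ Nat.Coprime p.1 p.2 ∧
        (rad (p.1 * p.2 * (p.1 + p.2)) : ℝ) ≤ R ∧
        ((p.1 + p.2 : ℕ) : ℝ) ≤ Real.exp (Real.exp (R ^ (ε / 2)))}.ncard : ℝ) ≤
          C * R ^ (2 / 3 + ε) := by
  classical
  obtain ⟨δ, hδdef⟩ : ∃ δ : ℝ, δ = min (ε / 16) (1 / 10) := ⟨_, rfl⟩
  have hδ : 0 < δ := by
    rw [hδdef]
    exact lt_min (by linarith) (by norm_num)
  have hδ1 : δ ≤ 1 / 10 := by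
    rw [hδdef]
    exact min_le_right _ _
  have hδ2 : δ ≤ ε / 16 := by
    rw [hδdef]
    exact min_le_left _ _
  obtain ⟨R0, C0, C1, hR0, hC0, hC1, hwin⟩ := window_count δ hδ hδ1
  obtain ⟨C2, hC2, hsmall⟩ := small_count δ hδ C0 hC0
  obtain ⟨X0, hX0⟩ : ∃ X0 : ℕ, X0 = ⌊Real.exp (Real.exp (R0 ^ (ε / 2)))⌋₊ := ⟨_, rfl⟩
  refine ⟨C2 + 4 * C1 + ((X0 : ℝ) + 1) ^ 2, ?_⟩
  intro R hR
  have hR1 : 1 ≤ R := by linarith
  have hpow1 : 1 ≤ R ^ (2 / 3 + ε) := Real.one_le_rpow hR1 (by linarith)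
  rcases lt_or_ge R R0 with hRR | hRR
  · -- bounded range
    have hsub : {p : ℕ × ℕ | 0 < p.1 ∧ 0 < p.2 ∧ Nat.Coprime p.1 p.2 ∧
        (rad (p.1 * p.2 * (p.1 + p.2)) : ℝ) ≤ R ∧
        ((p.1 + p.2 : ℕ) : ℝ) ≤ Real.exp (Real.exp (R ^ (ε / 2)))} ⊆
        ((Finset.range (X0 + 1) ×ˢ Finset.range (X0 + 1) : Finset (ℕ × ℕ)) : Set (ℕ × ℕ)) := by
      rintro ⟨a, b⟩ ⟨-, -, -, -, h⟩
      have h1 : R ^ (ε / 2) ≤ R0 ^ (ε / 2) :=
        Real.rpow_le_rpow (by linarith) hRR.le (by linarith)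
      have h2 : ((a + b : ℕ) : ℝ) ≤ Real.exp (Real.exp (R0 ^ (ε / 2))) :=
        h.trans (Real.exp_le_exp.mpr (Real.exp_le_exp.mpr h1))
      have h3 : a + b ≤ X0 := by
        rw [hX0]
        exact Nat.le_floor h2
      rw [Finset.mem_coe, Finset.mem_product, Finset.mem_range, Finset.mem_range]
      constructor
      · show a < X0 + 1
        omega
      · show b < X0 + 1
        omega
    have h4 := Set.ncard_le_ncard hsub (Finset.finite_toSet _)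
    rw [Set.ncard_coe_finset, Finset.card_product, Finset.card_range] at h4
    have h5 : (({p : ℕ × ℕ | 0 < p.1 ∧ 0 < p.2 ∧ Nat.Coprime p.1 p.2 ∧
        (rad (p.1 * p.2 * (p.1 + p.2)) : ℝ) ≤ R ∧
        ((p.1 + p.2 : ℕ) : ℝ) ≤ Real.exp (Real.exp (R ^ (ε / 2)))}.ncard : ℕ) : ℝ) ≤
        ((X0 + 1) * (X0 + 1) : ℕ) := Nat.cast_le.mpr h4
    refine h5.trans ?_
    push_cast
    have h6 : 0 ≤ ((X0 : ℝ) + 1) ^ 2 := by positivity
    nlinarith [mul_nonneg hC2 (by linarith : (0 : ℝ) ≤ R ^ (2 / 3 + ε)),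
      mul_nonneg hC1 (by linarith : (0 : ℝ) ≤ R ^ (2 / 3 + ε)),
      mul_le_mul_of_nonneg_left hpow1 h6]
  · -- main range
    have hlogR : 1 / 2 ≤ Real.log R := by
      have h1 := Real.log_two_gt_d9
      have h2 : Real.log 2 ≤ Real.log R := Real.log_le_log (by norm_num) hR
      linarith
    have hlogR0 : 0 < Real.log R := by linarith
    obtain ⟨t, ht⟩ : ∃ t : ℝ, t = R ^ (ε / 2) := ⟨_, rfl⟩
    have ht1 : 1 ≤ t := by
      rw [ht]
      exact Real.one_le_rpow hR1 (by linarith)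
    obtain ⟨K, hK⟩ : ∃ K : ℕ, K = ⌈2 * t + 1⌉₊ := ⟨_, rfl⟩
    have hK1 : 2 * t + 1 ≤ K := by
      rw [hK]
      exact Nat.le_ceil _
    have hK2 : (K : ℝ) ≤ 4 * t := by
      have h1 : (K : ℝ) < 2 * t + 1 + 1 := by
        rw [hK]
        exact Nat.ceil_lt_add_one (by linarith)
      linarith
    obtain ⟨hsf, hsc⟩ := hsmall R hR
    have hC0R : 0 < C0 * Real.log R := mul_pos (by linarith) hlogR0
    have hQi : ∀ i : ℕ, C0 * Real.log R ≤ 2 ^ i * (C0 * Real.log R) := by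
      intro i
      exact le_mul_of_one_le_left hC0R.le (one_le_pow₀ (by norm_num))
    have hwi : ∀ i : ℕ, (wset R (2 ^ i * (C0 * Real.log R))).Finite := fun i =>
      (hwin R _ hRR (hQi i)).1
    have hsub : {p : ℕ × ℕ | 0 < p.1 ∧ 0 < p.2 ∧ Nat.Coprime p.1 p.2 ∧
        (rad (p.1 * p.2 * (p.1 + p.2)) : ℝ) ≤ R ∧
        ((p.1 + p.2 : ℕ) : ℝ) ≤ Real.exp (Real.exp (R ^ (ε / 2)))} ⊆
        ((hsf.toFinset ∪ (Finset.range K).biUnion (fun i => (hwi i).toFinset) :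
          Finset (ℕ × ℕ)) : Set (ℕ × ℕ)) := by
      rintro ⟨a, b⟩ ⟨ha, hb, hc, hr, h⟩
      rw [Finset.mem_coe, Finset.mem_union]
      rcases le_or_gt (Real.log ((a + b : ℕ) : ℝ)) (C0 * Real.log R) with hl | hl
      · left
        rw [Set.Finite.mem_toFinset]
        exact ⟨ha, hb, hc, hr, hl⟩
      · right
        have hpos : (0 : ℝ) < ((a + b : ℕ) : ℝ) := by
          have : 0 < a + b := Nat.add_pos_left ha b
          exact_mod_cast this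
        have h1 : Real.log ((a + b : ℕ) : ℝ) ≤ Real.exp t := by
          rw [ht]
          exact (Real.log_le_iff_le_exp hpos).mpr h
        have hx1 : 1 < Real.log ((a + b : ℕ) : ℝ) / (C0 * Real.log R) := by
          rw [lt_div_iff₀ hC0R, one_mul]
          exact hl
        have hx2 : Real.log ((a + b : ℕ) : ℝ) / (C0 * Real.log R) ≤ 2 ^ K := by
          rw [div_le_iff₀ hC0R]
          have h2 := exp_le_two t (by linarith) K hK1
          have h3 : (1 : ℝ) / 2 ≤ C0 * Real.log R := by nlinarith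
          have h4 : (0 : ℝ) < 2 ^ K := by positivity
          nlinarith
        obtain ⟨i, hi, h5, h6⟩ := exists_scale _ K hx1 hx2
        rw [Finset.mem_biUnion]
        refine ⟨i, Finset.mem_range.mpr hi, ?_⟩
        rw [Set.Finite.mem_toFinset]
        refine ⟨ha, hb, hc, hr, ?_, ?_⟩
        · rw [lt_div_iff₀ hC0R] at h5
          exact h5
        · rw [div_le_iff₀ hC0R, pow_succ] at h6
          show Real.log ((a + b : ℕ) : ℝ) ≤ 2 * (2 ^ i * (C0 * Real.log R))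
          linarith
    have h4 := Set.ncard_le_ncard hsub (Finset.finite_toSet _)
    rw [Set.ncard_coe_finset] at h4
    have h5 := h4.trans ((Finset.card_union_le _ _).trans
      (Nat.add_le_add_left Finset.card_biUnion_le _))
    have h6 : (({p : ℕ × ℕ | 0 < p.1 ∧ 0 < p.2 ∧ Nat.Coprime p.1 p.2 ∧
        (rad (p.1 * p.2 * (p.1 + p.2)) : ℝ) ≤ R ∧
        ((p.1 + p.2 : ℕ) : ℝ) ≤ Real.exp (Real.exp (R ^ (ε / 2)))}.ncard : ℕ) : ℝ) ≤
        ((hsf.toFinset.card + ∑ i ∈ Finset.range K, ((hwi i).toFinset).card : ℕ) : ℝ) :=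
      Nat.cast_le.mpr h5
    refine h6.trans ?_
    obtain ⟨A, hA⟩ : ∃ A : ℕ, A = hsf.toFinset.card := ⟨_, rfl⟩
    have hA2 : (A : ℝ) ≤ C2 * R ^ (2 / 3 + δ) := by
      rw [hA, ← Set.ncard_eq_toFinset_card _ hsf]
      exact hsc
    rw [← hA, Nat.cast_add, Nat.cast_sum]
    have h7 : ∑ i ∈ Finset.range K, (((hwi i).toFinset).card : ℝ) ≤
        ∑ i ∈ Finset.range K, C1 * R ^ (2 / 3 + 7 * δ) := by
      refine Finset.sum_le_sum ?_
      intro i _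
      rw [← Set.ncard_eq_toFinset_card _ (hwi i)]
      exact (hwin R _ hRR (hQi i)).2
    rw [Finset.sum_const, Finset.card_range, nsmul_eq_mul] at h7
    have hb1 : R ^ (2 / 3 + δ) ≤ R ^ (2 / 3 + ε) :=
      Real.rpow_le_rpow_of_exponent_le hR1 (by linarith)
    have hb2 : t * R ^ (2 / 3 + 7 * δ) ≤ R ^ (2 / 3 + ε) := by
      rw [ht, ← Real.rpow_add (by linarith)]
      exact Real.rpow_le_rpow_of_exponent_le hR1 (by linarith)
    have hb3 : (0 : ℝ) ≤ R ^ (2 / 3 + 7 * δ) := Real.rpow_nonneg (by linarith) _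
    have h8 : (K : ℝ) * (C1 * R ^ (2 / 3 + 7 * δ)) ≤ 4 * C1 * R ^ (2 / 3 + ε) := by
      calc (K : ℝ) * (C1 * R ^ (2 / 3 + 7 * δ)) ≤ (4 * t) * (C1 * R ^ (2 / 3 + 7 * δ)) :=
            mul_le_mul_of_nonneg_right hK2 (mul_nonneg hC1 hb3)
        _ = 4 * C1 * (t * R ^ (2 / 3 + 7 * δ)) := by ring
        _ ≤ 4 * C1 * R ^ (2 / 3 + ε) := mul_le_mul_of_nonneg_left hb2 (by linarith)
    have h9 : C2 * R ^ (2 / 3 + δ) ≤ C2 * R ^ (2 / 3 + ε) := mul_le_mul_of_nonneg_left hb1 hC2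
    have h10 : 0 ≤ ((X0 : ℝ) + 1) ^ 2 * R ^ (2 / 3 + ε) := by positivity
    nlinarith

end AbcRad
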