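import Pool.Agent.Work.MP_a793bb_nt.Rad.Cover
import Pool.Agent.Work.MP_a793bb_nt.Rad.ParEx
import Pool.Agent.Work.MP_a793bb_nt.Rad.CountP
import Pool.Agent.Work.MP_a793bb_nt.Rad.CountR
import Pool.Agent.Work.MP_a793bb_nt.Rad.Sums

/-!
# The number of solutions in a window

Proof. `R0`, `C0` from `par_exists` (and `C0 ≥ 8`, so that `Q ≥ 4`; note `Par` contains `4 ≤ Q`). The window is finite
(`a + b ≤ exp (2 Q)`). Fix `R, Q`. By symmetry (`(a, b) ↦ (b, a)` preserves `wset R Q`), its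
cardinality is at most twice the number of its elements with `a ≤ b`. By `cover` each of these is
in one of the `4 KK δ` sets given by `h` and the kind; each of the maps `(a, b) ↦ (a, a + b)`,
`(a, b)`, `(b, a + b)` is injective, so `count_P` and `count_R` (for a finite set `S`: the image of
the finite set in question), with `I, J` from `par_exists`, and `sum_P_le`, `sum_R_le` with
`A = 2 ⌈1 / kap δ⌉₊ + 1` bound each of them by `C1 R ^ (2 / 3 + 7 δ)`.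
-/

set_option autoImplicit false

namespace AbcRad

open Finset in
private theorem card_P_le (δ R Q CP : ℝ) (hδ : 0 < δ) (hR : 2 ≤ R)
    (hCP : ∑ q ∈ pairs (R ^ (2 / 3 + 4 * δ)),
      (((2 * ⌈1 / kap δ⌉₊ + 1 : ℕ) : ℝ) ^ (q.1.primeFactors.card) * (q.2 : ℝ)) ≤
        CP * R ^ (2 / 3 + 6 * δ)) (hCP1 : 1 ≤ CP) (n I J : ℕ) (s : ℤ)
    (hP : Par δ (kap δ) R Q n I J (LL δ R Q)) (f : ℕ × ℕ → ℕ × ℕ) (hf : Function.Injective f)
    (S : Finset (ℕ × ℕ))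
    (hS : ∀ x ∈ S, PCap δ (kap δ) R Q (R ^ (2 / 3 + 4 * δ)) n (LL δ R Q) s (f x)) :
    (S.card : ℝ) ≤ CP * R ^ (2 / 3 + 7 * δ) := by
  classical
  rw [← Finset.card_image_of_injective S hf]
  refine (count_P δ (kap δ) R Q (R ^ (2 / 3 + 4 * δ)) n I J (LL δ R Q) s hP (S.image f) ?_).trans
    (hCP.trans ?_)
  · intro x hx
    rw [Finset.mem_image] at hx
    obtain ⟨y, hy, rfl⟩ := hx
    exact hS y hy
  · refine mul_le_mul_of_nonneg_left ?_ (by linarith)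
    exact Real.rpow_le_rpow_of_exponent_le (by linarith) (by linarith)

open Finset in
private theorem card_R_le (δ R Q CR : ℝ)
    (hCR : (∑ D ∈ Icc 1 ⌊R ^ (2 / 3 + 4 * δ)⌋₊,
      ((2 * ⌈1 / kap δ⌉₊ + 1 : ℕ) : ℝ) ^ (D.primeFactors.card)) *
        (4 * R ^ δ * (Real.log R + 1) + 2) ≤ CR * R ^ (2 / 3 + 7 * δ)) (n I J : ℕ)
    (hP : Par δ (kap δ) R Q n I J (LL δ R Q)) (f : ℕ × ℕ → ℕ × ℕ) (hf : Function.Injective f)
    (S : Finset (ℕ × ℕ))
    (hS : ∀ x ∈ S, RCap δ (kap δ) R Q (R ^ (2 / 3 + 4 * δ)) n (f x)) :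
    (S.card : ℝ) ≤ CR * R ^ (2 / 3 + 7 * δ) := by
  classical
  rw [← Finset.card_image_of_injective S hf]
  refine (count_R δ (kap δ) R Q (R ^ (2 / 3 + 4 * δ)) n I J (LL δ R Q) hP (S.image f) ?_).trans
    hCR
  intro x hx
  rw [Finset.mem_image] at hx
  obtain ⟨y, hy, rfl⟩ := hx
  exact hS y hy

private theorem wset_finite (R Q : ℝ) : (wset R Q).Finite := by
  have h1 : (Set.Iic ⌊Real.exp (2 * Q)⌋₊ ×ˢ Set.Iic ⌊Real.exp (2 * Q)⌋₊ :
      Set (ℕ × ℕ)).Finite := (Set.finite_Iic _).prod (Set.finite_Iic _)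
  refine h1.subset ?_
  rintro ⟨a, b⟩ ⟨ha, hb, -, -, -, h⟩
  have hpos : (0 : ℝ) < ((a + b : ℕ) : ℝ) := by
    have : 0 < a + b := Nat.add_pos_left ha b
    exact_mod_cast this
  have h2 : ((a + b : ℕ) : ℝ) ≤ Real.exp (2 * Q) := (Real.log_le_iff_le_exp hpos).mp h
  have h3 : a + b ≤ ⌊Real.exp (2 * Q)⌋₊ := Nat.le_floor h2
  exact ⟨(Nat.le_add_right a b).trans h3, (Nat.le_add_left b a).trans h3⟩

private theorem wset_swap (R Q : ℝ) (p : ℕ × ℕ) (h : p ∈ wset R Q) : p.swap ∈ wset R Q := by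
  obtain ⟨h1, h2, h3, h4, h5, h6⟩ := h
  refine ⟨h2, h1, h3.symm, ?_, ?_, ?_⟩
  · simp only [Prod.fst_swap, Prod.snd_swap]
    rw [mul_comm p.2 p.1, add_comm p.2 p.1]
    exact h4
  · simp only [Prod.fst_swap, Prod.snd_swap]
    rw [add_comm p.2 p.1]
    exact h5
  · simp only [Prod.fst_swap, Prod.snd_swap]
    rw [add_comm p.2 p.1]
    exact h6

theorem window_count (δ : ℝ) (hδ : 0 < δ) (hδ1 : δ ≤ 1 / 10) :
    ∃ R0 C0 C : ℝ, 2 ≤ R0 ∧ 1 ≤ C0 ∧ 0 ≤ C ∧ ∀ R Q : ℝ, R0 ≤ R → C0 * Real.log R ≤ Q →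
      (wset R Q).Finite ∧ ((wset R Q).ncard : ℝ) ≤ C * R ^ (2 / 3 + 7 * δ) := by
  classical
  obtain ⟨R0, C0, hR0, hC0, hpar⟩ := par_exists δ hδ hδ1
  obtain ⟨CP, hCP1, hCP⟩ := sum_P_le δ hδ hδ1 (2 * ⌈1 / kap δ⌉₊ + 1)
  obtain ⟨CR, hCR1, hCR⟩ := sum_R_le δ hδ hδ1 (2 * ⌈1 / kap δ⌉₊ + 1)
  refine ⟨R0, max C0 8, 2 * (KK δ * (3 * CP + CR)), hR0, hC0.trans (le_max_left _ _),
    by positivity, ?_⟩
  intro R Q hR hQ
  have hR2 : 2 ≤ R := hR0.trans hR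
  have hlog2 : 1 / 2 ≤ Real.log R := by
    have h1 := Real.log_two_gt_d9
    have h2 : Real.log 2 ≤ Real.log R := Real.log_le_log (by norm_num) hR2
    linarith
  have hQ1 : C0 * Real.log R ≤ Q :=
    (mul_le_mul_of_nonneg_right (le_max_left _ _) (by linarith)).trans hQ
  have hQ4 : 4 ≤ Q := by
    have h1 : 8 * Real.log R ≤ max C0 8 * Real.log R :=
      mul_le_mul_of_nonneg_right (le_max_right _ _) (by linarith)
    linarith
  obtain ⟨hPar, hN, hNE, hL⟩ := hpar R Q hR hQ1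
  have hCP' := hCP R hR2
  have hCR' := hCR R hR2
  have hfin := wset_finite R Q
  refine ⟨hfin, ?_⟩
  rw [Set.ncard_eq_toFinset_card _ hfin]
  obtain ⟨W, hWdef⟩ : ∃ W : Finset (ℕ × ℕ), W = hfin.toFinset := ⟨_, rfl⟩
  rw [← hWdef]
  have hW : ∀ p, p ∈ W ↔ p ∈ wset R Q := by
    intro p
    rw [hWdef, Set.Finite.mem_toFinset]
  obtain ⟨W1, hW1⟩ : ∃ W1 : Finset (ℕ × ℕ), W1 = W.filter (fun p => p.1 ≤ p.2) := ⟨_, rfl⟩
  obtain ⟨B, hB⟩ : ∃ B : ℝ, B = R ^ (2 / 3 + 7 * δ) := ⟨_, rfl⟩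
  have hB0 : 0 ≤ B := by
    rw [hB]
    exact Real.rpow_nonneg (by linarith) _
  have hinj1 : Function.Injective (fun p : ℕ × ℕ => (p.1, p.1 + p.2)) := by
    rintro ⟨a, b⟩ ⟨c, d⟩ h
    simp only [Prod.mk.injEq] at h ⊢
    omega
  have hinj3 : Function.Injective (fun p : ℕ × ℕ => (p.2, p.1 + p.2)) := by
    rintro ⟨a, b⟩ ⟨c, d⟩ h
    simp only [Prod.mk.injEq] at h ⊢
    omega
  have hcov : W1 ⊆ (Finset.Icc 1 (KK δ)).biUnion (fun h =>
      (W1.filter (fun p => PCap δ (kap δ) R Q (R ^ (2 / 3 + 4 * δ)) (NN R Q / h) (LL δ R Q) 1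
        ((fun p : ℕ × ℕ => (p.1, p.1 + p.2)) p))) ∪
      ((W1.filter (fun p => PCap δ (kap δ) R Q (R ^ (2 / 3 + 4 * δ)) (NN R Q / h) (LL δ R Q) (-1)
        (id p))) ∪
      ((W1.filter (fun p => PCap δ (kap δ) R Q (R ^ (2 / 3 + 4 * δ)) (NN R Q / h) (LL δ R Q) 1
        ((fun p : ℕ × ℕ => (p.2, p.1 + p.2)) p))) ∪
      (W1.filter (fun p => RCap δ (kap δ) R Q (R ^ (2 / 3 + 4 * δ)) (NN R Q / h)
        ((fun p : ℕ × ℕ => (p.2, p.1 + p.2)) p)))))) := by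
    intro p hp
    have hp' := hp
    rw [hW1, Finset.mem_filter, hW] at hp'
    obtain ⟨h, hh1, hh2, hc⟩ := cover δ R Q hδ hδ1 hR2 hQ4 hN hNE hL p.1 p.2 hp'.1 hp'.2
    rw [Finset.mem_biUnion]
    refine ⟨h, Finset.mem_Icc.mpr ⟨hh1, hh2⟩, ?_⟩
    simp only [Finset.mem_union, Finset.mem_filter]
    rcases hc with hc | hc | hc | hc
    · exact Or.inl ⟨hp, hc⟩
    · exact Or.inr (Or.inl ⟨hp, hc⟩)
    · exact Or.inr (Or.inr (Or.inl ⟨hp, hc⟩))
    · exact Or.inr (Or.inr (Or.inr ⟨hp, hc⟩))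
  have hW1card : (W1.card : ℝ) ≤ KK δ * (3 * CP + CR) * B := by
    have h1 := (Finset.card_le_card hcov).trans Finset.card_biUnion_le
    have h2 : (W1.card : ℝ) ≤ ∑ h ∈ Finset.Icc 1 (KK δ), (3 * CP + CR) * B := by
      refine (Nat.cast_le (α := ℝ).mpr h1).trans ?_
      push_cast
      refine Finset.sum_le_sum ?_
      intro h hh
      rw [Finset.mem_Icc] at hh
      obtain ⟨I, J, hP⟩ := hPar h hh.1 hh.2
      have e1 := card_P_le δ R Q CP hδ hR2 hCP' hCP1 _ I J 1 hP _ hinj1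
        (W1.filter (fun p => PCap δ (kap δ) R Q (R ^ (2 / 3 + 4 * δ)) (NN R Q / h) (LL δ R Q) 1
        ((fun p : ℕ × ℕ => (p.1, p.1 + p.2)) p))) (fun x hx => (Finset.mem_filter.mp hx).2)
      have e2 := card_P_le δ R Q CP hδ hR2 hCP' hCP1 _ I J (-1) hP _ Function.injective_id
        (W1.filter (fun p => PCap δ (kap δ) R Q (R ^ (2 / 3 + 4 * δ)) (NN R Q / h) (LL δ R Q) (-1)
        (id p))) (fun x hx => (Finset.mem_filter.mp hx).2)
      have e3 := card_P_le δ R Q CP hδ hR2 hCP' hCP1 _ I J 1 hP _ hinj3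
        (W1.filter (fun p => PCap δ (kap δ) R Q (R ^ (2 / 3 + 4 * δ)) (NN R Q / h) (LL δ R Q) 1
        ((fun p : ℕ × ℕ => (p.2, p.1 + p.2)) p))) (fun x hx => (Finset.mem_filter.mp hx).2)
      have e4 := card_R_le δ R Q CR hCR' _ I J hP _ hinj3
        (W1.filter (fun p => RCap δ (kap δ) R Q (R ^ (2 / 3 + 4 * δ)) (NN R Q / h)
        ((fun p : ℕ × ℕ => (p.2, p.1 + p.2)) p))) (fun x hx => (Finset.mem_filter.mp hx).2)
      rw [← hB] at e1 e2 e3 e4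
      have f1 := Finset.card_union_le (W1.filter (fun p => PCap δ (kap δ) R Q (R ^ (2 / 3 + 4 * δ))
        (NN R Q / h) (LL δ R Q) 1 ((fun p : ℕ × ℕ => (p.1, p.1 + p.2)) p)))
        ((W1.filter (fun p => PCap δ (kap δ) R Q (R ^ (2 / 3 + 4 * δ)) (NN R Q / h) (LL δ R Q) (-1)
        (id p))) ∪
        ((W1.filter (fun p => PCap δ (kap δ) R Q (R ^ (2 / 3 + 4 * δ)) (NN R Q / h) (LL δ R Q) 1
        ((fun p : ℕ × ℕ => (p.2, p.1 + p.2)) p))) ∪
        (W1.filter (fun p => RCap δ (kap δ) R Q (R ^ (2 / 3 + 4 * δ)) (NN R Q / h)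
        ((fun p : ℕ × ℕ => (p.2, p.1 + p.2)) p)))))
      have f2 := Finset.card_union_le
        (W1.filter (fun p => PCap δ (kap δ) R Q (R ^ (2 / 3 + 4 * δ)) (NN R Q / h) (LL δ R Q) (-1)
        (id p)))
        ((W1.filter (fun p => PCap δ (kap δ) R Q (R ^ (2 / 3 + 4 * δ)) (NN R Q / h) (LL δ R Q) 1
        ((fun p : ℕ × ℕ => (p.2, p.1 + p.2)) p))) ∪
        (W1.filter (fun p => RCap δ (kap δ) R Q (R ^ (2 / 3 + 4 * δ)) (NN R Q / h)
        ((fun p : ℕ × ℕ => (p.2, p.1 + p.2)) p))))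
      have f3 := Finset.card_union_le
        (W1.filter (fun p => PCap δ (kap δ) R Q (R ^ (2 / 3 + 4 * δ)) (NN R Q / h) (LL δ R Q) 1
        ((fun p : ℕ × ℕ => (p.2, p.1 + p.2)) p)))
        (W1.filter (fun p => RCap δ (kap δ) R Q (R ^ (2 / 3 + 4 * δ)) (NN R Q / h)
        ((fun p : ℕ × ℕ => (p.2, p.1 + p.2)) p)))
      rw [← Nat.cast_le (α := ℝ)] at f1 f2 f3
      push_cast at f1 f2 f3
      linarith
    refine h2.trans ?_
    rw [Finset.sum_const, Nat.card_Icc, nsmul_eq_mul, Nat.add_sub_cancel]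
    apply le_of_eq
    ring
  have hW2 : (W.filter (fun p => ¬ p.1 ≤ p.2)).card ≤ W1.card := by
    refine Finset.card_le_card_of_injOn Prod.swap ?_ ?_
    · intro p hp
      rw [Finset.mem_coe, Finset.mem_filter, hW] at hp
      rw [Finset.mem_coe, hW1, Finset.mem_filter, hW]
      refine ⟨wset_swap R Q p hp.1, ?_⟩
      simp only [Prod.fst_swap, Prod.snd_swap]
      exact (not_le.mp hp.2).le
    · intro p _ q _ h
      exact Prod.swap_injective h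
  have hWc : W.card = W1.card + (W.filter (fun p => ¬ p.1 ≤ p.2)).card := by
    rw [hW1]
    exact (Finset.card_filter_add_card_filter_not (s := W) (fun p : ℕ × ℕ => p.1 ≤ p.2)).symm
  have hWc2 : W.card ≤ 2 * W1.card := by omega
  have hWc3 : (W.card : ℝ) ≤ 2 * W1.card := by exact_mod_cast hWc2
  rw [← hB]
  calc (W.card : ℝ) ≤ 2 * W1.card := hWc3
    _ ≤ 2 * (KK δ * (3 * CP + CR) * B) := by linarith
    _ = 2 * (KK δ * (3 * CP + CR)) * B := by ring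

end AbcRad
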