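import Pool.Agent.Work.MP_a793bb_nt.Rad.FrGr

/-!
# Basic properties of `xiN`, `xiD`, `T1`

Proofs. Products of powers of primes dividing `x.1 * x.2` (resp. `x.1 x.2` or `y.1 y.2`), so they
are positive, and coprime to every `M` coprime to `x.1 x.2` (and `y.1 y.2`)
(`Nat.Coprime.prod_right`, `Nat.Coprime.pow_right`).
`log_xi_le`: `log (xiN) + log (xiD) = ∑ |fr n (ev x p)| log p` over `p ∣ x.1 x.2`, and by
`fr_abs` this is at most `(2 / n) ∑ |ev x p| log p ≤ (2 / n) ∑ (v_p (x.1) + v_p (x.2)) log p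
= (2 / n) (log x.1 + log x.2)` (`Nat.factorization_prod_pow_eq_self`).
`log_T1_le`: `log (T1 n x y) = ∑ (g'_p - g_p)^+ log p`, each `p` of the union is weighted by at
most `A` times the number of the two sets which contain it, and
`∑ p ∈ m.primeFactors, log p = log (rad m)`.
-/

set_option autoImplicit false

namespace AbcRad

open Finset

private theorem xb_pos {S : Finset ℕ} (hS : ∀ q ∈ S, q.Prime) (a : ℕ → ℕ) :
    0 < ∏ q ∈ S, q ^ a q :=
  prod_pos fun q hq => pow_pos (hS q hq).pos _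

private theorem xb_pr (m : ℕ) : ∀ q ∈ m.primeFactors, q.Prime := fun _ hq =>
  Nat.prime_of_mem_primeFactors hq

private theorem xb_pr2 (x y : ℕ × ℕ) :
    ∀ q ∈ (x.1 * x.2).primeFactors ∪ (y.1 * y.2).primeFactors, q.Prime := by
  intro q hq
  rcases mem_union.1 hq with h | h
  · exact xb_pr _ q h
  · exact xb_pr _ q h

theorem xiN_pos (n : ℕ) (x : ℕ × ℕ) : 0 < xiN n x := xb_pos (xb_pr _) _

theorem xiD_pos (n : ℕ) (x : ℕ × ℕ) : 0 < xiD n x := xb_pos (xb_pr _) _

theorem T1_pos (n : ℕ) (x y : ℕ × ℕ) : 0 < T1 n x y := xb_pos (xb_pr2 x y) _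

theorem xiN_cop (n M : ℕ) (x : ℕ × ℕ) (h : M.Coprime (x.1 * x.2)) (h0 : x.1 * x.2 ≠ 0) :
    M.Coprime (xiN n x) := by
  refine Nat.Coprime.prod_right fun p hp => Nat.Coprime.pow_right _ ?_
  exact Nat.Coprime.coprime_dvd_right (Nat.dvd_of_mem_primeFactors hp) h

theorem xiD_cop (n M : ℕ) (x : ℕ × ℕ) (h : M.Coprime (x.1 * x.2)) (h0 : x.1 * x.2 ≠ 0) :
    M.Coprime (xiD n x) := by
  refine Nat.Coprime.prod_right fun p hp => Nat.Coprime.pow_right _ ?_
  exact Nat.Coprime.coprime_dvd_right (Nat.dvd_of_mem_primeFactors hp) h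

theorem T1_cop (n M : ℕ) (x y : ℕ × ℕ) (hx : M.Coprime (x.1 * x.2)) (hy : M.Coprime (y.1 * y.2))
    (hx0 : x.1 * x.2 ≠ 0) (hy0 : y.1 * y.2 ≠ 0) : M.Coprime (T1 n x y) := by
  refine Nat.Coprime.prod_right fun p hp => Nat.Coprime.pow_right _ ?_
  rcases mem_union.1 hp with hp | hp
  · exact Nat.Coprime.coprime_dvd_right (Nat.dvd_of_mem_primeFactors hp) hx
  · exact Nat.Coprime.coprime_dvd_right (Nat.dvd_of_mem_primeFactors hp) hy

private theorem xb_log {S : Finset ℕ} (hS : ∀ q ∈ S, q.Prime) (a : ℕ → ℕ) :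
    Real.log ((∏ q ∈ S, q ^ a q : ℕ) : ℝ) = ∑ q ∈ S, (a q : ℝ) * Real.log q := by
  push_cast
  rw [Real.log_prod fun q hq => by
    have := (hS q hq).pos
    positivity]
  refine sum_congr rfl fun q _ => ?_
  rw [Real.log_pow]

private theorem xb_logp {S : Finset ℕ} (hS : ∀ q ∈ S, q.Prime) {q : ℕ} (hq : q ∈ S) :
    0 ≤ Real.log q := Real.log_natCast_nonneg q

theorem log_xi_le (n : ℕ) (hn : 1 ≤ n) (x : ℕ × ℕ) (h1 : 0 < x.1) (h2 : 0 < x.2) :
    Real.log (xiN n x) + Real.log (xiD n x) ≤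
      2 / (n : ℝ) * (Real.log x.1 + Real.log x.2) := by
  have hn0 : (0 : ℝ) < n := by exact_mod_cast hn
  have e1 : Real.log (xiN n x) = ∑ p ∈ (x.1 * x.2).primeFactors,
      (((fr n (ev x p)).toNat : ℕ) : ℝ) * Real.log p := xb_log (xb_pr _) _
  have e2 : Real.log (xiD n x) = ∑ p ∈ (x.1 * x.2).primeFactors,
      (((-(fr n (ev x p))).toNat : ℕ) : ℝ) * Real.log p := xb_log (xb_pr _) _
  have e3 : Real.log x.1 + Real.log x.2 = ∑ p ∈ (x.1 * x.2).primeFactors,
      ((x.1.factorization p : ℝ) + x.2.factorization p) * Real.log p := by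
    rw [← Real.log_mul (by positivity) (by positivity)]
    have h3 := Real.log_nat_eq_sum_factorization (x.1 * x.2)
    push_cast at h3
    rw [h3]
    unfold Finsupp.sum
    rw [Nat.support_factorization]
    refine sum_congr rfl fun p _ => ?_
    rw [Nat.factorization_mul h1.ne' h2.ne']
    simp
  rw [e1, e2, e3, ← sum_add_distrib, mul_sum]
  refine sum_le_sum fun p hp => ?_
  rw [← add_mul, ← mul_assoc]
  refine mul_le_mul_of_nonneg_right ?_ (Real.log_natCast_nonneg p)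
  have h3 : (((fr n (ev x p)).toNat : ℕ) : ℝ) + (((-(fr n (ev x p))).toNat : ℕ) : ℝ) =
      |((fr n (ev x p) : ℤ) : ℝ)| := by
    have h4 : (((fr n (ev x p)).toNat : ℕ) : ℤ) + (((-(fr n (ev x p))).toNat : ℕ) : ℤ) =
        |fr n (ev x p)| := by
      rcases le_total 0 (fr n (ev x p)) with h | h
      · rw [abs_of_nonneg h, Int.toNat_of_nonneg h, Int.toNat_of_nonpos (by linarith)]
        simp
      · rw [abs_of_nonpos h, Int.toNat_of_nonpos h, Int.toNat_of_nonneg (by linarith)]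
        simp
    have h5 := congrArg (fun z : ℤ => (z : ℝ)) h4
    push_cast at h5
    exact h5
  rw [h3]
  have h6 := fr_abs n hn (ev x p)
  have h7 : (n : ℝ) * |((fr n (ev x p) : ℤ) : ℝ)| ≤ 2 * |((ev x p : ℤ) : ℝ)| := by
    exact_mod_cast h6
  have h8 : |((ev x p : ℤ) : ℝ)| ≤ (x.1.factorization p : ℝ) + x.2.factorization p := by
    unfold ev
    push_cast
    rw [abs_le]
    constructor
    · have : (0 : ℝ) ≤ x.1.factorization p := Nat.cast_nonneg _
      linarith
    · have : (0 : ℝ) ≤ x.2.factorization p := Nat.cast_nonneg _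
      linarith
  rw [div_mul_eq_mul_div, le_div_iff₀ hn0]
  linarith

theorem log_T1_le (n : ℕ) (x y : ℕ × ℕ) (A : ℝ) (hA : 0 ≤ A)
    (h : ∀ p ∈ (x.1 * x.2).primeFactors ∪ (y.1 * y.2).primeFactors,
      ((gr n (ev y p) - gr n (ev x p) : ℤ) : ℝ) ≤
        A * ((if p ∈ (x.1 * x.2).primeFactors then 1 else 0) +
          (if p ∈ (y.1 * y.2).primeFactors then 1 else 0))) :
    Real.log (T1 n x y) ≤ A * (Real.log (rad (x.1 * x.2)) + Real.log (rad (y.1 * y.2))) := by
  have e1 : Real.log (T1 n x y) = ∑ p ∈ (x.1 * x.2).primeFactors ∪ (y.1 * y.2).primeFactors,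
      (((gr n (ev y p) - gr n (ev x p)).toNat : ℕ) : ℝ) * Real.log p := xb_log (xb_pr2 x y) _
  have hr : ∀ m : ℕ, Real.log (rad m) = ∑ p ∈ m.primeFactors, Real.log p := by
    intro m
    unfold rad
    push_cast
    exact Real.log_prod fun q hq => by
      have := (xb_pr m q hq).pos
      positivity
  have hs : ∀ S ⊆ (x.1 * x.2).primeFactors ∪ (y.1 * y.2).primeFactors,
      ∑ p ∈ S, Real.log p = ∑ p ∈ (x.1 * x.2).primeFactors ∪ (y.1 * y.2).primeFactors,
        (if p ∈ S then (1 : ℝ) else 0) * Real.log p := by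
    intro S hS
    rw [← sum_subset hS]
    · refine sum_congr rfl fun p hp => ?_
      rw [if_pos hp, one_mul]
    · intro p _ hp
      rw [if_neg hp, zero_mul]
  rw [e1, hr, hr, hs _ subset_union_left, hs _ subset_union_right, ← sum_add_distrib, mul_sum]
  refine sum_le_sum fun p hp => ?_
  rw [← add_mul, ← mul_assoc]
  refine mul_le_mul_of_nonneg_right ?_ (Real.log_natCast_nonneg p)
  have h1 := h p hp
  have h2 : (((gr n (ev y p) - gr n (ev x p)).toNat : ℕ) : ℝ) =
      max ((gr n (ev y p) - gr n (ev x p) : ℤ) : ℝ) 0 := by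
    have h3 : (((gr n (ev y p) - gr n (ev x p)).toNat : ℕ) : ℤ) =
        max (gr n (ev y p) - gr n (ev x p)) 0 := Int.toNat_eq_max _
    have h4 := congrArg (fun z : ℤ => (z : ℝ)) h3
    push_cast at h4
    push_cast
    exact h4
  rw [h2]
  refine max_le h1 ?_
  refine mul_nonneg hA (add_nonneg ?_ ?_) <;> split_ifs <;> norm_num

end AbcRad
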