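import Pool.Agent.Work.MP_a793bb_nt.Rad.DetLead
import Pool.Agent.Work.MP_a793bb_nt.Rad.Theta

/-!
# The zero estimate

Proof. Put `pk k = ∑ j ∈ range J, C (p k j : F) * X ^ j` (degree `≤ J - 1` if nonzero), so that
`Qpol F p n I J τ = ∑ k ∈ range I, C (τ ^ k) * (X ^ (n k) * pk k)`.
Let `K` be the finset of `k < I` with `pk k ≠ 0` (nonempty by `hp`; `F` has characteristic zero),
`s` its cardinality, `κ : Fin s → ℕ` its increasing enumeration (`K.orderEmbOfFin rfl`).
(1) `s ≥ 2`: if `K = {k}`, then `h1` says `(X - 1) ^ L ∣ X ^ (n k) * pk k`, `X` and `X - 1` are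
coprime, so `(X - 1) ^ L ∣ pk k`, `L ≤ natDegree (pk k) ≤ J - 1 < J ≤ L`, a contradiction.
(2) Let `W` be the determinant of `det_lead` for `e i = n * κ i`, `P i = pk (κ i)`. The numbers
`n κ i + deg P i` are distinct since `deg P i < J ≤ n`. So `W ≠ 0`, `deg W ≤ s (J - 1)`.
(3) By `theta_X_pow`, multiplying column `i` by `X ^ (n κ i)`,
`X ^ (n ∑ κ i) * W = det (fun a i => (thetaE 0)^[a] (φ i))`, `φ i = X ^ (n κ i) * pk (κ i)`.
(4) Let `i1 ≠ i2` be two indices (`0` and `1`). Replace column `i1` by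
`∑ i, (thetaE 0)^[a] (φ i) = (thetaE 0)^[a] Q_1` and column `i2` by
`∑ i, C (τ ^ κ i) * (thetaE 0)^[a] (φ i) = (thetaE 0)^[a] Q_τ` (`theta_sum`).
By multilinearity the new determinant is
`(C (τ ^ κ i2) - C (τ ^ κ i1)) * det (old)`: in column `i1` only the terms `i = i1, i2` survive and
in column `i2` only `i = i1, i2`; the two nonzero combinations are `(i1, i2)` with coefficient
`τ ^ κ i2` and `(i2, i1)` with coefficient `- τ ^ κ i1`. (Alternatively: the new matrix is the old
one times the matrix `N` which is the identity with column `i1` replaced by all ones and column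
`i2` replaced by `τ ^ κ i`; `det N = τ ^ κ i2 - τ ^ κ i1`, which may be computed by expanding, or
by row reduction; any way is fine.) By `hτ` this factor is a nonzero constant.
(5) In the Leibniz expansion each term contains one entry of column `i1`, divisible by
`(X - 1) ^ (L - a)` with `a ≤ s - 1`, and one entry of column `i2`, divisible by
`(X - ξ) ^ (l0 - a')`, `a' ≤ s - 1` (`theta_dvd`). So
`(X - 1) ^ (L - (s - 1)) * (X - ξ) ^ (l0 - (s - 1))` divides the new determinant, hence divides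
`X ^ (n ∑ κ i) * W`; as `1 ≠ 0`, `ξ ≠ 0` this product is coprime to `X`, so it divides `W`.
Comparing degrees, `(L - (s - 1)) + (l0 - (s - 1)) ≤ s (J - 1)`, hence
`L + l0 + 2 ≤ s (J - 1) + 2 (s - 1) + 2 = s (J + 1) ≤ I (J + 1)` (`s ≤ I`).
-/

set_option autoImplicit false

namespace AbcRad

open Polynomial Finset

private theorem ze_det_dvd {R : Type*} [CommRing R] {s : ℕ} (B : Matrix (Fin s) (Fin s) R)
    {i1 i2 : Fin s} (hne : i1 ≠ i2) {u v : R} (h1 : ∀ a, u ∣ B a i1) (h2 : ∀ a, v ∣ B a i2) :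
    u * v ∣ B.det := by
  rw [Matrix.det_apply]
  refine Finset.dvd_sum fun σ _ => ?_
  have h3 : u * v ∣ ∏ i, B (σ i) i := by
    have h4 : i2 ∈ (Finset.univ : Finset (Fin s)).erase i1 :=
      Finset.mem_erase.2 ⟨hne.symm, Finset.mem_univ _⟩
    rw [← Finset.mul_prod_erase Finset.univ (fun i => B (σ i) i) (Finset.mem_univ i1),
      ← Finset.mul_prod_erase _ (fun i => B (σ i) i) h4, ← mul_assoc]
    exact (mul_dvd_mul (h1 _) (h2 _)).mul_right _
  rw [Units.smul_def]
  exact h3.trans (Dvd.intro_left _ (zsmul_eq_mul _ _).symm)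

/-- the `k`-th coefficient polynomial -/
private noncomputable def zeP (F : Type*) [Field F] (p : ℕ → ℕ → ℤ) (J k : ℕ) : F[X] :=
  ∑ j ∈ range J, C (p k j : F) * X ^ j

private theorem zeP_coeff {F : Type*} [Field F] (p : ℕ → ℕ → ℤ) (J k j : ℕ) :
    (zeP F p J k).coeff j = if j < J then (p k j : F) else 0 := by
  unfold zeP
  rw [finsetSum_coeff]
  simp only [coeff_C_mul, coeff_X_pow]
  simp

private theorem zeP_deg {F : Type*} [Field F] (p : ℕ → ℕ → ℤ) {J : ℕ} (hJ : 0 < J) (k : ℕ) :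
    (zeP F p J k).natDegree ≤ J - 1 := by
  rw [natDegree_le_iff_coeff_eq_zero]
  intro N hN
  rw [zeP_coeff, if_neg (by omega)]

private theorem zeQ {F : Type*} [Field F] (p : ℕ → ℕ → ℤ) (n I J : ℕ) (τ : F) :
    Qpol F p n I J τ = ∑ k ∈ range I, C (τ ^ k) * (X ^ (n * k) * zeP F p J k) := by
  unfold Qpol zeP
  refine Finset.sum_congr rfl fun k _ => ?_
  rw [Finset.mul_sum, Finset.mul_sum]
  refine Finset.sum_congr rfl fun j _ => ?_
  rw [C_mul, pow_add]
  ring

private theorem ze_coprime {F : Type*} [Field F] {ξ : F} (hξ : ξ ≠ 0) (a b : ℕ) :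
    IsCoprime ((X - C ξ) ^ a) ((X : F[X]) ^ b) := by
  refine IsCoprime.pow ?_
  refine ⟨-C ξ⁻¹, C ξ⁻¹, ?_⟩
  have h : (C ξ⁻¹ * C ξ : F[X]) = 1 := by rw [← C_mul, inv_mul_cancel₀ hξ, C_1]
  linear_combination h

theorem zero_est {F : Type*} [Field F] [CharZero F] (p : ℕ → ℕ → ℤ) (n I J L l0 : ℕ)
    (hJn : J ≤ n) (hJL : J ≤ L) (hp : ∃ k < I, ∃ j < J, p k j ≠ 0) (τ ξ : F)
    (hτ : ∀ k1 k2 : ℕ, k1 < k2 → k2 < I → τ ^ k1 ≠ τ ^ k2) (hξ : ξ ≠ 0)
    (h1 : (X - C (1 : F)) ^ L ∣ Qpol F p n I J 1) (h2 : (X - C ξ) ^ l0 ∣ Qpol F p n I J τ) :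
    L + l0 + 2 ≤ I * (J + 1) := by
  classical
  obtain ⟨k0, hk0, j0, hj0, hp0⟩ := hp
  have hJ : 0 < J := by omega
  let K : Finset ℕ := (range I).filter (fun k => zeP F p J k ≠ 0)
  have hK : ∀ k, k ∈ K ↔ k < I ∧ zeP F p J k ≠ 0 := fun k => by
    simp only [K, Finset.mem_filter, Finset.mem_range]
  have hKsum : ∀ τ : F, Qpol F p n I J τ = ∑ k ∈ K, C (τ ^ k) * (X ^ (n * k) * zeP F p J k) := by
    intro τ
    rw [zeQ]
    symm
    refine Finset.sum_subset (Finset.filter_subset _ _) fun k hk hk' => ?_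
    have h3 : zeP F p J k = 0 := by
      by_contra h
      exact hk' ((hK k).2 ⟨Finset.mem_range.1 hk, h⟩)
    rw [h3, mul_zero, mul_zero]
  have hk0K : k0 ∈ K := by
    rw [hK]
    refine ⟨hk0, fun h => ?_⟩
    have h3 := zeP_coeff (F := F) p J k0 j0
    rw [h, coeff_zero, if_pos hj0] at h3
    exact hp0 (Int.cast_eq_zero.1 h3.symm)
  -- the enumeration
  obtain ⟨s, hs⟩ : ∃ s, K.card = s := ⟨_, rfl⟩
  have hsI : s ≤ I := by
    rw [← hs]
    exact (Finset.card_filter_le _ _).trans (by rw [Finset.card_range])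
  let κ : Fin s → ℕ := K.orderEmbOfFin hs
  have hκmem : ∀ i, κ i ∈ K := fun i => Finset.orderEmbOfFin_mem K hs i
  have hκmono : StrictMono κ := (K.orderEmbOfFin hs).strictMono
  have hκsum : ∀ f : ℕ → F[X], ∑ k ∈ K, f k = ∑ i : Fin s, f (κ i) := by
    intro f
    have h3 : K = Finset.univ.image κ := by
      apply Finset.coe_injective
      rw [Finset.coe_image, Finset.coe_univ, Set.image_univ]
      exact (Finset.range_orderEmbOfFin K hs).symm
    rw [h3, Finset.sum_image fun a _ b _ hab => hκmono.injective hab]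
  -- at least two terms
  have hs2 : 2 ≤ s := by
    by_contra hlt
    have hs1 : K.card = 1 := by
      have h3 : 0 < K.card := Finset.card_pos.2 ⟨k0, hk0K⟩
      omega
    obtain ⟨k, hk⟩ := Finset.card_eq_one.1 hs1
    have h3 := hKsum 1
    rw [hk, Finset.sum_singleton, one_pow, C_1, one_mul] at h3
    rw [h3] at h1
    have h4 := (ze_coprime (one_ne_zero (α := F)) L (n * k)).dvd_of_dvd_mul_left h1
    have hkK : k ∈ K := by rw [hk]; exact Finset.mem_singleton_self k
    have h5 := natDegree_le_of_dvd h4 ((hK k).1 hkK).2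
    rw [natDegree_pow, natDegree_X_sub_C, mul_one] at h5
    have h6 := zeP_deg (F := F) p hJ k
    omega
  let i1 : Fin s := ⟨0, by omega⟩
  let i2 : Fin s := ⟨1, by omega⟩
  have hi12 : i1 ≠ i2 := by
    intro h
    have := congrArg Fin.val h
    simp [i1, i2] at this
  have hκlt : κ i1 < κ i2 := hκmono (by rw [Fin.lt_def]; simp [i1, i2])
  let P : Fin s → F[X] := fun i => zeP F p J (κ i)
  have hP : ∀ i, P i ≠ 0 := fun i => ((hK _).1 (hκmem i)).2
  have hPdeg : ∀ i, (P i).natDegree ≤ J - 1 := fun i => zeP_deg p hJ _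
  have hinj : Function.Injective (fun i => n * κ i + (P i).natDegree) := by
    intro a b hab
    have h3 : n * κ a + (P a).natDegree = n * κ b + (P b).natDegree := hab
    have ha := hPdeg a
    have hb := hPdeg b
    have hn : 0 < n := by omega
    apply hκmono.injective
    have e1 : (n * κ a + (P a).natDegree) / n = κ a := by
      rw [Nat.mul_add_div hn, Nat.div_eq_of_lt (by omega), add_zero]
    have e2 : (n * κ b + (P b).natDegree) / n = κ b := by
      rw [Nat.mul_add_div hn, Nat.div_eq_of_lt (by omega), add_zero]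
    rw [← e1, ← e2, h3]
  obtain ⟨hW, hWdeg⟩ := det_lead (fun i => n * κ i) P hP hinj
  set W := (Matrix.of fun (a i : Fin s) => (thetaE (n * κ i))^[(a : ℕ)] (P i)).det with hWdef
  -- the matrix of the `theta` derivatives
  let A : Matrix (Fin s) (Fin s) F[X] :=
    Matrix.of fun a i => (thetaE 0)^[(a : ℕ)] (X ^ (n * κ i) * P i)
  have hA : A.det = (∏ i, (X : F[X]) ^ (n * κ i)) * W := by
    rw [hWdef, ← Matrix.det_mul_row]
    congr 1
    ext a i : 2
    simp only [A, Matrix.of_apply]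
    rw [theta_X_pow]
  let A' := A.updateCol i1 (fun a => ∑ i, (1 : F[X]) • A a i)
  have hA' : A'.det = A.det := by
    rw [Matrix.det_updateCol_sum, one_smul]
  let c : Fin s → F[X] := fun i => if i = i1 then C (τ ^ κ i1) else C (τ ^ κ i) - C (τ ^ κ i1)
  let A'' := A'.updateCol i2 (fun a => ∑ i, c i • A' a i)
  have hA'' : A''.det = (C (τ ^ κ i2) - C (τ ^ κ i1)) * A.det := by
    rw [Matrix.det_updateCol_sum, hA', smul_eq_mul]
    congr 1
  have gA'ne : ∀ a i, i ≠ i1 → A' a i = A a i := fun a i h => Matrix.updateCol_ne h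
  have gA's : ∀ a, A' a i1 = ∑ i, (1 : F[X]) • A a i := fun a => Matrix.updateCol_self
  have gA''ne : ∀ a i, i ≠ i2 → A'' a i = A' a i := fun a i h => Matrix.updateCol_ne h
  have gA''s : ∀ a, A'' a i2 = ∑ i, c i • A' a i := fun a => Matrix.updateCol_self
  -- the two special columns
  have hcol1 : ∀ a, (X - C (1 : F)) ^ (L - (s - 1)) ∣ A'' a i1 := by
    intro a
    have h3 : A'' a i1 = (thetaE 0)^[(a : ℕ)] (Qpol F p n I J 1) := by
      rw [gA''ne a i1 hi12, gA's, hKsum, hκsum, theta_sum]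
      refine Finset.sum_congr rfl fun i _ => ?_
      rw [one_pow, C_1, one_mul, one_smul]
      rfl
    rw [h3]
    refine dvd_trans (pow_dvd_pow _ ?_) (theta_dvd 1 L a _ h1)
    have := a.2
    omega
  have hcol2 : ∀ a, (X - C ξ) ^ (l0 - (s - 1)) ∣ A'' a i2 := by
    intro a
    have h3 : A'' a i2 = (thetaE 0)^[(a : ℕ)] (Qpol F p n I J τ) := by
      rw [gA''s, hKsum, hκsum, theta_sum]
      rw [← Finset.add_sum_erase _ _ (Finset.mem_univ i1),
        ← Finset.add_sum_erase _ (fun i => C (τ ^ κ i) *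
          (thetaE 0)^[(a : ℕ)] (X ^ (n * κ i) * zeP F p J (κ i))) (Finset.mem_univ i1)]
      have e1 : A' a i1 = A a i1 + ∑ i ∈ Finset.univ.erase i1, A a i := by
        rw [gA's]
        simp only [one_smul]
        exact (Finset.add_sum_erase _ _ (Finset.mem_univ i1)).symm
      have e2 : c i1 = C (τ ^ κ i1) := if_pos rfl
      have e3 : ∀ i ∈ Finset.univ.erase i1, c i • A' a i
          = C (τ ^ κ i) * A a i - C (τ ^ κ i1) * A a i := by
        intro i hi
        have hne : i ≠ i1 := Finset.ne_of_mem_erase hi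
        have e4 : c i = C (τ ^ κ i) - C (τ ^ κ i1) := if_neg hne
        rw [e4, smul_eq_mul, gA'ne a i hne, sub_mul]
      rw [Finset.sum_congr rfl e3, e1, e2, smul_eq_mul, mul_add, Finset.mul_sum,
        Finset.sum_sub_distrib]
      change _ = C (τ ^ κ i1) * A a i1 + ∑ i ∈ Finset.univ.erase i1, C (τ ^ κ i) * A a i
      ring
    rw [h3]
    refine dvd_trans (pow_dvd_pow _ ?_) (theta_dvd ξ l0 a _ h2)
    have := a.2
    omega
  have hdvd := ze_det_dvd A'' hi12 hcol1 hcol2
  rw [hA'', hA, Finset.prod_pow_eq_pow_sum] at hdvd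
  have hunit : IsUnit (C (τ ^ κ i2) - C (τ ^ κ i1) : F[X]) := by
    rw [← C_sub, isUnit_C, isUnit_iff_ne_zero, sub_ne_zero]
    exact (hτ _ _ hκlt ((hK _).1 (hκmem i2)).1).symm
  rw [hunit.dvd_mul_left] at hdvd
  have hcop : IsCoprime ((X - C (1 : F)) ^ (L - (s - 1)) * (X - C ξ) ^ (l0 - (s - 1)))
      ((X : F[X]) ^ (∑ i, n * κ i)) :=
    (ze_coprime one_ne_zero _ _).mul_left (ze_coprime hξ _ _)
  have h5 := natDegree_le_of_dvd (hcop.dvd_of_dvd_mul_left hdvd) hW
  rw [natDegree_mul (pow_ne_zero _ (X_sub_C_ne_zero _)) (pow_ne_zero _ (X_sub_C_ne_zero _)),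
    natDegree_pow, natDegree_pow, natDegree_X_sub_C, natDegree_X_sub_C, mul_one, mul_one] at h5
  have h6 : ∑ i, (P i).natDegree ≤ s * (J - 1) := by
    have := Finset.sum_le_card_nsmul Finset.univ (fun i => (P i).natDegree) (J - 1)
      (fun i _ => hPdeg i)
    rwa [Finset.card_univ, Fintype.card_fin, smul_eq_mul] at this
  have h7 : s * (J + 1) ≤ I * (J + 1) := Nat.mul_le_mul_right _ hsI
  have h8 : s * (J + 1) = s * (J - 1) + 2 * s := by
    obtain ⟨m, rfl⟩ : ∃ m, J = m + 1 := ⟨J - 1, by omega⟩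
    rw [Nat.add_sub_cancel]
    ring
  have h9 := h5.trans (hWdeg.trans h6)
  omega

end AbcRad
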